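import Mathlib

/-!
JOB A.  Cochain consequences of a rational homology isomorphism of simplicial sets.

`f : X ⟶ Y` is a map of simplicial sets inducing isomorphisms on rational homology in degrees
0, 1, 2, and `V` is any rational vector space.  A 1-cochain is a function on 1-simplices, etc.
Mathlib: `SSet.ιChainComplex_d`, `SSet.ι_chainComplexMap_f`, `SSet.chainComplex_hom_ext`
(file Mathlib/AlgebraicTopology/SimplicialSet/Homology/Basic.lean) describe the chain complex.
-/

set_option autoImplicit false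

open CategoryTheory Simplicial

namespace H414A

/-- The rational numbers as a coefficient object. -/
noncomputable abbrev QQ : ModuleCat.{0} ℚ := ModuleCat.of ℚ ℚ

section goodLemmas

open HomologicalComplex

theorem good_factor {A B V : Type*} [AddCommGroup A] [Module ℚ A] [AddCommGroup B] [Module ℚ B]
    [AddCommGroup V] [Module ℚ V] (S : A →ₗ[ℚ] B) (P : A →ₗ[ℚ] V)
    (h : LinearMap.ker S ≤ LinearMap.ker P) : ∃ G : B →ₗ[ℚ] V, ∀ x, G (S x) = P x := by
  obtain ⟨G, hG⟩ := LinearMap.exists_extend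
    (((LinearMap.ker S).liftQ P h).comp (S.quotKerEquivRange.symm : LinearMap.range S →ₗ[ℚ] _))
  refine ⟨G, fun x => ?_⟩
  have h1 := congrArg (fun t => t ⟨S x, LinearMap.mem_range_self S x⟩) hG
  simp only [LinearMap.comp_apply, Submodule.subtype_apply, LinearEquiv.coe_coe] at h1
  rw [h1]
  have h2 : S.quotKerEquivRange.symm ⟨S x, LinearMap.mem_range_self S x⟩ =
      (LinearMap.ker S).mkQ x := by
    rw [LinearEquiv.symm_apply_eq]
    rfl
  rw [h2]
  simp

theorem good_inj {K L : ChainComplex (ModuleCat.{0} ℚ) ℕ} (φ : K ⟶ L) (i j k : ℕ)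
    (hi : (ComplexShape.down ℕ).prev j = i) (hk : (ComplexShape.down ℕ).next j = k)
    (h : Mono (homologyMap φ j)) (z : K.X j) (hz : (K.d j k).hom z = 0) (w : L.X i)
    (hw : (φ.f j).hom z = (L.d i j).hom w) : ∃ w' : K.X i, z = (K.d i j).hom w' := by
  rw [mono_homologyMap_iff_up_to_refinements φ i j k hi hk] at h
  obtain ⟨A', π, hπ, x₁, hx⟩ := h (A := ModuleCat.of ℚ ℚ)
    (ModuleCat.ofHom (LinearMap.toSpanSingleton ℚ _ z))
    (by
      apply ModuleCat.hom_ext
      apply LinearMap.ext_ring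
      simp [hz])
    (ModuleCat.ofHom (LinearMap.toSpanSingleton ℚ _ w))
    (by
      apply ModuleCat.hom_ext
      apply LinearMap.ext_ring
      simp [hw])
  obtain ⟨a, ha⟩ := (ModuleCat.epi_iff_surjective π).1 hπ (1 : ℚ)
  refine ⟨x₁.hom a, ?_⟩
  have h1 := congrArg (fun t => t.hom a) hx
  simp only [ModuleCat.hom_comp, LinearMap.comp_apply] at h1
  rw [← h1]
  have ha' : π.hom a = (1 : ℚ) := ha
  rw [ha']
  simp

theorem good_surj {K L : ChainComplex (ModuleCat.{0} ℚ) ℕ} (φ : K ⟶ L) (i j k : ℕ)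
    (hi : (ComplexShape.down ℕ).prev j = i) (hk : (ComplexShape.down ℕ).next j = k)
    (h : Epi (homologyMap φ j)) (z : L.X j) (hz : (L.d j k).hom z = 0) :
    ∃ (z' : K.X j) (w : L.X i), (K.d j k).hom z' = 0 ∧ z = (φ.f j).hom z' + (L.d i j).hom w := by
  rw [epi_homologyMap_iff_up_to_refinements φ i j k hi hk] at h
  obtain ⟨A', π, hπ, x₂, hx₂, y₁, hx⟩ := h (A := ModuleCat.of ℚ ℚ)
    (ModuleCat.ofHom (LinearMap.toSpanSingleton ℚ _ z))
    (by
      apply ModuleCat.hom_ext
      apply LinearMap.ext_ring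
      simp [hz])
  obtain ⟨a, ha⟩ := (ModuleCat.epi_iff_surjective π).1 hπ (1 : ℚ)
  refine ⟨x₂.hom a, y₁.hom a, ?_, ?_⟩
  · have h1 := congrArg (fun t => t.hom a) hx₂
    simpa using h1
  · have h1 := congrArg (fun t => t.hom a) hx
    simp only [ModuleCat.hom_comp, LinearMap.comp_apply] at h1
    have ha' : π.hom a = (1 : ℚ) := ha
    rw [ha'] at h1
    simpa using h1

/-- the basis element of a simplex -/
noncomputable def good_b {X : SSet.{0}} {n : ℕ} (x : X _⦋n⦌) : (X.chainComplex QQ).X n :=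
  (X.ιChainComplex (R := QQ) x).hom (1 : ℚ)

theorem good_univ {X : SSet.{0}} {n : ℕ} {V : Type} [AddCommGroup V] [Module ℚ V] (a : X _⦋n⦌ → V) :
    ∃ A : (X.chainComplex QQ).X n →ₗ[ℚ] V, ∀ x, A (good_b x) = a x := by
  refine ⟨(Limits.Cofan.IsColimit.desc (X.isColimitChainComplexXCofan QQ n)
    (fun x => (ModuleCat.ofHom (LinearMap.toSpanSingleton ℚ V (a x)) : QQ ⟶ ModuleCat.of ℚ V))).hom, ?_⟩
  intro x
  have h := Limits.Cofan.IsColimit.fac (X.isColimitChainComplexXCofan QQ n)
    (fun x => (ModuleCat.ofHom (LinearMap.toSpanSingleton ℚ V (a x)) : QQ ⟶ ModuleCat.of ℚ V)) x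
  have h1 := congrArg (fun t => t.hom (1 : ℚ)) h
  simp only [ModuleCat.hom_comp, LinearMap.comp_apply, ModuleCat.hom_ofHom,
    LinearMap.toSpanSingleton_apply, one_smul] at h1
  exact h1

theorem good_ext {X : SSet.{0}} {n : ℕ} {V : Type} [AddCommGroup V] [Module ℚ V]
    (A B : (X.chainComplex QQ).X n →ₗ[ℚ] V) (h : ∀ x : X _⦋n⦌, A (good_b x) = B (good_b x)) :
    ∀ z, A z = B z := by
  have h1 : (ModuleCat.ofHom A : _ ⟶ ModuleCat.of ℚ V) = ModuleCat.ofHom B := by
    apply SSet.chainComplex_hom_ext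
    intro x
    apply ModuleCat.hom_ext
    apply LinearMap.ext_ring
    exact h x
  intro z
  exact congrArg (fun t => t.hom z) h1

theorem good_d {X : SSet.{0}} {n : ℕ} (x : X _⦋n + 1⦌) :
    ((X.chainComplex QQ).d (n + 1) n).hom (good_b x) =
      ∑ i : Fin (n + 2), ((-1 : ℤ) ^ i.val) • good_b (X.δ i x) := by
  have h := SSet.ιChainComplex_d X QQ x
  have h1 := congrArg (fun t => t.hom (1 : ℚ)) h
  simp only [ModuleCat.hom_comp, LinearMap.comp_apply, ModuleCat.hom_sum, LinearMap.sum_apply,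
    ModuleCat.hom_zsmul, LinearMap.smul_apply] at h1
  exact h1

theorem good_f {X Y : SSet.{0}} (f : X ⟶ Y) {n : ℕ} (x : X _⦋n⦌) :
    ((SSet.chainComplexMap f QQ).f n).hom (good_b x) = good_b (f.app _ x) := by
  have h := SSet.ι_chainComplexMap_f X Y f QQ x
  exact congrArg (fun t => t.hom (1 : ℚ)) h

theorem good_comm {K L : ChainComplex (ModuleCat.{0} ℚ) ℕ} (φ : K ⟶ L) (i j : ℕ) (z : K.X i) :
    (φ.f j).hom ((K.d i j).hom z) = (L.d i j).hom ((φ.f i).hom z) := by
  have h := φ.comm i j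
  exact (congrArg (fun t => t.hom z) h).symm

theorem good_dd {K : ChainComplex (ModuleCat.{0} ℚ) ℕ} (i j k : ℕ) (z : K.X i) :
    (K.d j k).hom ((K.d i j).hom z) = 0 := by
  have h := K.d_comp_d i j k
  exact congrArg (fun t => t.hom z) h

end goodLemmas


section goodMain

open HomologicalComplex

theorem good_d0 {X : SSet.{0}} (e : X _⦋1⦌) :
    ((X.chainComplex QQ).d 1 0).hom (good_b e) = good_b (X.δ 0 e) - good_b (X.δ 1 e) := by
  rw [good_d]
  simp [Fin.sum_univ_succ, sub_eq_add_neg]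

theorem good_d1 {X : SSet.{0}} (s : X _⦋2⦌) :
    ((X.chainComplex QQ).d 2 1).hom (good_b s) =
      good_b (X.δ 0 s) - good_b (X.δ 1 s) + good_b (X.δ 2 s) := by
  rw [good_d]
  simp [Fin.sum_univ_succ, sub_eq_add_neg, add_assoc]

theorem good_d2 {X : SSet.{0}} (s : X _⦋3⦌) :
    ((X.chainComplex QQ).d 3 2).hom (good_b s) =
      good_b (X.δ 0 s) - good_b (X.δ 1 s) + good_b (X.δ 2 s) - good_b (X.δ 3 s) := by
  rw [good_d]
  simp [Fin.sum_univ_succ, sub_eq_add_neg, add_assoc]

end goodMain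

variable {X Y : SSet.{0}} (f : X ⟶ Y)
  (h0 : IsIso (SSet.homologyMap f QQ 0)) (h1 : IsIso (SSet.homologyMap f QQ 1))
  (h2 : IsIso (SSet.homologyMap f QQ 2))
  (V : Type) [AddCommGroup V] [Module ℚ V]

/-- the four statements to be proved -/
structure Good (X Y : SSet.{0}) (f : X ⟶ Y) (V : Type) [AddCommGroup V] : Prop where
  /-- `H⁰` is surjective: a locally constant function on the vertices of `X` comes from `Y`. -/
  h0s : ∀ g : X _⦋0⦌ → V, (∀ e : X _⦋1⦌, g (X.δ 0 e) = g (X.δ 1 e)) →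
    ∃ g' : Y _⦋0⦌ → V, (∀ e : Y _⦋1⦌, g' (Y.δ 0 e) = g' (Y.δ 1 e)) ∧
      ∀ x, g x = g' (f.app _ x)
  /-- `H⁰` is injective. -/
  h0i : ∀ g' : Y _⦋0⦌ → V, (∀ e : Y _⦋1⦌, g' (Y.δ 0 e) = g' (Y.δ 1 e)) →
    (∀ x : X _⦋0⦌, g' (f.app _ x) = 0) → ∀ y, g' y = 0
  /-- `H¹` is injective. -/
  h1i : ∀ a : Y _⦋1⦌ → V, (∀ s : Y _⦋2⦌, a (Y.δ 1 s) = a (Y.δ 2 s) + a (Y.δ 0 s)) →
    (∃ g : X _⦋0⦌ → V, ∀ e : X _⦋1⦌, a (f.app _ e) = g (X.δ 0 e) - g (X.δ 1 e)) →
    ∃ g' : Y _⦋0⦌ → V, ∀ e : Y _⦋1⦌, a e = g' (Y.δ 0 e) - g' (Y.δ 1 e)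
  /-- `H¹` is surjective. -/
  h1s : ∀ a : X _⦋1⦌ → V, (∀ s : X _⦋2⦌, a (X.δ 1 s) = a (X.δ 2 s) + a (X.δ 0 s)) →
    ∃ a' : Y _⦋1⦌ → V, (∀ s : Y _⦋2⦌, a' (Y.δ 1 s) = a' (Y.δ 2 s) + a' (Y.δ 0 s)) ∧
      ∃ g : X _⦋0⦌ → V, ∀ e : X _⦋1⦌, a e = a' (f.app _ e) + g (X.δ 0 e) - g (X.δ 1 e)
  /-- `H²` is injective. -/
  h2i : ∀ β : Y _⦋2⦌ → V,
    (∀ s : Y _⦋3⦌, β (Y.δ 0 s) - β (Y.δ 1 s) + β (Y.δ 2 s) - β (Y.δ 3 s) = 0) →
    (∃ b : X _⦋1⦌ → V, ∀ s : X _⦋2⦌, β (f.app _ s) = b (X.δ 0 s) - b (X.δ 1 s) + b (X.δ 2 s)) →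
    ∃ b' : Y _⦋1⦌ → V, ∀ s : Y _⦋2⦌, β s = b' (Y.δ 0 s) - b' (Y.δ 1 s) + b' (Y.δ 2 s)

/-
PROOF IDEA (TARGET).  Write `C X n` for the rational vector space of `n`-chains with basis the
`n`-simplices; functions `X _⦋n⦌ → V` are the same as linear maps `C X n → V` (morphisms
`(X.chainComplex QQ).X n ⟶ ModuleCat.of ℚ V`, by `SSet.ιChainComplex` and its universal property).
Everything is linear algebra over a field, where subspaces have complements, so that a linear map
defined on a subspace extends.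
 * h0s: `g` kills boundaries, so it factors through `H₀ X ≅ H₀ Y`.
 * h0i: `H₀ X → H₀ Y` is onto.
 * h1i: the cocycle `a` is a linear map on `C Y 1` killing `B₁ Y`; as `a ∘ f` is a coboundary, `a`
   kills `f (Z₁ X)`, and `Z₁ Y = f (Z₁ X) + B₁ Y` by surjectivity on `H₁`; so `a` kills `Z₁ Y`, it
   factors through `∂ : C Y 1 → C Y 0`, and the factor extends from `B₀ Y` to `C Y 0`.
 * h1s: `a` induces a map on `H₁ X ≅ H₁ Y`, i.e. on `Z₁ Y / B₁ Y`; extend it from `Z₁ Y` to `C Y 1`:
   this is `a'`.  Then `a - a' ∘ f` kills `Z₁ X`, hence is a coboundary.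
 * h2i: as h1i, one degree higher.
-/
include h0 h1 h2 in
theorem good : Good X Y f V := by
  set F0 := ((SSet.chainComplexMap f QQ).f 0).hom with hF0
  set F1 := ((SSet.chainComplexMap f QQ).f 1).hom with hF1
  set F2 := ((SSet.chainComplexMap f QQ).f 2).hom with hF2
  have hp : ∀ j : ℕ, (ComplexShape.down ℕ).prev j = j + 1 := fun j => by simp
  have hn : ∀ j : ℕ, (ComplexShape.down ℕ).next (j + 1) = j := fun j => by simp
  have hn0 : (ComplexShape.down ℕ).next 0 = 0 := by simp
  have d00X : ∀ z, ((X.chainComplex QQ).d 0 0).hom z = 0 := by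
    intro z
    rw [(X.chainComplex QQ).shape 0 0 (by simp)]
    rfl
  have d00Y : ∀ z, ((Y.chainComplex QQ).d 0 0).hom z = 0 := by
    intro z
    rw [(Y.chainComplex QQ).shape 0 0 (by simp)]
    rfl
  have i0 := good_inj (SSet.chainComplexMap f QQ) 1 0 0 (hp 0) hn0 (by
    have : IsIso (HomologicalComplex.homologyMap (SSet.chainComplexMap f QQ) 0) := h0
    infer_instance)
  have s0 := good_surj (SSet.chainComplexMap f QQ) 1 0 0 (hp 0) hn0 (by
    have : IsIso (HomologicalComplex.homologyMap (SSet.chainComplexMap f QQ) 0) := h0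
    infer_instance)
  have i1 := good_inj (SSet.chainComplexMap f QQ) 2 1 0 (hp 1) (hn 0) (by
    have : IsIso (HomologicalComplex.homologyMap (SSet.chainComplexMap f QQ) 1) := h1
    infer_instance)
  have s1 := good_surj (SSet.chainComplexMap f QQ) 2 1 0 (hp 1) (hn 0) (by
    have : IsIso (HomologicalComplex.homologyMap (SSet.chainComplexMap f QQ) 1) := h1
    infer_instance)
  have s2 := good_surj (SSet.chainComplexMap f QQ) 3 2 1 (hp 2) (hn 1) (by
    have : IsIso (HomologicalComplex.homologyMap (SSet.chainComplexMap f QQ) 2) := h2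
    infer_instance)
  constructor
  · -- h0s
    intro g hg
    obtain ⟨G, hG⟩ := good_univ g
    have hGd : ∀ z, G (((X.chainComplex QQ).d 1 0).hom z) = 0 := by
      refine good_ext (G.comp ((X.chainComplex QQ).d 1 0).hom) 0 ?_
      intro e
      simp only [LinearMap.comp_apply, good_d0, map_sub, hG, LinearMap.zero_apply]
      rw [hg e, sub_self]
    obtain ⟨G', hG'⟩ := good_factor
      (LinearMap.coprod F0 ((Y.chainComplex QQ).d 1 0).hom)
      (G.comp (LinearMap.fst ℚ _ _)) (by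
        rintro ⟨z, w⟩ hzw
        simp only [LinearMap.mem_ker, LinearMap.coprod_apply] at hzw
        simp only [LinearMap.mem_ker, LinearMap.comp_apply, LinearMap.fst_apply]
        obtain ⟨w', hw'⟩ := i0 z (d00X z) (-w) (by
          rw [map_neg]
          exact eq_neg_of_add_eq_zero_left hzw)
        rw [hw']
        exact hGd w')
    refine ⟨fun y => G' (good_b y), ?_, ?_⟩
    · intro e
      have h := hG' (0, good_b e)
      simp only [LinearMap.coprod_apply, map_zero, zero_add, good_d0, map_sub, LinearMap.comp_apply,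
        LinearMap.fst_apply] at h
      exact sub_eq_zero.1 h
    · intro x
      have h := hG' (good_b x, 0)
      simp only [LinearMap.coprod_apply, map_zero, add_zero, LinearMap.comp_apply,
        LinearMap.fst_apply, hG, hF0, good_f] at h
      exact h.symm
  · -- h0i
    intro g' hg hz y
    obtain ⟨G, hG⟩ := good_univ g'
    have hGd : ∀ z, G (((Y.chainComplex QQ).d 1 0).hom z) = 0 := by
      refine good_ext (G.comp ((Y.chainComplex QQ).d 1 0).hom) 0 ?_
      intro e
      simp only [LinearMap.comp_apply, good_d0, map_sub, hG, LinearMap.zero_apply]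
      rw [hg e, sub_self]
    have hGF : ∀ z, G (F0 z) = 0 := by
      refine good_ext (G.comp F0) 0 ?_
      intro x
      simp only [LinearMap.comp_apply, hF0, good_f, hG, LinearMap.zero_apply]
      exact hz x
    obtain ⟨z', w, -, h⟩ := s0 (good_b y) (d00Y _)
    rw [← hG y, h, map_add, hGd, add_zero]
    exact hGF z'
  · -- h1i
    intro a ha hg
    obtain ⟨g, hg⟩ := hg
    obtain ⟨A, hA⟩ := good_univ a
    obtain ⟨G, hG⟩ := good_univ g
    have hAd : ∀ z, A (((Y.chainComplex QQ).d 2 1).hom z) = 0 := by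
      refine good_ext (A.comp ((Y.chainComplex QQ).d 2 1).hom) 0 ?_
      intro s
      simp only [LinearMap.comp_apply, good_d1, map_sub, map_add, hA, LinearMap.zero_apply]
      rw [ha s]
      abel
    have hAF : ∀ z, A (F1 z) = G (((X.chainComplex QQ).d 1 0).hom z) := by
      refine good_ext (A.comp F1) (G.comp ((X.chainComplex QQ).d 1 0).hom) ?_
      intro x
      simp only [LinearMap.comp_apply, hF1, good_f, hA, good_d0, map_sub, hG]
      exact hg x
    obtain ⟨G', hG'⟩ := good_factor ((Y.chainComplex QQ).d 1 0).hom A (by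
      intro z hz
      simp only [LinearMap.mem_ker] at hz ⊢
      obtain ⟨z', w, hz', h⟩ := s1 z hz
      rw [h, map_add, hAd, add_zero]
      have := hAF z'
      rw [hz', map_zero] at this
      exact this)
    refine ⟨fun y => G' (good_b y), ?_⟩
    intro e
    rw [← hA e, ← hG' (good_b e), good_d0, map_sub]
  · -- h1s
    intro a ha
    obtain ⟨A, hA⟩ := good_univ a
    have hAd : ∀ z, A (((X.chainComplex QQ).d 2 1).hom z) = 0 := by
      refine good_ext (A.comp ((X.chainComplex QQ).d 2 1).hom) 0 ?_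
      intro s
      simp only [LinearMap.comp_apply, good_d1, map_sub, map_add, hA, LinearMap.zero_apply]
      rw [ha s]
      abel
    obtain ⟨A', hA'⟩ := good_factor
      (LinearMap.coprod (F1.comp (LinearMap.ker ((X.chainComplex QQ).d 1 0).hom).subtype)
        ((Y.chainComplex QQ).d 2 1).hom)
      ((A.comp (LinearMap.ker ((X.chainComplex QQ).d 1 0).hom).subtype).comp (LinearMap.fst ℚ _ _))
      (by
        rintro ⟨z, w⟩ hzw
        simp only [LinearMap.mem_ker, LinearMap.coprod_apply, LinearMap.comp_apply,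
          Submodule.subtype_apply] at hzw
        simp only [LinearMap.mem_ker, LinearMap.comp_apply, LinearMap.fst_apply,
          Submodule.subtype_apply]
        obtain ⟨w', hw'⟩ := i1 z z.2 (-w) (by
          rw [map_neg]
          exact eq_neg_of_add_eq_zero_left hzw)
        rw [hw']
        exact hAd w')
    obtain ⟨G, hG⟩ := good_factor ((X.chainComplex QQ).d 1 0).hom (A - A'.comp F1) (by
      intro z hz
      have h := hA' (⟨z, hz⟩, 0)
      simp only [LinearMap.coprod_apply, map_zero, add_zero, LinearMap.comp_apply,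
        LinearMap.fst_apply, Submodule.subtype_apply] at h
      simp only [LinearMap.mem_ker, LinearMap.sub_apply, LinearMap.comp_apply]
      rw [h, sub_self])
    refine ⟨fun y => A' (good_b y), ?_, fun x => G (good_b x), ?_⟩
    · intro s
      have h := hA' (0, good_b s)
      simp only [LinearMap.coprod_apply, map_zero, zero_add, good_d1, map_sub, map_add,
        LinearMap.comp_apply, LinearMap.fst_apply] at h
      have h3 : A' (good_b (Y.δ 0 s)) + A' (good_b (Y.δ 2 s)) = A' (good_b (Y.δ 1 s)) := by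
        rw [← sub_eq_zero, ← h]
        abel
      show A' (good_b (Y.δ 1 s)) = A' (good_b (Y.δ 2 s)) + A' (good_b (Y.δ 0 s))
      rw [← h3]
      abel
    · intro e
      have h := hG (good_b e)
      simp only [good_d0, map_sub, LinearMap.sub_apply, LinearMap.comp_apply, hA, hF1, good_f] at h
      rw [add_sub_assoc, h]
      abel
  · -- h2i
    intro β hβ hb
    obtain ⟨b, hb⟩ := hb
    obtain ⟨A, hA⟩ := good_univ β
    obtain ⟨G, hG⟩ := good_univ b
    have hAd : ∀ z, A (((Y.chainComplex QQ).d 3 2).hom z) = 0 := by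
      refine good_ext (A.comp ((Y.chainComplex QQ).d 3 2).hom) 0 ?_
      intro s
      simp only [LinearMap.comp_apply, good_d2, map_sub, map_add, hA, LinearMap.zero_apply]
      exact hβ s
    have hAF : ∀ z, A (F2 z) = G (((X.chainComplex QQ).d 2 1).hom z) := by
      refine good_ext (A.comp F2) (G.comp ((X.chainComplex QQ).d 2 1).hom) ?_
      intro x
      simp only [LinearMap.comp_apply, hF2, good_f, hA, good_d1, map_sub, map_add, hG]
      exact hb x
    obtain ⟨G', hG'⟩ := good_factor ((Y.chainComplex QQ).d 2 1).hom A (by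
      intro z hz
      simp only [LinearMap.mem_ker] at hz ⊢
      obtain ⟨z', w, hz', h⟩ := s2 z hz
      rw [h, map_add, hAd, add_zero]
      have := hAF z'
      rw [hz', map_zero] at this
      exact this)
    refine ⟨fun y => G' (good_b y), ?_⟩
    intro e
    rw [← hA e, ← hG' (good_b e), good_d1, map_add, map_sub]

end H414A
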