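import Pool.Agent.H414_HQ.A

/-!
JOB B1.  Non-abelian cocycles with values in a group of Heisenberg type, and rational homology
isomorphisms of simplicial sets.
-/

set_option autoImplicit false

open CategoryTheory Simplicial



namespace H414B

open H414A

variable {Q C : Type} [AddCommGroup Q] [Module ℚ Q] [AddCommGroup C] [Module ℚ C]

/-- The group of a bilinear map `B : Q × Q → C` of rational vector spaces: pairs `(q, c)` with
`(q, c) (q', c') = (q + q', c + c' + B q q')`. -/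
@[ext] structure Hs (B : Q →ₗ[ℚ] Q →ₗ[ℚ] C) where
  q : Q
  c : C

instance (B : Q →ₗ[ℚ] Q →ₗ[ℚ] C) : Group (Hs B) where
  mul x y := ⟨x.q + y.q, x.c + y.c + B x.q y.q⟩
  one := ⟨0, 0⟩
  inv x := ⟨-x.q, -x.c + B x.q x.q⟩
  mul_assoc x y z := by
    show (⟨_, _⟩ : Hs B) = ⟨_, _⟩
    congr 1
    · exact add_assoc _ _ _
    · show x.c + y.c + B x.q y.q + z.c + B (x.q + y.q) z.q =
        x.c + (y.c + z.c + B y.q z.q) + B x.q (y.q + z.q)
      simp only [map_add, LinearMap.add_apply]; abel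
  one_mul x := by
    show (⟨_, _⟩ : Hs B) = ⟨_, _⟩
    congr 1
    · exact zero_add _
    · show (0 : C) + x.c + B 0 x.q = x.c
      simp
  mul_one x := by
    show (⟨_, _⟩ : Hs B) = ⟨_, _⟩
    congr 1
    · exact add_zero _
    · show x.c + 0 + B x.q 0 = x.c
      simp
  inv_mul_cancel x := by
    show (⟨_, _⟩ : Hs B) = ⟨_, _⟩
    congr 1
    · exact neg_add_cancel _
    · show -x.c + B x.q x.q + x.c + B (-x.q) x.q = 0
      simp


/-- a cocycle on the simplicial set `X` with values in a group -/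
def IsCoc {G : Type} [Group G] (X : SSet.{0}) (u : X _⦋1⦌ → G) : Prop :=
  ∀ s : X _⦋2⦌, u (X.δ 1 s) = u (X.δ 2 s) * u (X.δ 0 s)

/-- the gauge relation -/
def Gauge {G : Type} [Group G] (X : SSet.{0}) (u v : X _⦋1⦌ → G) : Prop :=
  ∃ g : X _⦋0⦌ → G, ∀ e, u e = g (X.δ 1 e) * v e * (g (X.δ 0 e))⁻¹

theorem mul_q {B : Q →ₗ[ℚ] Q →ₗ[ℚ] C} (x y : Hs B) : (x * y).q = x.q + y.q := rfl

theorem mul_c {B : Q →ₗ[ℚ] Q →ₗ[ℚ] C} (x y : Hs B) : (x * y).c = x.c + y.c + B x.q y.q := rfl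

theorem inv_q {B : Q →ₗ[ℚ] Q →ₗ[ℚ] C} (x : Hs B) : (x⁻¹).q = -x.q := rfl

theorem inv_c {B : Q →ₗ[ℚ] Q →ₗ[ℚ] C} (x : Hs B) : (x⁻¹).c = -x.c + B x.q x.q := rfl

section ids

variable (X : SSet.{0})

theorem v0 (s : X _⦋2⦌) : X.δ 1 (X.δ 2 s) = X.δ 1 (X.δ 1 s) := by
  have h := X.δ_comp_δ (n := 0) (i := 1) (j := 1) le_rfl
  exact congrArg (fun F => (ConcreteCategory.hom F) s) h

theorem v1 (s : X _⦋2⦌) : X.δ 0 (X.δ 2 s) = X.δ 1 (X.δ 0 s) := by
  have h := X.δ_comp_δ (n := 0) (i := 0) (j := 1) (Fin.zero_le _)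
  exact congrArg (fun F => (ConcreteCategory.hom F) s) h

theorem v2 (s : X _⦋2⦌) : X.δ 0 (X.δ 1 s) = X.δ 0 (X.δ 0 s) := by
  have h := X.δ_comp_δ (n := 0) (i := 0) (j := 0) le_rfl
  exact congrArg (fun F => (ConcreteCategory.hom F) s) h

theorem e12 (s : X _⦋3⦌) : X.δ 0 (X.δ 3 s) = X.δ 2 (X.δ 0 s) := by
  have h := X.δ_comp_δ (n := 1) (i := 0) (j := 2) (Fin.zero_le _)
  exact congrArg (fun F => (ConcreteCategory.hom F) s) h

theorem e23 (s : X _⦋3⦌) : X.δ 0 (X.δ 1 s) = X.δ 0 (X.δ 0 s) := by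
  have h := X.δ_comp_δ (n := 1) (i := 0) (j := 0) le_rfl
  exact congrArg (fun F => (ConcreteCategory.hom F) s) h

theorem e02 (s : X _⦋3⦌) : X.δ 1 (X.δ 3 s) = X.δ 2 (X.δ 1 s) := by
  have h := X.δ_comp_δ (n := 1) (i := 1) (j := 2) (by decide)
  exact congrArg (fun F => (ConcreteCategory.hom F) s) h

theorem e01 (s : X _⦋3⦌) : X.δ 2 (X.δ 3 s) = X.δ 2 (X.δ 2 s) := by
  have h := X.δ_comp_δ (n := 1) (i := 2) (j := 2) le_rfl
  exact congrArg (fun F => (ConcreteCategory.hom F) s) h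

theorem e13 (s : X _⦋3⦌) : X.δ 0 (X.δ 2 s) = X.δ 1 (X.δ 0 s) := by
  have h := X.δ_comp_δ (n := 1) (i := 0) (j := 1) (Fin.zero_le _)
  exact congrArg (fun F => (ConcreteCategory.hom F) s) h

theorem nat1 {X Y : SSet.{0}} (f : X ⟶ Y) (i : Fin 2) (e : X _⦋1⦌) :
    f.app _ (X.δ i e) = Y.δ i (f.app _ e) := by
  have h := SimplicialObject.δ_naturality f (n := 0) i
  exact congrArg (fun F => (ConcreteCategory.hom F) e) h

theorem nat2 {X Y : SSet.{0}} (f : X ⟶ Y) (i : Fin 3) (e : X _⦋2⦌) :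
    f.app _ (X.δ i e) = Y.δ i (f.app _ e) := by
  have h := SimplicialObject.δ_naturality f (n := 1) i
  exact congrArg (fun F => (ConcreteCategory.hom F) e) h

end ids

section gauge

variable {G : Type} [Group G] {X : SSet.{0}}

theorem Gauge.symm {u v : X _⦋1⦌ → G} (h : Gauge X u v) : Gauge X v u := by
  obtain ⟨g, hg⟩ := h
  refine ⟨fun x => (g x)⁻¹, fun e => ?_⟩
  rw [hg]
  group

theorem Gauge.trans {u v w : X _⦋1⦌ → G} (h : Gauge X u v) (h' : Gauge X v w) : Gauge X u w := by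
  obtain ⟨g, hg⟩ := h
  obtain ⟨g', hg'⟩ := h'
  refine ⟨fun x => g x * g' x, fun e => ?_⟩
  rw [hg, hg']
  group

/-- the action of gauge transformations -/
def act (X : SSet.{0}) (g : X _⦋0⦌ → G) (u : X _⦋1⦌ → G) : X _⦋1⦌ → G :=
  fun e => g (X.δ 1 e) * u e * (g (X.δ 0 e))⁻¹

theorem gauge_act (g : X _⦋0⦌ → G) (u : X _⦋1⦌ → G) : Gauge X (act X g u) u := ⟨g, fun _ => rfl⟩

theorem coc_act (g : X _⦋0⦌ → G) {u : X _⦋1⦌ → G} (hu : IsCoc X u) : IsCoc X (act X g u) := by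
  intro s
  unfold act
  rw [hu, v0, v1, v2]
  group

theorem act_pull {Y : SSet.{0}} (f : X ⟶ Y) (g : Y _⦋0⦌ → G) (u : Y _⦋1⦌ → G) :
    (fun e => act Y g u (f.app _ e)) = act X (fun x => g (f.app _ x)) (fun e => u (f.app _ e)) := by
  funext e
  unfold act
  beta_reduce
  rw [nat1, nat1]

end gauge

theorem coc_q {B : Q →ₗ[ℚ] Q →ₗ[ℚ] C} {X : SSet.{0}} {u : X _⦋1⦌ → Hs B} (hu : IsCoc X u)
    (s : X _⦋2⦌) : (u (X.δ 1 s)).q = (u (X.δ 2 s)).q + (u (X.δ 0 s)).q := by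
  rw [hu s, mul_q]

theorem coc_c {B : Q →ₗ[ℚ] Q →ₗ[ℚ] C} {X : SSet.{0}} {u : X _⦋1⦌ → Hs B} (hu : IsCoc X u)
    (s : X _⦋2⦌) : (u (X.δ 1 s)).c =
      (u (X.δ 2 s)).c + (u (X.δ 0 s)).c + B (u (X.δ 2 s)).q (u (X.δ 0 s)).q := by
  rw [hu s, mul_c]

theorem coc_mk {B : Q →ₗ[ℚ] Q →ₗ[ℚ] C} {X : SSet.{0}} {a : X _⦋1⦌ → Q} {b : X _⦋1⦌ → C}
    (ha : ∀ s : X _⦋2⦌, a (X.δ 1 s) = a (X.δ 2 s) + a (X.δ 0 s))
    (hb : ∀ s : X _⦋2⦌, b (X.δ 1 s) =
      b (X.δ 2 s) + b (X.δ 0 s) + B (a (X.δ 2 s)) (a (X.δ 0 s))) :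
    IsCoc X (fun e => (⟨a e, b e⟩ : Hs B)) := fun s => Hs.ext (ha s) (hb s)

theorem gauge_bij {X Y : SSet.{0}} (f : X ⟶ Y) (hQ : Good X Y f Q) (hC : Good X Y f C)
    (B : Q →ₗ[ℚ] Q →ₗ[ℚ] C) :
    (∀ u : X _⦋1⦌ → Hs B, IsCoc X u →
      ∃ u' : Y _⦋1⦌ → Hs B, IsCoc Y u' ∧ Gauge X u (fun e => u' (f.app _ e))) ∧
    (∀ u v : Y _⦋1⦌ → Hs B, IsCoc Y u → IsCoc Y v →
      Gauge X (fun e => u (f.app _ e)) (fun e => v (f.app _ e)) → Gauge Y u v) := by
  constructor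
  · intro u hu
    obtain ⟨a', ha', g, hg⟩ := hQ.h1s (fun e => (u e).q) (coc_q hu)
    let u1 := act X (fun x => (⟨g x, 0⟩ : Hs B)) u
    have hu1 : IsCoc X u1 := coc_act _ hu
    have hq : ∀ e, (u1 e).q = a' (f.app _ e) := by
      intro e
      change g (X.δ 1 e) + (u e).q + -g (X.δ 0 e) = _
      have := hg e
      rw [this]
      abel
    have hβ : ∃ b' : Y _⦋1⦌ → C, ∀ s : Y _⦋2⦌, B (a' (Y.δ 2 s)) (a' (Y.δ 0 s)) =
        b' (Y.δ 0 s) - b' (Y.δ 1 s) + b' (Y.δ 2 s) := by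
      refine hC.h2i (fun s => B (a' (Y.δ 2 s)) (a' (Y.δ 0 s))) (fun s => ?_)
        ⟨fun e => -(u1 e).c, fun s => ?_⟩
      · have h1 := ha' (Y.δ 3 s)
        have h2 := ha' (Y.δ 0 s)
        rw [e02, e01, e12] at h1
        rw [e23, e13, e01, e12, h1, h2]
        simp only [map_add, LinearMap.add_apply]
        abel
      · have h1 := coc_c hu1 s
        rw [hq, hq, nat2, nat2] at h1
        beta_reduce
        rw [h1]
        simp only [sub_neg_eq_add]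
        abel
    obtain ⟨b', hb'⟩ := hβ
    obtain ⟨c', hc', g2, hg2⟩ := hC.h1s (fun e => (u1 e).c + b' (f.app _ e)) fun s => by
      have h1 := coc_c hu1 s
      rw [hq, hq, nat2, nat2] at h1
      beta_reduce
      rw [h1, hb', nat2, nat2, nat2]
      abel
    refine ⟨fun e => ⟨a' e, -b' e + c' e⟩, coc_mk ha' fun s => ?_, ?_⟩
    · rw [hb', hc']
      abel
    · refine Gauge.trans (v := u1) (gauge_act (fun x => (⟨g x, 0⟩ : Hs B)) u).symm
        ⟨fun x => ⟨0, -g2 x⟩, fun e => ?_⟩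
      refine Hs.ext ?_ ?_
      · change (u1 e).q = 0 + a' (f.app _ e) + -0
        rw [hq, zero_add, neg_zero, add_zero]
      · change (u1 e).c = -g2 (X.δ 1 e) + (-b' (f.app _ e) + c' (f.app _ e)) + B 0 (a' (f.app _ e)) +
          (-(-g2 (X.δ 0 e)) + B 0 0) + B (0 + a' (f.app _ e)) (-0)
        have h1 := hg2 e
        simp only [map_zero, LinearMap.zero_apply, neg_zero, add_zero, neg_neg]
        have h2 : (u1 e).c = c' (f.app _ e) + g2 (X.δ 0 e) - g2 (X.δ 1 e) - b' (f.app _ e) :=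
          eq_sub_of_add_eq h1
        rw [h2]
        abel
  · intro u v hu hv huv
    -- the first reduction
    obtain ⟨v1, hv1, hg1, hq1⟩ : ∃ v1 : Y _⦋1⦌ → Hs B, IsCoc Y v1 ∧ Gauge Y v1 v ∧
        ∀ e, (v1 e).q = (u e).q := by
      obtain ⟨g, hg⟩ := huv
      obtain ⟨g', hg'⟩ := hQ.h1i (fun e => (u e).q - (v e).q) (fun s => by
        rw [coc_q hu, coc_q hv]
        abel) ⟨fun x => -(g x).q, fun e => by
          have h1 := congrArg Hs.q (hg e)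
          rw [mul_q, mul_q, inv_q] at h1
          beta_reduce at h1 ⊢
          rw [h1]
          simp only [sub_neg_eq_add]
          abel⟩
      refine ⟨act Y (fun y => (⟨-g' y, 0⟩ : Hs B)) v, coc_act _ hv, gauge_act _ _, fun e => ?_⟩
      change -g' (Y.δ 1 e) + (v e).q + -(-g' (Y.δ 0 e)) = (u e).q
      have h1 := hg' e
      have h2 : (u e).q = g' (Y.δ 0 e) - g' (Y.δ 1 e) + (v e).q := by
        rw [← h1]
        abel
      rw [h2]
      abel
    refine Gauge.trans ?_ hg1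
    have huv1 : Gauge X (fun e => u (f.app _ e)) (fun e => v1 (f.app _ e)) := by
      refine huv.trans ?_
      obtain ⟨g, hg⟩ := hg1.symm
      refine ⟨fun x => g (f.app _ x), fun e => ?_⟩
      beta_reduce
      rw [hg, nat1, nat1]
    obtain ⟨g, hg⟩ := huv1
    obtain ⟨g1, hg1c, hg1f⟩ := hQ.h0s (fun x => (g x).q) fun e => by
      have h1 := congrArg Hs.q (hg e)
      rw [mul_q, mul_q, inv_q, hq1] at h1
      have h2 : (g (X.δ 1 e)).q - (g (X.δ 0 e)).q = 0 := by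
        have h3 : (g (X.δ 1 e)).q - (g (X.δ 0 e)).q =
            (g (X.δ 1 e)).q + (u (f.app _ e)).q + -(g (X.δ 0 e)).q - (u (f.app _ e)).q := by abel
        rw [h3, ← h1, sub_self]
      exact (sub_eq_zero.1 h2).symm
    -- the second reduction
    let v2 := act Y (fun y => (⟨g1 y, 0⟩ : Hs B)) v1
    have hv2 : IsCoc Y v2 := coc_act _ hv1
    refine Gauge.trans ?_ (gauge_act (fun y => (⟨g1 y, 0⟩ : Hs B)) v1)
    have hq2 : ∀ e, (v2 e).q = (u e).q := by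
      intro e
      change g1 (Y.δ 1 e) + (v1 e).q + -g1 (Y.δ 0 e) = (u e).q
      rw [hq1, hg1c]
      abel
    let h : X _⦋0⦌ → Hs B := fun x => g x * (⟨g1 (f.app _ x), 0⟩ : Hs B)⁻¹
    have hh : ∀ x, (h x).q = 0 := by
      intro x
      change (g x).q + -g1 (f.app _ x) = 0
      have := hg1f x
      rw [this, add_neg_cancel]
    have hrel : ∀ e, u (f.app _ e) = h (X.δ 1 e) * v2 (f.app _ e) * (h (X.δ 0 e))⁻¹ := by
      intro e
      have h1 := congrFun (act_pull f (fun y => (⟨g1 y, 0⟩ : Hs B)) v1) e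
      beta_reduce at h1
      change v2 (f.app _ e) = _ at h1
      rw [h1]
      have h2 := hg e
      beta_reduce at h2
      rw [h2]
      unfold act
      change _ = g (X.δ 1 e) * (⟨g1 (f.app _ (X.δ 1 e)), 0⟩ : Hs B)⁻¹ * _ *
        (g (X.δ 0 e) * (⟨g1 (f.app _ (X.δ 0 e)), 0⟩ : Hs B)⁻¹)⁻¹
      group
    obtain ⟨k, hk⟩ := hC.h1i (fun e => (u e).c - (v2 e).c) (fun s => by
      rw [coc_c hu, coc_c hv2, hq2, hq2]
      abel) ⟨fun x => -(h x).c, fun e => by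
        have h1 := congrArg Hs.c (hrel e)
        rw [mul_c, mul_c, inv_c, inv_q, hh, hh] at h1
        simp only [map_zero, LinearMap.zero_apply, neg_zero, add_zero] at h1
        beta_reduce
        rw [h1]
        simp only [sub_neg_eq_add]
        abel⟩
    refine ⟨fun y => ⟨0, -k y⟩, fun e => Hs.ext ?_ ?_⟩
    · change (u e).q = 0 + (v2 e).q + -0
      rw [hq2, zero_add, neg_zero, add_zero]
    · change (u e).c = -k (Y.δ 1 e) + (v2 e).c + B 0 (v2 e).q +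
          (-(-k (Y.δ 0 e)) + B 0 0) + B (0 + (v2 e).q) (-0)
      simp only [map_zero, LinearMap.zero_apply, neg_zero, add_zero, neg_neg]
      have h1 := hk e
      have h2 : (u e).c = k (Y.δ 0 e) - k (Y.δ 1 e) + (v2 e).c := by
        rw [← h1]
        abel
      rw [h2]
      abel

end H414B
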