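import Pool.Agent.H414_HQ.B1

/-!
JOB B2.  Rational retracts of spaces with abelian fundamental groups.
-/

set_option autoImplicit false

open CategoryTheory Simplicial



namespace H414B

open H414A

variable {Q C : Type} [AddCommGroup Q] [Module ℚ Q] [AddCommGroup C] [Module ℚ C]




noncomputable section

open unitInterval

/-- the point as a 0-simplex -/
def pt {X : TopCat.{0}} (x : X) : (TopCat.toSSet.obj X) _⦋0⦌ := TopCat.toSSetObj₀Equiv.symm x

theorem pt_surj {X : TopCat.{0}} (y : (TopCat.toSSet.obj X) _⦋0⦌) : ∃ x : X, y = pt x :=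
  ⟨TopCat.toSSetObj₀Equiv y, by simp [pt]⟩

/-- the coordinate of the 1-simplex -/
def co : C(stdSimplex ℝ (Fin 2), I) :=
  ⟨stdSimplexHomeomorphUnitInterval, stdSimplexHomeomorphUnitInterval.continuous⟩

def coi : C(I, stdSimplex ℝ (Fin 2)) :=
  ⟨stdSimplexHomeomorphUnitInterval.symm, stdSimplexHomeomorphUnitInterval.symm.continuous⟩

theorem co_coi (t : I) : co (coi t) = t := by simp [co, coi]
theorem coi_co (t : stdSimplex ℝ (Fin 2)) : coi (co t) = t := by simp [co, coi]

/-- the singular simplex of a map of the unit interval -/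
def sc {X : TopCat.{0}} (c : C(I, X)) : (TopCat.toSSet.obj X) _⦋1⦌ :=
  (TopCat.toSSetObjEquiv X _).symm (c.comp co)

theorem sc_surj {X : TopCat.{0}} (e : (TopCat.toSSet.obj X) _⦋1⦌) : ∃ c : C(I, X), e = sc c := by
  refine ⟨(TopCat.toSSetObjEquiv X _ e).comp coi, ?_⟩
  unfold sc
  rw [Equiv.eq_symm_apply]
  ext t
  show TopCat.toSSetObjEquiv X _ e t = TopCat.toSSetObjEquiv X _ e (coi (co t))
  rw [coi_co]

/-- 2-simplices -/
def sc2 {X : TopCat.{0}} (c : C(stdSimplex ℝ (Fin 3), X)) : (TopCat.toSSet.obj X) _⦋2⦌ :=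
  (TopCat.toSSetObjEquiv X _).symm c

theorem sc2_surj {X : TopCat.{0}} (e : (TopCat.toSSet.obj X) _⦋2⦌) :
    ∃ c : C(stdSimplex ℝ (Fin 3), X), e = sc2 c :=
  ⟨TopCat.toSSetObjEquiv X _ e, by simp [sc2]⟩

/-- the faces of the 2-simplex -/
def face (i : Fin 3) : C(I, stdSimplex ℝ (Fin 3)) :=
  ContinuousMap.comp ⟨stdSimplex.map i.succAbove, stdSimplex.continuous_map _⟩ coi

theorem δ_sc2 {X : TopCat.{0}} (c : C(stdSimplex ℝ (Fin 3), X)) (i : Fin 3) :
    (TopCat.toSSet.obj X).δ i (sc2 c) = sc (c.comp (face i)) := by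
  unfold sc
  rw [Equiv.eq_symm_apply]
  ext t
  show c (stdSimplex.map i.succAbove t) = c (stdSimplex.map i.succAbove (coi (co t)))
  rw [coi_co]

theorem δ1_sc {X : TopCat.{0}} (c : C(I, X)) :
    (TopCat.toSSet.obj X).δ 1 (sc c) = pt (c 0) := by
  unfold pt
  rw [Equiv.eq_symm_apply]
  show c (co (stdSimplex.map (Fin.succAbove (1 : Fin 2)) default)) = c 0
  congr 1
  rw [Subsingleton.elim (default : stdSimplex ℝ (Fin 1)) (stdSimplex.vertex 0),
    stdSimplex.map_vertex]
  rfl

theorem δ0_sc {X : TopCat.{0}} (c : C(I, X)) :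
    (TopCat.toSSet.obj X).δ 0 (sc c) = pt (c 1) := by
  unfold pt
  rw [Equiv.eq_symm_apply]
  show c (co (stdSimplex.map (Fin.succAbove (0 : Fin 2)) default)) = c 1
  congr 1
  rw [Subsingleton.elim (default : stdSimplex ℝ (Fin 1)) (stdSimplex.vertex 0),
    stdSimplex.map_vertex]
  rfl

theorem map_sc {X Y : TopCat.{0}} (f : X ⟶ Y) (c : C(I, X)) :
    (TopCat.toSSet.map f).app _ (sc c) = sc (f.hom.comp c) := rfl

theorem map_pt {X Y : TopCat.{0}} (f : X ⟶ Y) (x : X) :
    (TopCat.toSSet.map f).app _ (pt x) = pt (f x) := rfl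

theorem face_apply (i : Fin 3) (t : I) (k : Fin 3) :
    (face i t : stdSimplex ℝ (Fin 3)) k =
      ∑ j : Fin 2, if i.succAbove j = k then (![1 - (t : ℝ), (t : ℝ)] : Fin 2 → ℝ) j else 0 := by
  show (stdSimplex.map i.succAbove (coi t)) k = _
  rw [stdSimplex.map_coe, FunOnFinite.linearMap_apply_apply, Finset.sum_filter]
  rfl


theorem face_eq (i : Fin 3) (t : I) : (face i t : stdSimplex ℝ (Fin 3)).1 =
    (![![0, 1 - (t : ℝ), (t : ℝ)], ![1 - (t : ℝ), 0, (t : ℝ)], ![1 - (t : ℝ), (t : ℝ), 0]] :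
      Fin 3 → Fin 3 → ℝ) i := by
  funext k
  rw [show (face i t : stdSimplex ℝ (Fin 3)).1 k = (face i t : stdSimplex ℝ (Fin 3)) k from rfl,
    face_apply]
  rw [Fin.sum_univ_two]
  have h00 : Fin.succAbove (0 : Fin 3) (0 : Fin 2) = 1 := rfl
  have h01 : Fin.succAbove (0 : Fin 3) (1 : Fin 2) = 2 := rfl
  have h10 : Fin.succAbove (1 : Fin 3) (0 : Fin 2) = 0 := rfl
  have h11 : Fin.succAbove (1 : Fin 3) (1 : Fin 2) = 2 := rfl
  have h20 : Fin.succAbove (2 : Fin 3) (0 : Fin 2) = 0 := rfl
  have h21 : Fin.succAbove (2 : Fin 3) (1 : Fin 2) = 1 := rfl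
  fin_cases i
  · show (if Fin.succAbove (0 : Fin 3) (0 : Fin 2) = k then _ else 0) +
      (if Fin.succAbove (0 : Fin 3) (1 : Fin 2) = k then _ else 0) = _
    rw [h00, h01]
    fin_cases k <;> simp
  · show (if Fin.succAbove (1 : Fin 3) (0 : Fin 2) = k then _ else 0) +
      (if Fin.succAbove (1 : Fin 3) (1 : Fin 2) = k then _ else 0) = _
    rw [h10, h11]
    fin_cases k <;> simp
  · show (if Fin.succAbove (2 : Fin 3) (0 : Fin 2) = k then _ else 0) +
      (if Fin.succAbove (2 : Fin 3) (1 : Fin 2) = k then _ else 0) = _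
    rw [h20, h21]
    fin_cases k <;> simp

/-- the map of the 2-simplex to the square -/
def sq : C(stdSimplex ℝ (Fin 3), I × I) where
  toFun t := (⟨t.1 2, t.2.1 2, by
      have h := t.2.2
      rw [Fin.sum_univ_three] at h
      have h0 := t.2.1 0
      have h1 := t.2.1 1
      linarith⟩,
    ⟨t.1 1 + t.1 2, by
      have h1 := t.2.1 1
      have h2 := t.2.1 2
      linarith, by
      have h := t.2.2
      rw [Fin.sum_univ_three] at h
      have h0 := t.2.1 0
      linarith⟩)
  continuous_toFun := by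
    refine Continuous.prodMk (Continuous.subtype_mk ?_ _) (Continuous.subtype_mk ?_ _)
    · exact (continuous_apply (2 : Fin 3)).comp continuous_subtype_val
    · exact ((continuous_apply (1 : Fin 3)).comp continuous_subtype_val).add
        ((continuous_apply (2 : Fin 3)).comp continuous_subtype_val)

theorem sq_face0 (t : I) : sq (face 0 t) = (t, 1) := by
  have h := face_eq 0 t
  refine Prod.ext (Subtype.ext ?_) (Subtype.ext ?_)
  · show (face 0 t : stdSimplex ℝ (Fin 3)).1 2 = _
    rw [h]; simp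
  · show (face 0 t : stdSimplex ℝ (Fin 3)).1 1 + (face 0 t : stdSimplex ℝ (Fin 3)).1 2 = _
    rw [h]; simp

theorem sq_face1 (t : I) : sq (face 1 t) = (t, t) := by
  have h := face_eq 1 t
  refine Prod.ext (Subtype.ext ?_) (Subtype.ext ?_)
  · show (face 1 t : stdSimplex ℝ (Fin 3)).1 2 = _
    rw [h]; simp
  · show (face 1 t : stdSimplex ℝ (Fin 3)).1 1 + (face 1 t : stdSimplex ℝ (Fin 3)).1 2 = _
    rw [h]; simp

theorem sq_face2 (t : I) : sq (face 2 t) = (0, t) := by
  have h := face_eq 2 t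
  refine Prod.ext (Subtype.ext ?_) (Subtype.ext ?_)
  · show (face 2 t : stdSimplex ℝ (Fin 3)).1 2 = _
    rw [h]; simp
  · show (face 2 t : stdSimplex ℝ (Fin 3)).1 1 + (face 2 t : stdSimplex ℝ (Fin 3)).1 2 = _
    rw [h]; simp

theorem tri {X : TopCat.{0}} {G : Type} [Group G] {u : (TopCat.toSSet.obj X) _⦋1⦌ → G}
    (hu : IsCoc _ u) (H : C(I × I, X)) (p q d : C(I, X)) (hp : ∀ t, p t = H (0, t))
    (hq : ∀ t, q t = H (t, 1)) (hd : ∀ t, d t = H (t, t)) :
    u (sc d) = u (sc p) * u (sc q) := by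
  have h := hu (sc2 (H.comp sq))
  rw [δ_sc2, δ_sc2, δ_sc2] at h
  have e1 : (H.comp sq).comp (face 1) = d := by
    ext t
    rw [hd]
    show H (sq (face 1 t)) = _
    rw [sq_face1]
  have e2 : (H.comp sq).comp (face 2) = p := by
    ext t
    rw [hp]
    show H (sq (face 2 t)) = _
    rw [sq_face2]
  have e0 : (H.comp sq).comp (face 0) = q := by
    ext t
    rw [hq]
    show H (sq (face 0 t)) = _
    rw [sq_face0]
  rw [e0, e1, e2] at h
  exact h

theorem u_const {X : TopCat.{0}} {G : Type} [Group G] {u : (TopCat.toSSet.obj X) _⦋1⦌ → G}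
    (hu : IsCoc _ u) (x : X) : u (sc (ContinuousMap.const I x)) = 1 := by
  have h := tri hu (ContinuousMap.const (I × I) x) (ContinuousMap.const I x)
    (ContinuousMap.const I x) (ContinuousMap.const I x) (fun _ => rfl) (fun _ => rfl) (fun _ => rfl)
  exact left_eq_mul.mp h

theorem u_homotopic {X : TopCat.{0}} {G : Type} [Group G] {u : (TopCat.toSSet.obj X) _⦋1⦌ → G}
    (hu : IsCoc _ u) {x y : X} {p q : Path x y} (h : p.Homotopic q) :
    u (sc p.toContinuousMap) = u (sc q.toContinuousMap) := by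
  obtain ⟨F⟩ := h
  let d : C(I, X) := (F.toContinuousMap).comp ⟨fun t => (t, t), by fun_prop⟩
  have h1 : u (sc d) = u (sc p.toContinuousMap) * u (sc (ContinuousMap.const I y)) := by
    refine tri hu F.toContinuousMap _ _ _ (fun t => ?_) (fun t => ?_) (fun t => ?_)
    · exact (F.apply_zero t).symm
    · exact (F.target t).symm
    · rfl
  have h2 : u (sc d) = u (sc (ContinuousMap.const I x)) * u (sc q.toContinuousMap) := by
    refine tri hu ((F.toContinuousMap).comp ⟨fun t : I × I => (t.2, t.1), by fun_prop⟩) _ _ _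
      (fun t => ?_) (fun t => ?_) (fun t => ?_)
    · exact (F.source t).symm
    · exact (F.apply_one t).symm
    · rfl
  rw [u_const hu, mul_one] at h1
  rw [u_const hu, one_mul] at h2
  rw [← h1, ← h2]

theorem u_trans {X : TopCat.{0}} {G : Type} [Group G] {u : (TopCat.toSSet.obj X) _⦋1⦌ → G}
    (hu : IsCoc _ u) {x y z : X} (p : Path x y) (q : Path y z) :
    u (sc (p.trans q).toContinuousMap) = u (sc p.toContinuousMap) * u (sc q.toContinuousMap) := by
  let m : C(I × I, I) := ⟨fun t => ⟨((t.1 : ℝ) + t.2) / 2, by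
      have h1 := t.1.2.1
      have h2 := t.2.2.1
      positivity, by
      have h1 := t.1.2.2
      have h2 := t.2.2.2
      linarith⟩, by
      refine Continuous.subtype_mk ?_ _
      fun_prop⟩
  refine tri hu ((p.trans q).toContinuousMap.comp m) _ _ _ (fun t => ?_) (fun t => ?_) (fun t => ?_)
  · show p t = (p.trans q) (m (0, t))
    rw [Path.trans_apply]
    have hm : (m (0, t) : ℝ) = (t : ℝ) / 2 := by
      show (((0 : I) : ℝ) + t) / 2 = _
      simp
    rw [dif_pos (by rw [hm]; have := t.2.2; linarith)]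
    congr 1
    apply Subtype.ext
    show (t : ℝ) = 2 * (m (0, t) : ℝ)
    rw [hm]; ring
  · show q t = (p.trans q) (m (t, 1))
    rw [Path.trans_apply]
    have hm : (m (t, 1) : ℝ) = ((t : ℝ) + 1) / 2 := by
      show ((t : ℝ) + ((1 : I) : ℝ)) / 2 = _
      simp
    by_cases ht : (m (t, 1) : ℝ) ≤ 1 / 2
    · rw [dif_pos ht]
      have ht0 : t = 0 := by
        apply Subtype.ext
        rw [hm] at ht
        have := t.2.1
        show (t : ℝ) = 0
        linarith
      have h1 : (⟨2 * (m (t, 1) : ℝ), (mul_pos_mem_iff zero_lt_two).2 ⟨(m (t, 1)).2.1, ht⟩⟩ : I) = 1 := by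
        apply Subtype.ext
        show 2 * (m (t, 1) : ℝ) = 1
        rw [hm, ht0]; simp
      rw [h1, p.target, ht0, q.source]
    · rw [dif_neg ht]
      congr 1
      apply Subtype.ext
      show (t : ℝ) = 2 * (m (t, 1) : ℝ) - 1
      rw [hm]; ring
  · show (p.trans q) t = (p.trans q) (m (t, t))
    congr 1
    apply Subtype.ext
    show (t : ℝ) = ((t : ℝ) + t) / 2
    ring


/-! ### the converse -/

instance : ContractibleSpace (stdSimplex ℝ (Fin 3)) :=
  (convex_stdSimplex ℝ (Fin 3)).contractibleSpace ⟨_, single_mem_stdSimplex ℝ 0⟩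

theorem face_20_10 : face 2 0 = face 1 0 := by
  apply Subtype.ext
  rw [face_eq, face_eq]
  funext k; fin_cases k <;> simp

theorem face_21_00 : face 0 0 = face 2 1 := by
  apply Subtype.ext
  rw [face_eq, face_eq]
  funext k; fin_cases k <;> simp

theorem face_01_11 : face 1 1 = face 0 1 := by
  apply Subtype.ext
  rw [face_eq, face_eq]
  funext k; fin_cases k <;> simp

theorem tri_homotopic {X : TopCat.{0}} (F : C(stdSimplex ℝ (Fin 3), X)) {x y z : X}
    (p : Path x y) (q : Path y z) (r : Path x z) (hp : ∀ t, p t = F (face 2 t))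
    (hq : ∀ t, q t = F (face 0 t)) (hr : ∀ t, r t = F (face 1 t)) :
    r.Homotopic (p.trans q) := by
  let P : Path (face 2 0) (face 2 1) := ⟨face 2, rfl, rfl⟩
  let Q : Path (face 2 1) (face 0 1) := ⟨face 0, face_21_00, rfl⟩
  let R : Path (face 2 0) (face 0 1) := ⟨face 1, face_20_10.symm, face_01_11⟩
  have h : R.Homotopic (P.trans Q) := SimplyConnectedSpace.paths_homotopic _ _
  have h2 := h.map F
  obtain rfl : x = F (face 2 0) := by rw [← hp, p.source]
  obtain rfl : y = F (face 2 1) := by rw [← hp, p.target]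
  obtain rfl : z = F (face 0 1) := by rw [← hq, q.target]
  have e1 : R.map F.continuous = r := by
    ext t; exact (hr t).symm
  have e2 : (P.trans Q).map F.continuous = p.trans q := by
    rw [Path.map_trans]
    congr 1
    · ext t; exact (hp t).symm
    · ext t; exact (hq t).symm
  rw [e1, e2] at h2
  exact h2

/-- the loop at the base point of a path -/
def lp {X : TopCat.{0}} (x₀ : X) {y z : X} (hy : Joined x₀ y) (hz : Joined x₀ z)
    (p : Path.Homotopic.Quotient y z) : Path.Homotopic.Quotient x₀ x₀ :=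
  ((Path.Homotopic.Quotient.mk hy.somePath).trans p).trans
    (Path.Homotopic.Quotient.mk hz.somePath).symm

theorem lp_trans {X : TopCat.{0}} (x₀ : X) {x y z : X} (hx : Joined x₀ x) (hy : Joined x₀ y)
    (hz : Joined x₀ z) (p : Path.Homotopic.Quotient x y) (q : Path.Homotopic.Quotient y z) :
    lp x₀ hx hz (p.trans q) = (lp x₀ hx hy p).trans (lp x₀ hy hz q) := by
  unfold lp
  generalize Path.Homotopic.Quotient.mk hx.somePath = a
  generalize Path.Homotopic.Quotient.mk hy.somePath = b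
  generalize Path.Homotopic.Quotient.mk hz.somePath = c
  simp only [Path.Homotopic.Quotient.trans_assoc]
  congr 2
  rw [← Path.Homotopic.Quotient.trans_assoc b.symm, Path.Homotopic.Quotient.symm_trans,
    Path.Homotopic.Quotient.refl_trans]

theorem lp_surj {X : TopCat.{0}} (x₀ : X) (h h' : Joined x₀ x₀)
    (a : Path.Homotopic.Quotient x₀ x₀) : ∃ p : Path x₀ x₀,
      lp x₀ h h' (Path.Homotopic.Quotient.mk p) = a := by
  let c := Path.Homotopic.Quotient.mk h.somePath
  obtain ⟨p, hp⟩ := Path.Homotopic.Quotient.mk_surjective ((c.symm.trans a).trans c)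
  refine ⟨p, ?_⟩
  rw [hp]
  show (c.trans ((c.symm.trans a).trans c)).trans c.symm = a
  simp only [Path.Homotopic.Quotient.trans_assoc]
  rw [Path.Homotopic.Quotient.trans_symm, Path.Homotopic.Quotient.trans_refl,
    ← Path.Homotopic.Quotient.trans_assoc, Path.Homotopic.Quotient.trans_symm,
    Path.Homotopic.Quotient.refl_trans]

/-- the map of the unit interval of a simplex -/
def cur {X : TopCat.{0}} (e : (TopCat.toSSet.obj X) _⦋1⦌) : C(I, X) :=
  (TopCat.toSSetObjEquiv X _ e).comp coi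

theorem cur_sc {X : TopCat.{0}} (c : C(I, X)) : cur (sc c) = c := by
  ext t
  show c (co (coi t)) = c t
  rw [co_coi]

/-- the path of a simplex -/
def cpath {X : TopCat.{0}} (c : C(I, X)) : Path (c 0) (c 1) := ⟨c, rfl, rfl⟩

open Classical in
/-- the cocycle of a homomorphism -/
def uPhi {X : TopCat.{0}} {G : Type} [Group G] (x₀ : X) (Φ : FundamentalGroup X x₀ →* G)
    (e : (TopCat.toSSet.obj X) _⦋1⦌) : G :=
  if h : Joined x₀ (cur e 0) then
    (Φ (FundamentalGroup.fromPath (lp x₀ h (h.trans ⟨cpath (cur e)⟩)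
      (Path.Homotopic.Quotient.mk (cpath (cur e))))))⁻¹ else 1

open Classical in
theorem uPhi_sc {X : TopCat.{0}} {G : Type} [Group G] (x₀ : X) (Φ : FundamentalGroup X x₀ →* G)
    {y z : X} (p : Path y z) (hy : Joined x₀ y) (hz : Joined x₀ z) :
    uPhi x₀ Φ (sc p.toContinuousMap) =
      (Φ (FundamentalGroup.fromPath (lp x₀ hy hz (Path.Homotopic.Quotient.mk p))))⁻¹ := by
  obtain ⟨c, rfl, rfl⟩ := p
  unfold uPhi
  have key : ∀ c' : C(I, X), c' = c → (if h : Joined x₀ (c' 0) then
    (Φ (FundamentalGroup.fromPath (lp x₀ h (h.trans ⟨cpath c'⟩)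
      (Path.Homotopic.Quotient.mk (cpath c')))))⁻¹ else 1) = (Φ (FundamentalGroup.fromPath
        (lp x₀ hy hz (Path.Homotopic.Quotient.mk (cpath c)))))⁻¹ := by
    intro c' hc'
    subst hc'
    exact dif_pos (c := Joined x₀ (c' 0)) hy
  exact key _ (cur_sc c)

theorem uPhi_sc' {X : TopCat.{0}} {G : Type} [Group G] (x₀ : X) (Φ : FundamentalGroup X x₀ →* G)
    {y z : X} (p : Path y z) (hy : ¬ Joined x₀ y) :
    uPhi x₀ Φ (sc p.toContinuousMap) = 1 := by
  obtain ⟨c, rfl, rfl⟩ := p
  unfold uPhi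
  have hc : cur (sc c) = c := cur_sc c
  rw [dif_neg]
  show ¬ Joined x₀ (cur (sc c) 0)
  rw [hc]; exact hy

theorem uPhi_coc {X : TopCat.{0}} {G : Type} [Group G] (x₀ : X) (Φ : FundamentalGroup X x₀ →* G) :
    IsCoc _ (uPhi x₀ Φ) := by
  intro s
  obtain ⟨F, rfl⟩ := sc2_surj s
  rw [δ_sc2, δ_sc2, δ_sc2]
  let P : Path (F (face 2 0)) (F (face 2 1)) := ⟨F.comp (face 2), rfl, rfl⟩
  let Q : Path (F (face 2 1)) (F (face 0 1)) := ⟨F.comp (face 0), by
    show F (face 0 0) = _
    rw [face_21_00], rfl⟩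
  let R : Path (F (face 2 0)) (F (face 0 1)) := ⟨F.comp (face 1), by
    show F (face 1 0) = _
    rw [face_20_10], by
    show F (face 1 1) = _
    rw [face_01_11]⟩
  have h := tri_homotopic F P Q R (fun _ => rfl) (fun _ => rfl) (fun _ => rfl)
  show uPhi x₀ Φ (sc R.toContinuousMap) = uPhi x₀ Φ (sc P.toContinuousMap) *
    uPhi x₀ Φ (sc Q.toContinuousMap)
  by_cases hx : Joined x₀ (F (face 2 0))
  · have hy : Joined x₀ (F (face 2 1)) := hx.trans ⟨P⟩
    have hz : Joined x₀ (F (face 0 1)) := hy.trans ⟨Q⟩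
    rw [uPhi_sc x₀ Φ R hx hz, uPhi_sc x₀ Φ P hx hy, uPhi_sc x₀ Φ Q hy hz, ← mul_inv_rev, ← map_mul]
    congr 2
    rw [Path.Homotopic.Quotient.eq.mpr h, Path.Homotopic.Quotient.mk_trans, lp_trans x₀ hx hy hz]
    rfl
  · have hy : ¬ Joined x₀ (F (face 2 1)) := fun h => hx (h.trans ⟨P.symm⟩)
    rw [uPhi_sc' x₀ Φ R hx, uPhi_sc' x₀ Φ P hx, uPhi_sc' x₀ Φ Q hy, one_mul]

/-- commuting values on loops -/
def Ab {G : Type} [Group G] (X : TopCat.{0}) (u : (TopCat.toSSet.obj X) _⦋1⦌ → G) : Prop :=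
  ∀ (x : X) (p q : Path x x), u (sc p.toContinuousMap) * u (sc q.toContinuousMap) =
    u (sc q.toContinuousMap) * u (sc p.toContinuousMap)

theorem uPhi_ab {X : TopCat.{0}} {G : Type} [Group G] (x₀ : X) (Φ : FundamentalGroup X x₀ →* G)
    (h : Ab X (uPhi x₀ Φ)) (a b : FundamentalGroup X x₀) : Φ a * Φ b = Φ b * Φ a := by
  have hr : Joined x₀ x₀ := Joined.refl x₀
  obtain ⟨p, hp⟩ := lp_surj x₀ hr hr a
  obtain ⟨q, hq⟩ := lp_surj x₀ hr hr b
  have h1 := h x₀ p q
  rw [uPhi_sc x₀ Φ p hr hr, uPhi_sc x₀ Φ q hr hr, hp, hq, ← mul_inv_rev, ← mul_inv_rev] at h1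
  exact (inv_injective h1).symm


/-! ### the algebra -/

variable {X Y : TopCat.{0}}

theorem joined_surj {φ : X ⟶ Y}
    (h : Good (TopCat.toSSet.obj X) (TopCat.toSSet.obj Y) (TopCat.toSSet.map φ) ℚ) (y : Y) :
    ∃ x : X, Joined (φ x) y := by
  classical
  by_contra hne
  push Not at hne
  let g : (TopCat.toSSet.obj Y) _⦋0⦌ → ℚ := fun z =>
    if Joined (TopCat.toSSetObj₀Equiv z) y then 1 else 0
  have hpt : ∀ z : Y, TopCat.toSSetObj₀Equiv (pt z) = z := fun z => by simp [pt]
  have hg : ∀ e : (TopCat.toSSet.obj Y) _⦋1⦌,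
      g ((TopCat.toSSet.obj Y).δ 0 e) = g ((TopCat.toSSet.obj Y).δ 1 e) := by
    intro e
    obtain ⟨c, rfl⟩ := sc_surj e
    rw [δ0_sc, δ1_sc]
    show (if Joined (TopCat.toSSetObj₀Equiv (pt (c 1))) y then (1 : ℚ) else 0) =
      if Joined (TopCat.toSSetObj₀Equiv (pt (c 0))) y then (1 : ℚ) else 0
    rw [hpt, hpt]
    have : Joined (c 0) (c 1) := ⟨cpath c⟩
    by_cases h0 : Joined (c 0) y
    · rw [if_pos h0, if_pos (this.symm.trans h0)]
    · rw [if_neg h0, if_neg (fun h1 => h0 (this.trans h1))]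
  have h0 := h.h0i g hg (fun x => by
    obtain ⟨x, rfl⟩ := pt_surj x
    show (if Joined (TopCat.toSSetObj₀Equiv (pt (φ x))) y then (1 : ℚ) else 0) = 0
    rw [hpt, if_neg (hne x)]) (pt y)
  have h1 : g (pt y) = 1 := by
    show (if Joined (TopCat.toSSetObj₀Equiv (pt y)) y then (1 : ℚ) else 0) = 1
    rw [hpt, if_pos (Joined.refl y)]
  rw [h0] at h1
  exact zero_ne_one h1

theorem joined_inj {φ : X ⟶ Y}
    (h : Good (TopCat.toSSet.obj X) (TopCat.toSSet.obj Y) (TopCat.toSSet.map φ) ℚ) {x x' : X}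
    (hj : Joined (φ x) (φ x')) : Joined x x' := by
  classical
  let g : (TopCat.toSSet.obj X) _⦋0⦌ → ℚ := fun z =>
    if Joined x (TopCat.toSSetObj₀Equiv z) then 1 else 0
  have hpt : ∀ z : X, TopCat.toSSetObj₀Equiv (pt z) = z := fun z => by simp [pt]
  have hg : ∀ e : (TopCat.toSSet.obj X) _⦋1⦌,
      g ((TopCat.toSSet.obj X).δ 0 e) = g ((TopCat.toSSet.obj X).δ 1 e) := by
    intro e
    obtain ⟨c, rfl⟩ := sc_surj e
    rw [δ0_sc, δ1_sc]
    show (if Joined x (TopCat.toSSetObj₀Equiv (pt (c 1))) then (1 : ℚ) else 0) =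
      if Joined x (TopCat.toSSetObj₀Equiv (pt (c 0))) then (1 : ℚ) else 0
    rw [hpt, hpt]
    have : Joined (c 0) (c 1) := ⟨cpath c⟩
    by_cases h0 : Joined x (c 0)
    · rw [if_pos h0, if_pos (h0.trans this)]
    · rw [if_neg h0, if_neg (fun h1 => h0 (h1.trans this.symm))]
  obtain ⟨g', hg', hgg⟩ := h.h0s g hg
  have h1 : g (pt x) = 1 := by
    show (if Joined x (TopCat.toSSetObj₀Equiv (pt x)) then (1 : ℚ) else 0) = 1
    rw [hpt, if_pos (Joined.refl x)]
  have h2 : g (pt x') = g (pt x) := by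
    rw [hgg, hgg, map_pt, map_pt]
    obtain ⟨p⟩ := hj
    have := hg' (sc p.toContinuousMap)
    rw [δ0_sc, δ1_sc] at this
    have e0 : p.toContinuousMap 0 = φ x := p.source
    have e1 : p.toContinuousMap 1 = φ x' := p.target
    rw [e0, e1] at this
    exact this
  rw [h1] at h2
  by_contra hn
  have h3 : g (pt x') = 0 := by
    show (if Joined x (TopCat.toSSetObj₀Equiv (pt x')) then (1 : ℚ) else 0) = 0
    rw [hpt, if_neg hn]
  rw [h3] at h2
  exact zero_ne_one h2

theorem u_symm {G : Type} [Group G] {u : (TopCat.toSSet.obj X) _⦋1⦌ → G}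
    (hu : IsCoc _ u) {x y : X} (p : Path x y) :
    u (sc p.symm.toContinuousMap) = (u (sc p.toContinuousMap))⁻¹ := by
  have h := u_trans hu p.symm p
  have h2 : (p.symm.trans p).Homotopic (Path.refl y) := by
    rw [← Path.Homotopic.Quotient.eq, Path.Homotopic.Quotient.mk_trans,
      Path.Homotopic.Quotient.mk_symm, Path.Homotopic.Quotient.symm_trans,
      Path.Homotopic.Quotient.mk_refl]
  rw [u_homotopic hu h2] at h
  have h3 : u (sc (Path.refl y).toContinuousMap) = 1 := u_const hu y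
  rw [h3] at h
  exact eq_inv_of_mul_eq_one_left h.symm

/-- the `Q`-part is an additive cocycle -/
theorem q_coc {B : Q →ₗ[ℚ] Q →ₗ[ℚ] C} {u : (TopCat.toSSet.obj X) _⦋1⦌ → Hs B}
    (hu : IsCoc _ u) (s : (TopCat.toSSet.obj X) _⦋2⦌) :
    (u ((TopCat.toSSet.obj X).δ 1 s)).q = (u ((TopCat.toSSet.obj X).δ 2 s)).q +
      (u ((TopCat.toSSet.obj X).δ 0 s)).q := by
  rw [hu s]; rfl

theorem Hs_comm {B : Q →ₗ[ℚ] Q →ₗ[ℚ] C} (x y : Hs B) : x * y = y * x ↔ B x.q y.q = B y.q x.q := by
  constructor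
  · intro h
    have h2 : x.c + y.c + B x.q y.q = y.c + x.c + B y.q x.q := congrArg Hs.c h
    rw [add_comm y.c x.c] at h2
    exact add_left_cancel h2
  · intro h
    refine Hs.ext ?_ ?_
    · show x.q + y.q = y.q + x.q
      exact add_comm _ _
    · show x.c + y.c + B x.q y.q = y.c + x.c + B y.q x.q
      rw [add_comm y.c x.c, h]

theorem Hs_q_mul {B : Q →ₗ[ℚ] Q →ₗ[ℚ] C} (x y : Hs B) : (x * y).q = x.q + y.q := rfl
theorem Hs_q_inv {B : Q →ₗ[ℚ] Q →ₗ[ℚ] C} (x : Hs B) : (x⁻¹).q = - x.q := rfl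
theorem Hs_q_one {B : Q →ₗ[ℚ] Q →ₗ[ℚ] C} : (1 : Hs B).q = 0 := rfl

/-- the loops at a given point have `Q`-part in the span of the images of loops -/
theorem mem_span {φ : X ⟶ Y}
    (h : ∀ (V : Type) [AddCommGroup V] [Module ℚ V],
      Good (TopCat.toSSet.obj X) (TopCat.toSSet.obj Y) (TopCat.toSSet.map φ) V)
    {B : Q →ₗ[ℚ] Q →ₗ[ℚ] C} {u : (TopCat.toSSet.obj Y) _⦋1⦌ → Hs B}
    (hu : IsCoc _ u) (x : X) (p : Path (φ x) (φ x)) :
    (u (sc p.toContinuousMap)).q ∈ Submodule.span ℚ
      (Set.range fun l : Path x x => (u (sc (l.map φ.hom.continuous).toContinuousMap)).q) := by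
  classical
  set Q' := Submodule.span ℚ
      (Set.range fun l : Path x x => (u (sc (l.map φ.hom.continuous).toContinuousMap)).q) with hQ'
  have hmemQ : ∀ l : Path x x, (u (sc (l.map φ.hom.continuous).toContinuousMap)).q ∈ Q' :=
    fun l => Submodule.subset_span ⟨l, rfl⟩
  have hptY : ∀ z : Y, TopCat.toSSetObj₀Equiv (pt z) = z := fun z => by simp [pt]
  have hptX : ∀ z : X, TopCat.toSSetObj₀Equiv (pt z) = z := fun z => by simp [pt]
  -- the additive cocycle on `Y`
  let ab : (TopCat.toSSet.obj Y) _⦋1⦌ → Q ⧸ Q' := fun e =>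
    if Joined (φ x) (cur e 0) then Q'.mkQ (u e).q else 0
  have hab : ∀ {y z : Y} (l : Path y z), ab (sc l.toContinuousMap) =
      if Joined (φ x) y then Q'.mkQ (u (sc l.toContinuousMap)).q else 0 := by
    intro y z l
    show (if Joined (φ x) (cur (sc l.toContinuousMap) 0) then _ else 0) = _
    have e0 : (cur (sc l.toContinuousMap) : C(I, Y)) 0 = y := by
      rw [cur_sc]; exact l.source
    rw [e0]
  have hcoc : ∀ s : (TopCat.toSSet.obj Y) _⦋2⦌, ab ((TopCat.toSSet.obj Y).δ 1 s) =
      ab ((TopCat.toSSet.obj Y).δ 2 s) + ab ((TopCat.toSSet.obj Y).δ 0 s) := by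
    intro s
    have hq := q_coc hu s
    obtain ⟨F, rfl⟩ := sc2_surj s
    rw [δ_sc2, δ_sc2, δ_sc2] at hq ⊢
    let P : Path (F (face 2 0)) (F (face 2 1)) := ⟨F.comp (face 2), rfl, rfl⟩
    let Q1 : Path (F (face 2 1)) (F (face 0 1)) := ⟨F.comp (face 0), by
      show F (face 0 0) = _
      rw [face_21_00], rfl⟩
    let R : Path (F (face 2 0)) (F (face 0 1)) := ⟨F.comp (face 1), by
      show F (face 1 0) = _
      rw [face_20_10], by
      show F (face 1 1) = _
      rw [face_01_11]⟩
    change (u (sc R.toContinuousMap)).q = (u (sc P.toContinuousMap)).q +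
      (u (sc Q1.toContinuousMap)).q at hq
    show ab (sc R.toContinuousMap) = ab (sc P.toContinuousMap) + ab (sc Q1.toContinuousMap)
    rw [hab, hab, hab]
    by_cases hx : Joined (φ x) (F (face 2 0))
    · have hy : Joined (φ x) (F (face 2 1)) := hx.trans ⟨P⟩
      rw [if_pos hx, if_pos hx, if_pos hy, hq, map_add]
    · have hy : ¬ Joined (φ x) (F (face 2 1)) := fun h => hx (h.trans ⟨P.symm⟩)
      rw [if_neg hx, if_neg hx, if_neg hy, add_zero]
  -- its pull back is a coboundary
  let U : ∀ {y z : X}, Path y z → Q := fun l =>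
    (u (sc (l.map φ.hom.continuous).toContinuousMap)).q
  let g : (TopCat.toSSet.obj X) _⦋0⦌ → Q ⧸ Q' := fun z =>
    if h : Joined x (TopCat.toSSetObj₀Equiv z) then Q'.mkQ (U h.somePath) else 0
  have hg : ∀ z : X, g (pt z) = if h : Joined x z then Q'.mkQ (U h.somePath) else 0 := by
    intro z
    have key : ∀ z' : X, z' = z → (if h : Joined x z' then Q'.mkQ (U h.somePath) else 0) =
        if h : Joined x z then Q'.mkQ (U h.somePath) else 0 := by
      intro z' hz
      subst hz
      rfl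
    exact key _ (hptX z)
  have hpull : ∃ g : (TopCat.toSSet.obj X) _⦋0⦌ → Q ⧸ Q', ∀ e : (TopCat.toSSet.obj X) _⦋1⦌,
      ab ((TopCat.toSSet.map φ).app _ e) = g ((TopCat.toSSet.obj X).δ 0 e) -
        g ((TopCat.toSSet.obj X).δ 1 e) := by
    refine ⟨g, fun e => ?_⟩
    obtain ⟨c, rfl⟩ := sc_surj e
    rw [δ0_sc, δ1_sc, hg, hg]
    let l : Path (c 0) (c 1) := cpath c
    have e1 : (TopCat.toSSet.map φ).app _ (sc c) = sc (l.map φ.hom.continuous).toContinuousMap := rfl
    rw [e1, hab]
    by_cases h0 : Joined x (c 0)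
    · have h1 : Joined x (c 1) := h0.trans ⟨l⟩
      rw [dif_pos h0, dif_pos h1]
      have h2 : Joined (φ x) (φ (c 0)) := ⟨h0.somePath.map φ.hom.continuous⟩
      have h2' : Joined (φ x) (φ.hom (c 0)) := h2
      rw [if_pos h2']
      rw [← map_sub, ← sub_eq_zero, ← map_sub, Submodule.mkQ_apply, Submodule.Quotient.mk_eq_zero]
      have h3 := hmemQ ((h0.somePath.trans l).trans h1.somePath.symm)
      rw [Path.map_trans, Path.map_trans, u_trans hu, u_trans hu, Hs_q_mul, Hs_q_mul,
        ← Path.map_symm, u_symm hu, Hs_q_inv] at h3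
      have h4 : (u (sc (l.map φ.hom.continuous).toContinuousMap)).q -
          (U h1.somePath - U h0.somePath) =
          (u (sc (h0.somePath.map φ.hom.continuous).toContinuousMap)).q +
          (u (sc (l.map φ.hom.continuous).toContinuousMap)).q +
          -(u (sc (h1.somePath.map φ.hom.continuous).toContinuousMap)).q := by
        show (u (sc (l.map φ.hom.continuous).toContinuousMap)).q -
          ((u (sc (h1.somePath.map φ.hom.continuous).toContinuousMap)).q -
            (u (sc (h0.somePath.map φ.hom.continuous).toContinuousMap)).q) = _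
        abel
      rw [h4]
      exact h3
    · have h1 : ¬ Joined x (c 1) := fun h => h0 (h.trans ⟨l.symm⟩)
      rw [dif_neg h0, dif_neg h1]
      have h2 : ¬ Joined (φ x) (φ (c 0)) := fun h' => h0 (joined_inj (h ℚ) h')
      have h2' : ¬ Joined (φ x) (φ.hom (c 0)) := h2
      rw [if_neg h2', sub_zero]
  obtain ⟨g', hg'⟩ := (h (Q ⧸ Q')).h1i ab hcoc hpull
  have hfin := hg' (sc p.toContinuousMap)
  rw [δ0_sc, δ1_sc, hab, if_pos (Joined.refl _)] at hfin
  have e0 : p.toContinuousMap 0 = φ x := p.source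
  have e1 : p.toContinuousMap 1 = φ x := p.target
  rw [e0, e1, sub_self, Submodule.mkQ_apply, Submodule.Quotient.mk_eq_zero] at hfin
  exact hfin

theorem ab_of_pull {φ : X ⟶ Y}
    (h : ∀ (V : Type) [AddCommGroup V] [Module ℚ V],
      Good (TopCat.toSSet.obj X) (TopCat.toSSet.obj Y) (TopCat.toSSet.map φ) V)
    {B : Q →ₗ[ℚ] Q →ₗ[ℚ] C} {u : (TopCat.toSSet.obj Y) _⦋1⦌ → Hs B}
    (hu : IsCoc _ u) (hab : Ab X (fun e => u ((TopCat.toSSet.map φ).app _ e))) : Ab Y u := by
  intro y p q
  obtain ⟨x, ⟨γ⟩⟩ := joined_surj (h ℚ) y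
  have hp := mem_span h hu x ((γ.trans p).trans γ.symm)
  have hq := mem_span h hu x ((γ.trans q).trans γ.symm)
  have e : ∀ p : Path y y, (u (sc ((γ.trans p).trans γ.symm).toContinuousMap)).q =
      (u (sc p.toContinuousMap)).q := by
    intro p
    rw [u_trans hu, u_trans hu, u_symm hu, Hs_q_mul, Hs_q_mul, Hs_q_inv]
    abel
  rw [e] at hp hq
  rw [Hs_comm]
  have key : ∀ a ∈ Submodule.span ℚ
      (Set.range fun l : Path x x => (u (sc (l.map φ.hom.continuous).toContinuousMap)).q),
      ∀ b ∈ Submodule.span ℚ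
      (Set.range fun l : Path x x => (u (sc (l.map φ.hom.continuous).toContinuousMap)).q),
      B a b = B b a := by
    intro a ha
    induction ha using Submodule.span_induction with
    | mem a ha =>
      obtain ⟨l, rfl⟩ := ha
      intro b hb
      induction hb using Submodule.span_induction with
      | mem b hb =>
        obtain ⟨l', rfl⟩ := hb
        exact (Hs_comm _ _).mp (hab x l l')
      | zero => simp
      | add b b' _ _ hb hb' => simp only [map_add, LinearMap.add_apply, hb, hb']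
      | smul t b _ hb => simp only [map_smul, LinearMap.smul_apply, hb]
    | zero => intro b _; simp
    | add a a' _ _ ha ha' =>
      intro b hb
      simp only [map_add, LinearMap.add_apply, ha b hb, ha' b hb]
    | smul t a _ ha =>
      intro b hb
      simp only [map_smul, LinearMap.smul_apply, ha b hb]
  exact key _ hp _ hq

theorem ab_gauge {G : Type} [Group G] {u v : (TopCat.toSSet.obj X) _⦋1⦌ → G}
    (h : Gauge (TopCat.toSSet.obj X) u v) (hv : Ab X v) : Ab X u := by
  obtain ⟨g, hg⟩ := h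
  intro x p q
  have e : ∀ p : Path x x, u (sc p.toContinuousMap) =
      g (pt x) * v (sc p.toContinuousMap) * (g (pt x))⁻¹ := by
    intro p
    rw [hg, δ0_sc, δ1_sc]
    have e0 : p.toContinuousMap 0 = x := p.source
    have e1 : p.toContinuousMap 1 = x := p.target
    rw [e0, e1]
  rw [e, e]
  have := hv x p q
  calc g (pt x) * v (sc p.toContinuousMap) * (g (pt x))⁻¹ *
        (g (pt x) * v (sc q.toContinuousMap) * (g (pt x))⁻¹)
      = g (pt x) * (v (sc p.toContinuousMap) * v (sc q.toContinuousMap)) * (g (pt x))⁻¹ := by group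
    _ = g (pt x) * (v (sc q.toContinuousMap) * v (sc p.toContinuousMap)) * (g (pt x))⁻¹ := by
      rw [this]
    _ = _ := by group

theorem ab_pull {G : Type} [Group G] {u : (TopCat.toSSet.obj Y) _⦋1⦌ → G} (φ : X ⟶ Y)
    (hu : Ab Y u) : Ab X (fun e => u ((TopCat.toSSet.map φ).app _ e)) :=
  fun x p q => hu (φ x) (p.map φ.hom.continuous) (q.map φ.hom.continuous)

theorem ab_of_comm {G : Type} [Group G] {u : (TopCat.toSSet.obj X) _⦋1⦌ → G}
    (hu : IsCoc _ u) (hX : ∀ (x : X) (a b : FundamentalGroup X x), a * b = b * a) : Ab X u := by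
  intro x p q
  rw [← u_trans hu, ← u_trans hu]
  apply u_homotopic hu
  rw [← Path.Homotopic.Quotient.eq, Path.Homotopic.Quotient.mk_trans,
    Path.Homotopic.Quotient.mk_trans]
  exact hX x (FundamentalGroup.fromPath (Path.Homotopic.Quotient.mk q))
    (FundamentalGroup.fromPath (Path.Homotopic.Quotient.mk p))

/-! ### the functor of classes -/

theorem gauge_refl {G : Type} [Group G] (S : SSet.{0}) (u : S _⦋1⦌ → G) : Gauge S u u :=
  ⟨fun _ => 1, fun e => by simp⟩

theorem gauge_symm {G : Type} [Group G] {S : SSet.{0}} {u v : S _⦋1⦌ → G} (h : Gauge S u v) :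
    Gauge S v u := by
  obtain ⟨g, hg⟩ := h
  refine ⟨fun x => (g x)⁻¹, fun e => ?_⟩
  rw [hg e]
  group

theorem gauge_trans {G : Type} [Group G] {S : SSet.{0}} {u v w : S _⦋1⦌ → G} (h : Gauge S u v)
    (h' : Gauge S v w) : Gauge S u w := by
  obtain ⟨g, hg⟩ := h
  obtain ⟨g', hg'⟩ := h'
  refine ⟨fun x => g x * g' x, fun e => ?_⟩
  rw [hg e, hg' e]
  group

theorem gauge_pull {G : Type} [Group G] {S T : SSet.{0}} (f : S ⟶ T) {u v : T _⦋1⦌ → G}
    (h : Gauge T u v) : Gauge S (fun e => u (f.app _ e)) (fun e => v (f.app _ e)) := by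
  obtain ⟨g, hg⟩ := h
  refine ⟨fun x => g (f.app _ x), fun e => ?_⟩
  have h0 : f.app _ (S.δ 0 e) = T.δ 0 (f.app _ e) :=
    ConcreteCategory.congr_hom (f.naturality (SimplexCategory.δ 0).op) e
  have h1 : f.app _ (S.δ 1 e) = T.δ 1 (f.app _ e) :=
    ConcreteCategory.congr_hom (f.naturality (SimplexCategory.δ 1).op) e
  show u (f.app _ e) = g (f.app _ (S.δ 1 e)) * v (f.app _ e) * (g (f.app _ (S.δ 0 e)))⁻¹
  rw [h0, h1]
  exact hg _

theorem coc_pull {G : Type} [Group G] {S T : SSet.{0}} (f : S ⟶ T) {u : T _⦋1⦌ → G}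
    (h : IsCoc T u) : IsCoc S (fun e => u (f.app _ e)) := by
  intro s
  have h0 : f.app _ (S.δ 0 s) = T.δ 0 (f.app _ s) :=
    ConcreteCategory.congr_hom (f.naturality (SimplexCategory.δ 0).op) s
  have h1 : f.app _ (S.δ 1 s) = T.δ 1 (f.app _ s) :=
    ConcreteCategory.congr_hom (f.naturality (SimplexCategory.δ 1).op) s
  have h2 : f.app _ (S.δ 2 s) = T.δ 2 (f.app _ s) :=
    ConcreteCategory.congr_hom (f.naturality (SimplexCategory.δ 2).op) s
  show u (f.app _ (S.δ 1 s)) = u (f.app _ (S.δ 2 s)) * u (f.app _ (S.δ 0 s))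
  rw [h0, h1, h2]
  exact h _

/-- cocycles -/
def Coc (G : Type) [Group G] (X : TopCat.{0}) : Type :=
  {u : (TopCat.toSSet.obj X) _⦋1⦌ → G // IsCoc _ u}

instance cocSetoid (G : Type) [Group G] (X : TopCat.{0}) : Setoid (Coc G X) where
  r u v := Gauge _ u.1 v.1
  iseqv := ⟨fun u => gauge_refl _ u.1, fun h => gauge_symm h, fun h h' => gauge_trans h h'⟩

/-- classes -/
def Cl (G : Type) [Group G] (X : TopCat.{0}) : Type := Quotient (cocSetoid G X)

/-- the pull back of classes -/
def Cl.pull (G : Type) [Group G] {X Y : TopCat.{0}} (φ : X ⟶ Y) : Cl G Y → Cl G X :=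
  Quotient.map (fun u => ⟨fun e => u.1 ((TopCat.toSSet.map φ).app _ e), coc_pull _ u.2⟩)
    (fun _ _ h => gauge_pull _ h)

/-- abelian classes -/
def Cl.ab (G : Type) [Group G] {X : TopCat.{0}} : Cl G X → Prop :=
  Quotient.lift (fun u => Ab X u.1) (fun _ _ h => propext
    ⟨fun h' => ab_gauge (gauge_symm h) h', fun h' => ab_gauge h h'⟩)

/-- sets with a predicate, with the opposite morphisms -/
structure PT : Type 1 where
  T : Type
  P : T → Prop

instance : Category.{0} PT where
  Hom A B := {f : B.T → A.T // ∀ c, B.P c → A.P (f c)}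
  id A := ⟨id, fun _ h => h⟩
  comp f g := ⟨f.1 ∘ g.1, fun c h => f.2 _ (g.2 c h)⟩
  id_comp _ := rfl
  comp_id _ := rfl
  assoc _ _ _ := rfl

theorem PT.comp_val {A B D : PT} (f : A ⟶ B) (g : B ⟶ D) (c : D.T) :
    (f ≫ g).1 c = f.1 (g.1 c) := rfl

theorem PT.isIso {A B : PT} (f : A ⟶ B) (h : Function.Bijective f.1)
    (h2 : ∀ c, A.P (f.1 c) → B.P c) : IsIso f := by
  obtain ⟨g, hg1, hg2⟩ := Function.bijective_iff_has_inverse.mp h
  refine ⟨⟨⟨g, fun c hc => h2 _ (by rw [hg2 c]; exact hc)⟩, ?_, ?_⟩⟩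
  · apply Subtype.ext
    funext c
    exact hg2 c
  · apply Subtype.ext
    funext c
    exact hg1 c

/-- the functor of classes -/
def FF (G : Type) [Group G] : TopCat.{0} ⥤ PT where
  obj X := ⟨Cl G X, Cl.ab G⟩
  map {X Y} φ := ⟨Cl.pull G φ, fun c => by
    induction c using Quotient.ind with
    | _ u => exact fun h => ab_pull φ h⟩
  map_id X := by
    apply Subtype.ext
    funext c
    induction c using Quotient.ind with
    | _ u => rfl
  map_comp f g := by
    apply Subtype.ext
    funext c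
    induction c using Quotient.ind with
    | _ u => rfl

end

/-
PROOF IDEA (TARGET).  Write `S X = TopCat.toSSet.obj X`.  For a space `X` let `F B X` be the set of
cocycles `u : (S X) _⦋1⦌ → Hs B` modulo the gauge relation (an equivalence relation).  It is a
contravariant functor of `X`.  Note that `((singularHomologyFunctor _ n).obj QQ).map f` is
definitionally `SSet.homologyMap (TopCat.toSSet.map f) QQ n`.

(0) A cocycle `u` on `S X` is the same as a functor-like function on paths: if `p, q` are homotopic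
paths then `u p = u q`, and `u (p.trans q) = u p * u q` (explicit singular 2-simplices); 1-simplices
are paths, by `TopCat.toSSetObjEquiv`.

(1) If `f` is in `W`, then `F B Y → F B X` is bijective, by `gauge_bij` and `good`.

(2) Call `u`, with `Q`-part `a`, abelian if `B (a p) (a q) = B (a q) (a p)` for all loops `p, q` of
`X` with the same base point.  This only depends on the class of `u`.  If `f` is in `W` and `u` is a
cocycle on `Y` whose pull back is abelian, then `u` is abelian: let `Y₀` be a path component of `Y`.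
By `h0i` and `h0s` of `good`, `f` induces a bijection of path components; let `x` be a point of `X`
with `f x ∈ Y₀`, and `Q' ⊆ Q` the span of the values of `a` on the loops `f ∘ p`, `p` a loop at `x`.
The additive cocycle `ā` with values in `Q ⧸ Q'`, equal to `a` mod `Q'` on `Y₀` and to zero on the
other components, has a pull back which is a coboundary (on the component of `x`: the value on a path
from `x`; zero elsewhere), so it is a coboundary by `h1i` for `Q ⧸ Q'`.  So `a` has values in `Q'` on the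
loops based at `f x`, and moving the base point along a path does not change the values of `a` on
loops.  Two elements of `Q'` satisfy `B q q' = B q' q` by bilinearity.

(3) By (1) and (2) the functor `F B` and its subfunctor of abelian classes send the maps in `W` to
bijections, so they factor through `W.Localization` (`Localization.Construction.lift`, with values in
`Typeᵒᵖ`); in the retract diagram, `F B Z` consists of abelian classes (as the fundamental groups
of `Z` are commutative), and this implies the same for `X`: a class `u` of `F B X` is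
`i^* (r^* u)` and `r^* u` is abelian.

(4) A homomorphism `Φ : π₁(X, x) → Hs B` gives a cocycle: choose paths from `x` to all points of its
path component, with the constant path for `x` itself, and let the cocycle be `1` on the paths outside
of this component.  A cocycle which is abelian has commuting values on `π₁(X, x)`.
-/
theorem comm_of_rational_retract {X Z : TopCat.{0}} (W : MorphismProperty TopCat.{0})
    (hW : ∀ ⦃X Y : TopCat.{0}⦄ (f : X ⟶ Y), W f → ∀ n : ℕ,
      IsIso (((AlgebraicTopology.singularHomologyFunctor (ModuleCat.{0} ℚ) n).obj QQ).map f))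
    (r : Retract (W.Q.obj X) (W.Q.obj Z))
    (hZ : ∀ (z : Z) (a b : FundamentalGroup Z z), a * b = b * a)
    (x : X) (B : Q →ₗ[ℚ] Q →ₗ[ℚ] C) (Φ : FundamentalGroup X x →* Hs B)
    (a b : FundamentalGroup X x) : Φ a * Φ b = Φ b * Φ a := by
  have hgood : ∀ ⦃X Y : TopCat.{0}⦄ (f : X ⟶ Y), W f → ∀ (V : Type) [AddCommGroup V]
      [Module ℚ V], Good (TopCat.toSSet.obj X) (TopCat.toSSet.obj Y) (TopCat.toSSet.map f) V :=
    fun X Y f hf V _ _ => good (TopCat.toSSet.map f) (hW f hf 0) (hW f hf 1) (hW f hf 2) V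
  have hinv : W.IsInvertedBy (FF (Hs B)) := by
    intro X' Y' f hf
    obtain ⟨hs, hi⟩ := gauge_bij (TopCat.toSSet.map f) (hgood f hf Q) (hgood f hf C) B
    refine PT.isIso _ ⟨?_, ?_⟩ ?_
    · intro c d hcd
      induction c using Quotient.ind with
      | _ u =>
      induction d using Quotient.ind with
      | _ v =>
      exact Quotient.sound (hi u.1 v.1 u.2 v.2 (Quotient.exact hcd))
    · intro c
      induction c using Quotient.ind with
      | _ u =>
      obtain ⟨u', hu', hg⟩ := hs u.1 u.2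
      exact ⟨Quotient.mk _ ⟨u', hu'⟩, Quotient.sound (gauge_symm hg)⟩
    · intro c hc
      induction c using Quotient.ind with
      | _ u => exact ab_of_pull (hgood f hf) u.2 hc
  let L : W.Localization ⥤ PT := Localization.Construction.lift (FF (Hs B)) hinv
  let i : L.obj (W.Q.obj X) ⟶ L.obj (W.Q.obj Z) := L.map r.i
  let j : L.obj (W.Q.obj Z) ⟶ L.obj (W.Q.obj X) := L.map r.r
  have hij : i ≫ j = 𝟙 _ := by
    show L.map r.i ≫ L.map r.r = 𝟙 _
    rw [← L.map_comp, r.retract, L.map_id]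
  let c : Cl (Hs B) X := Quotient.mk _ ⟨uPhi x Φ, uPhi_coc x Φ⟩
  have h1 : i.1 (j.1 c) = c := congrFun (congrArg Subtype.val hij) c
  have h2 : Cl.ab (Hs B) (j.1 c : Cl (Hs B) Z) := by
    generalize (j.1 c : Cl (Hs B) Z) = d
    induction d using Quotient.ind with
    | _ v => exact ab_of_comm v.2 hZ
  have h3 : Cl.ab (Hs B) (i.1 (j.1 c) : Cl (Hs B) X) := i.2 _ h2
  have h4 : Cl.ab (Hs B) c := by
    rw [← h1]; exact h3
  exact uPhi_ab x Φ h4 a b

end H414B
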