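import Mathlib

/-!
JOB C1.  A group with four generators: cocycles with values in characters, and a representation by
upper triangular matrices.

All statements have been checked numerically (matrices over a finite field).
-/

set_option autoImplicit false

namespace H414C

variable {G : Type} [Group G]

/-- the relation of the first knot (`5_2`) -/
def R1 (m d : G) : Prop := d⁻¹ * m * d = d * m⁻¹ * d⁻¹ * d⁻¹ * m * d * m * d⁻¹
/-- the relation of the second knot (`4_1`) -/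
def R2 (m d : G) : Prop := m * d⁻¹ * m⁻¹ * d = d * (m * d⁻¹ * m⁻¹ * d) * m⁻¹
/-- the relation of the third knot (`3_1`) -/
def R3 (m a : G) : Prop := a * m * a = m * a * m

/-- the three longitudes -/
def L1 (m d : G) : G := m * d * d * m⁻¹ * d⁻¹ * m⁻¹ * d⁻¹ * m⁻¹ * d * d * m
def L2 (m d : G) : G := m * m * d * m⁻¹ * d⁻¹ * m * d * m * d⁻¹ * m⁻¹ * d
def L3 (m a : G) : G := m * m * a * m * m * a

/-- `G` is presented by the generators `m, d1, d2, a3` and the three relations. -/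
structure Pres (m d1 d2 a3 : G) : Prop where
  gen : Subgroup.closure {m, d1, d2, a3} = ⊤
  r1 : R1 m d1
  r2 : R2 m d2
  r3 : R3 m a3
  up : ∀ (H : Type) [Group H] (m' d1' d2' a3' : H), R1 m' d1' → R2 m' d2' → R3 m' a3' →
    ∃ ρ : G →* H, ρ m = m' ∧ ρ d1 = d1' ∧ ρ d2 = d2' ∧ ρ a3 = a3'

/-- the three Alexander polynomials -/
def D1 (r : ℂ) : ℂ := 2 * r ^ 2 - 3 * r + 2
def D2 (r : ℂ) : ℂ := r ^ 2 - 3 * r + 1
def D3 (r : ℂ) : ℂ := r ^ 2 - r + 1

/-- The constants: `η, ω, ζ` are roots of `D2, D3, D1`, and of no other of these polynomials, and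
their quotients are no roots at all. -/
structure Cst (η ω ζ : ℂ) : Prop where
  h2 : D2 η = 0
  h3 : D3 ω = 0
  h1 : D1 ζ = 0
  n21 : D1 η ≠ 0
  n23 : D3 η ≠ 0
  n31 : D1 ω ≠ 0
  n32 : D2 ω ≠ 0
  n12 : D2 ζ ≠ 0
  n13 : D3 ζ ≠ 0
  q1 : D1 (ω / η) ≠ 0
  q2 : D2 (ω / η) ≠ 0
  q3 : D3 (ω / η) ≠ 0
  q4 : D1 (ζ / η) ≠ 0
  q5 : D2 (ζ / η) ≠ 0
  q6 : D3 (ζ / η) ≠ 0
  q7 : D1 (ζ / ω) ≠ 0
  q8 : D2 (ζ / ω) ≠ 0
  q9 : D3 (ζ / ω) ≠ 0

/-- A cocycle with values in the character `g ↦ r ^ (ab g)`, zero on `m`. -/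
structure Coc (ab : G →* Multiplicative ℤ) (m : G) (r : ℂ) (e : G → ℂ) : Prop where
  mul : ∀ g h, e (g * h) = e g + r ^ (Multiplicative.toAdd (ab g)) * e h
  zero : e m = 0

/-- The representation and its three cocycles.  The indices `0, …, 4` are those of the rows; the
diagonal is `(1, η⁻¹, 1, ω⁻¹, 1) ^ (ab g)`. -/
structure Rep (m d1 d2 a3 : G) (η ω ζ : ℂ) (ab : G →* Multiplicative ℤ)
    (M : G → Matrix (Fin 5) (Fin 5) ℂ) (V : Fin 3 → G → Fin 5 → ℂ) : Prop where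
  abm : ab m = Multiplicative.ofAdd 1
  abd1 : ab d1 = 1
  abd2 : ab d2 = Multiplicative.ofAdd 1
  aba3 : ab a3 = Multiplicative.ofAdd 1
  one : M 1 = 1
  mul : ∀ g h, M (g * h) = M g * M h
  tri : ∀ g i j, j < i → M g i j = 0
  diag : ∀ g i, M g i i = (![1, η⁻¹, 1, ω⁻¹, 1] i) ^ (Multiplicative.toAdd (ab g))
  Mm : M m = Matrix.diagonal ![1, η⁻¹, 1, ω⁻¹, 1]
  Md1 : M d1 = 1
  Md2 : M d2 = !![1, 1, 1 - η, 0, 0; 0, η⁻¹, 1, 0, 0; 0, 0, 1, 0, 0; 0, 0, 0, ω⁻¹, 0; 0, 0, 0, 0, 1]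
  Ma3 : M a3 = !![1, 0, 0, 0, 0; 0, η⁻¹, 0, 0, 0; 0, 0, 1, 1, -ω⁻¹; 0, 0, 0, ω⁻¹, 1; 0, 0, 0, 0, 1]
  Vmul : ∀ k g h, V k (g * h) = (M g).mulVec (V k h) + (ζ⁻¹ ^ (Multiplicative.toAdd (ab h))) • V k g
  Vm : ∀ k, V k m = 0
  Vd2 : ∀ k, V k d2 = 0
  Va3 : ∀ k, V k a3 = 0
  Vd1 : V 0 d1 = ![1, 0, 0, 0, 0] ∧ V 1 d1 = ![0, 0, 1, 0, 0] ∧ V 2 d1 = ![0, 0, 0, 0, 1]

/-
PROOF of (1): take η = (3 + √5)/2, ω = (1 + √3 i)/2, ζ = (3 + √7 i)/4; note `η⁻¹ = 3 - η`,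
`ω⁻¹ = 1 - ω`, `ζ⁻¹ = 3/2 - ζ`, and reduce the powers of η, ω, ζ; then compare real and imaginary
parts.
PROOF of (2): `ab` exists by `up` for `H = Multiplicative ℤ`.  `M` and `V` together are the
homomorphism of `G` to the 6 × 6 upper triangular invertible matrices with last column `V k` and
last diagonal entry `ζ⁻¹ ^ (ab g)`, given by `up`; the relations have to be checked for the given
matrices: `m` diagonal, `d2` with entries (0,1), (1,2), (0,2), `a3` with entries (2,3), (3,4), (2,4),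
`d1` with last column `(ν₁, 0, ν₃, 0, ν₅)` and everything else as in the identity matrix.
PROOF of (3): apply the cocycle rule to the three relations: `e (R1)` gives `D1 r * e d1 = 0`, etc.
PROOF of (4): `{g | e g = 0}` is a subgroup containing the generators.
-/

theorem exists_cst : ∃ η ω ζ : ℂ, Cst η ω ζ := by
  obtain ⟨s, hs⟩ := IsAlgClosed.exists_pow_nat_eq (5 : ℂ) (n := 2) (by norm_num)
  obtain ⟨t, ht⟩ := IsAlgClosed.exists_pow_nat_eq (-3 : ℂ) (n := 2) (by norm_num)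
  obtain ⟨w, hw⟩ := IsAlgClosed.exists_pow_nat_eq (-7 : ℂ) (n := 2) (by norm_num)
  have h2 : ((3 + s) / 2) ^ 2 - 3 * ((3 + s) / 2) + 1 = 0 := by linear_combination hs / 4
  have h3 : ((1 + t) / 2) ^ 2 - ((1 + t) / 2) + 1 = 0 := by linear_combination ht / 4
  have h1 : 2 * ((3 + w) / 4) ^ 2 - 3 * ((3 + w) / 4) + 2 = 0 := by linear_combination hw / 8
  clear hs ht hw
  generalize (3 + s) / 2 = η at h2
  generalize (1 + t) / 2 = ω at h3
  generalize (3 + w) / 4 = ζ at h1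
  have hη : η ≠ 0 := by
    rintro rfl; norm_num at h2
  have hω : ω ≠ 0 := by
    rintro rfl; norm_num at h3
  have hζ : ζ ≠ 0 := by
    rintro rfl; norm_num at h1
  refine ⟨η, ω, ζ, ?_⟩
  constructor <;> simp only [D1, D2, D3]
  · exact h2
  · exact h3
  · exact h1
  · grind
  · grind
  · grind
  · grind
  · grind
  · grind
  · intro h; field_simp at h; grind
  · intro h; field_simp at h; grind
  · intro h; field_simp at h; grind
  · intro h; field_simp at h; grind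
  · intro h; field_simp at h; grind
  · intro h; field_simp at h; grind
  · intro h; field_simp at h; grind
  · intro h; field_simp at h; grind
  · intro h; field_simp at h; grind

noncomputable section rep

/-- the image of `m` -/
def Dm (η ω : ℂ) : Matrix (Fin 5) (Fin 5) ℂ := Matrix.diagonal ![1, η⁻¹, 1, ω⁻¹, 1]
def Dm' (η ω : ℂ) : Matrix (Fin 5) (Fin 5) ℂ := Matrix.diagonal ![1, η, 1, ω, 1]
/-- the image of `d2` -/
def Am (η ω : ℂ) : Matrix (Fin 5) (Fin 5) ℂ :=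
  !![1, 1, 1 - η, 0, 0; 0, η⁻¹, 1, 0, 0; 0, 0, 1, 0, 0; 0, 0, 0, ω⁻¹, 0; 0, 0, 0, 0, 1]
def Am' (η ω : ℂ) : Matrix (Fin 5) (Fin 5) ℂ :=
  !![1, -η, 2 * η - 1, 0, 0; 0, η, -η, 0, 0; 0, 0, 1, 0, 0; 0, 0, 0, ω, 0; 0, 0, 0, 0, 1]
/-- the image of `a3` -/
def Bm (η ω : ℂ) : Matrix (Fin 5) (Fin 5) ℂ :=
  !![1, 0, 0, 0, 0; 0, η⁻¹, 0, 0, 0; 0, 0, 1, 1, -ω⁻¹; 0, 0, 0, ω⁻¹, 1; 0, 0, 0, 0, 1]
def Bm' (η ω : ℂ) : Matrix (Fin 5) (Fin 5) ℂ :=
  !![1, 0, 0, 0, 0; 0, η, 0, 0, 0; 0, 0, 1, -ω, ω + ω⁻¹; 0, 0, 0, ω, -ω; 0, 0, 0, 0, 1]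
/-- the last columns of the image of `d1` -/
def Nm : Matrix (Fin 5) (Fin 3) ℂ := !![1, 0, 0; 0, 0, 0; 0, 1, 0; 0, 0, 0; 0, 0, 1]
/-- the element `w` -/
def Wm (η : ℂ) : Matrix (Fin 5) (Fin 5) ℂ :=
  !![1, 1 - η, η - η ^ 2, 0, 0; 0, 1, η - 1, 0, 0; 0, 0, 1, 0, 0; 0, 0, 0, 1, 0; 0, 0, 0, 0, 1]

variable {η ω : ℂ}

theorem DD' (hη : η ≠ 0) (hω : ω ≠ 0) : Dm η ω * Dm' η ω = 1 := by
  rw [Dm, Dm', Matrix.diagonal_mul_diagonal, ← Matrix.diagonal_one]
  congr 1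
  funext i
  fin_cases i <;> simp [hη, hω]

theorem D'D (hη : η ≠ 0) (hω : ω ≠ 0) : Dm' η ω * Dm η ω = 1 := by
  rw [Dm, Dm', Matrix.diagonal_mul_diagonal, ← Matrix.diagonal_one]
  congr 1
  funext i
  fin_cases i <;> simp [hη, hω]

theorem AA' (hη : η ≠ 0) (hω : ω ≠ 0) : Am η ω * Am' η ω = 1 := by
  ext i j
  fin_cases i <;> fin_cases j <;>
    simp [Am, Am', Matrix.mul_apply, Fin.sum_univ_succ, hη, hω, Matrix.one_apply] <;> ring

theorem BB' (hη : η ≠ 0) (hω : ω ≠ 0) : Bm η ω * Bm' η ω = 1 := by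
  ext i j
  fin_cases i <;> fin_cases j <;>
    simp [Bm, Bm', Matrix.mul_apply, Fin.sum_univ_succ, hη, hω, Matrix.one_apply] <;> ring

theorem W1 (hη : η ≠ 0) (hω : ω ≠ 0) : Dm η ω * Am' η ω = Wm η * Am' η ω * Dm η ω := by
  ext i j
  fin_cases i <;> fin_cases j <;>
    simp [Am, Am', Dm, Wm, Matrix.mul_apply, Fin.sum_univ_succ, hη, hω, Matrix.one_apply] <;>
    field_simp <;> ring

theorem W2 (h2 : D2 η = 0) (hη : η ≠ 0) (hω : ω ≠ 0) : Wm η * Dm η ω = Am η ω * Wm η := by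
  rw [D2] at h2
  ext i j
  fin_cases i <;> fin_cases j <;>
    simp [Am, Dm, Wm, Matrix.mul_apply, Fin.sum_univ_succ, hη, hω, Matrix.one_apply] <;>
    field_simp <;> linear_combination h2

theorem BD : Bm η ω * Dm η ω = !![1, 0, 0, 0, 0; 0, η⁻¹ * η⁻¹, 0, 0, 0; 0, 0, 1, ω⁻¹, -ω⁻¹;
    0, 0, 0, ω⁻¹ * ω⁻¹, 1; 0, 0, 0, 0, 1] := by
  ext i j
  fin_cases i <;> fin_cases j <;> simp [Bm, Dm, Matrix.mul_diagonal]

theorem DB : Dm η ω * Bm η ω = !![1, 0, 0, 0, 0; 0, η⁻¹ * η⁻¹, 0, 0, 0; 0, 0, 1, 1, -ω⁻¹;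
    0, 0, 0, ω⁻¹ * ω⁻¹, ω⁻¹; 0, 0, 0, 0, 1] := by
  ext i j
  fin_cases i <;> fin_cases j <;> simp [Bm, Dm, Matrix.diagonal_mul]

theorem B3 (h3 : D3 ω = 0) (hη : η ≠ 0) (hω : ω ≠ 0) :
    Bm η ω * Dm η ω * Bm η ω = Dm η ω * Bm η ω * Dm η ω := by
  rw [D3] at h3
  rw [BD, DB]
  ext i j
  fin_cases i <;> fin_cases j <;>
    simp [Bm, Dm, Matrix.mul_apply, Fin.sum_univ_succ, hη, hω, Matrix.one_apply] <;>
    field_simp <;> linear_combination h3

theorem DN : Dm η ω * Nm = Nm := by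
  ext i j
  fin_cases i <;> fin_cases j <;> simp [Dm, Nm, Matrix.diagonal_mul]

theorem D'N : Dm' η ω * Nm = Nm := by
  ext i j
  fin_cases i <;> fin_cases j <;> simp [Dm', Nm, Matrix.diagonal_mul]

theorem A'A (hη : η ≠ 0) (hω : ω ≠ 0) : Am' η ω * Am η ω = 1 := mul_eq_one_comm.mp (AA' hη hω)

/-- block matrices -/
def T (A : Matrix (Fin 5) (Fin 5) ℂ) (x c : ℂ) : Matrix (Fin 5 ⊕ Fin 3) (Fin 5 ⊕ Fin 3) ℂ :=
  Matrix.fromBlocks A (x • Nm) 0 (c • 1)

theorem T_mul0 (A A' : Matrix (Fin 5) (Fin 5) ℂ) (x c c' : ℂ) :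
    T A x c * T A' 0 c' = T (A * A') (x * c') (c * c') := by
  rw [T, T, T, Matrix.fromBlocks_multiply]
  congr 1
  · simp
  · simp [smul_smul, mul_comm]
  · simp
  · simp [smul_smul, mul_comm]

theorem T_mul1 (A A' : Matrix (Fin 5) (Fin 5) ℂ) (x x' c c' : ℂ) (hA : A * Nm = Nm) :
    T A x c * T A' x' c' = T (A * A') (x' + x * c') (c * c') := by
  rw [T, T, T, Matrix.fromBlocks_multiply]
  congr 1
  · simp
  · simp [smul_smul, mul_comm, hA, add_smul]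
  · simp
  · simp [smul_smul, mul_comm]

theorem T_one : T 1 0 1 = 1 := by
  rw [T]; simp

/-- units -/
def uT (A A' : Matrix (Fin 5) (Fin 5) ℂ) (x x' c c' : ℂ) (h : T A x c * T A' x' c' = 1) :
    (Matrix (Fin 5 ⊕ Fin 3) (Fin 5 ⊕ Fin 3) ℂ)ˣ :=
  ⟨T A x c, T A' x' c', h, mul_eq_one_comm.mp h⟩

theorem uT_val (A A' : Matrix (Fin 5) (Fin 5) ℂ) (x x' c c' : ℂ) (h : T A x c * T A' x' c' = 1) :
    (uT A A' x x' c c' h : Matrix (Fin 5 ⊕ Fin 3) (Fin 5 ⊕ Fin 3) ℂ) = T A x c := rfl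

theorem uT_inv (A A' : Matrix (Fin 5) (Fin 5) ℂ) (x x' c c' : ℂ) (h : T A x c * T A' x' c' = 1) :
    (((uT A A' x x' c c' h)⁻¹ : (Matrix (Fin 5 ⊕ Fin 3) (Fin 5 ⊕ Fin 3) ℂ)ˣ) :
      Matrix (Fin 5 ⊕ Fin 3) (Fin 5 ⊕ Fin 3) ℂ) = T A' x' c' := rfl

end rep

theorem exists_rep {m d1 d2 a3 : G} (P : Pres m d1 d2 a3) {η ω ζ : ℂ} (hc : Cst η ω ζ) :
    ∃ ab M V, Rep m d1 d2 a3 η ω ζ ab M V := by
  have hη : η ≠ 0 := by
    rintro rfl; have := hc.h2; norm_num [D2] at this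
  have hω : ω ≠ 0 := by
    rintro rfl; have := hc.h3; norm_num [D3] at this
  have hζ : ζ ≠ 0 := by
    rintro rfl; have := hc.h1; norm_num [D1] at this
  obtain ⟨ab, abm, abd1, abd2, aba3⟩ := P.up (Multiplicative ℤ) (Multiplicative.ofAdd 1) 1
    (Multiplicative.ofAdd 1) (Multiplicative.ofAdd 1) (by unfold R1; decide) (by unfold R2; decide)
    (by unfold R3; decide)
  set c : ℂ := ζ⁻¹ with hcdef
  have hc0 : c ≠ 0 := inv_ne_zero hζ
  have hc1 : 2 * c ^ 2 - 3 * c + 2 = 0 := by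
    have h := hc.h1
    rw [D1] at h
    rw [hcdef]
    field_simp
    linear_combination h
  have e1 : T (Dm η ω) 0 c * T (Dm' η ω) 0 c⁻¹ = 1 := by
    rw [T_mul0, DD' hη hω, zero_mul, mul_inv_cancel₀ hc0, T_one]
  have e2 : T 1 1 1 * T 1 (-1) 1 = 1 := by
    rw [T_mul1 _ _ _ _ _ _ (by simp)]
    norm_num [T_one]
  have e3 : T (Am η ω) 0 c * T (Am' η ω) 0 c⁻¹ = 1 := by
    rw [T_mul0, AA' hη hω, zero_mul, mul_inv_cancel₀ hc0, T_one]
  have e4 : T (Bm η ω) 0 c * T (Bm' η ω) 0 c⁻¹ = 1 := by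
    rw [T_mul0, BB' hη hω, zero_mul, mul_inv_cancel₀ hc0, T_one]
  have r1 : R1 (uT _ _ _ _ _ _ e1) (uT _ _ _ _ _ _ e2) := by
    unfold R1
    apply Units.ext
    simp only [Units.val_mul, uT_val, uT_inv]
    rw [T_mul0, T_mul1 _ _ _ _ _ _ (by simp [Matrix.mul_assoc, DN]), T_mul0,
      T_mul1 _ _ _ _ _ _ (by simp [Matrix.mul_assoc, D'N]),
      T_mul1 _ _ _ _ _ _ (by simp [Matrix.mul_assoc, D'N]), T_mul0,
      T_mul1 _ _ _ _ _ _ (by simp [Matrix.mul_assoc, DN, D'N]), T_mul0,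
      T_mul1 _ _ _ _ _ _ (by simp [Matrix.mul_assoc, DN, D'N])]
    congr 1
    · simp only [one_mul, mul_one]
      rw [D'D hη hω, one_mul]
    · field_simp
      linear_combination hc1
    · field_simp
  have r2 : R2 (uT _ _ _ _ _ _ e1) (uT _ _ _ _ _ _ e3) := by
    unfold R2
    apply Units.ext
    simp only [Units.val_mul, uT_val, uT_inv]
    simp only [T_mul0, zero_mul]
    have hw : Dm η ω * Am' η ω * Dm' η ω * Am η ω = Wm η := by
      rw [W1 hη hω, mul_assoc (Wm η * Am' η ω), DD' hη hω, mul_one, mul_assoc, A'A hη hω, mul_one]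
    congr 1
    · rw [hw, ← W2 hc.h2 hη hω, mul_assoc, DD' hη hω, mul_one]
    · field_simp
  have r3 : R3 (uT _ _ _ _ _ _ e1) (uT _ _ _ _ _ _ e4) := by
    unfold R3
    apply Units.ext
    simp only [Units.val_mul, uT_val, uT_inv]
    simp only [T_mul0, zero_mul]
    rw [B3 hc.h3 hη hω]
  obtain ⟨ρ, ρm, ρd1, ρd2, ρa3⟩ := P.up _ _ _ _ _ r1 r2 r3
  let Φ : G → Matrix (Fin 5 ⊕ Fin 3) (Fin 5 ⊕ Fin 3) ℂ := fun g => (ρ g).val
  have Φmul : ∀ g h, Φ (g * h) = Φ g * Φ h := by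
    intro g h
    simp only [Φ, map_mul, Units.val_mul]
  have Φone : Φ 1 = 1 := by
    simp only [Φ, map_one, Units.val_one]
  have Φm : Φ m = T (Dm η ω) 0 c := by simp only [Φ, ρm, uT_val]
  have Φd1 : Φ d1 = T 1 1 1 := by simp only [Φ, ρd1, uT_val]
  have Φd2 : Φ d2 = T (Am η ω) 0 c := by simp only [Φ, ρd2, uT_val]
  have Φa3 : Φ a3 = T (Bm η ω) 0 c := by simp only [Φ, ρa3, uT_val]
  have Φm' : Φ m⁻¹ = T (Dm' η ω) 0 c⁻¹ := by simp only [Φ, map_inv, ρm, uT_inv]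
  have Φd1' : Φ d1⁻¹ = T 1 (-1) 1 := by simp only [Φ, map_inv, ρd1, uT_inv]
  have Φd2' : Φ d2⁻¹ = T (Am' η ω) 0 c⁻¹ := by simp only [Φ, map_inv, ρd2, uT_inv]
  have Φa3' : Φ a3⁻¹ = T (Bm' η ω) 0 c⁻¹ := by simp only [Φ, map_inv, ρa3, uT_inv]
  let Q : G → Prop := fun g => (Φ g).toBlocks₂₁ = 0 ∧
    (Φ g).toBlocks₂₂ = (c ^ (Multiplicative.toAdd (ab g))) • 1 ∧
    (∀ i j, j < i → (Φ g).toBlocks₁₁ i j = 0) ∧
    ∀ i, (Φ g).toBlocks₁₁ i i = (![1, η⁻¹, 1, ω⁻¹, 1] i) ^ (Multiplicative.toAdd (ab g))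
  have hsplit : ∀ g, Φ g = Matrix.fromBlocks (Φ g).toBlocks₁₁ (Φ g).toBlocks₁₂ (Φ g).toBlocks₂₁
      (Φ g).toBlocks₂₂ := fun g => (Matrix.fromBlocks_toBlocks _).symm
  have hmul : ∀ g h, Φ (g * h) = Matrix.fromBlocks
      ((Φ g).toBlocks₁₁ * (Φ h).toBlocks₁₁ + (Φ g).toBlocks₁₂ * (Φ h).toBlocks₂₁)
      ((Φ g).toBlocks₁₁ * (Φ h).toBlocks₁₂ + (Φ g).toBlocks₁₂ * (Φ h).toBlocks₂₂)
      ((Φ g).toBlocks₂₁ * (Φ h).toBlocks₁₁ + (Φ g).toBlocks₂₂ * (Φ h).toBlocks₂₁)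
      ((Φ g).toBlocks₂₁ * (Φ h).toBlocks₁₂ + (Φ g).toBlocks₂₂ * (Φ h).toBlocks₂₂) := by
    intro g h
    rw [← Matrix.fromBlocks_multiply, ← hsplit, ← hsplit, Φmul]
  have hQT : ∀ (g : G) (A : Matrix (Fin 5) (Fin 5) ℂ) (x c' : ℂ), Φ g = T A x c' →
      c' = c ^ (Multiplicative.toAdd (ab g)) → (∀ i j, j < i → A i j = 0) →
      (∀ i, A i i = (![1, η⁻¹, 1, ω⁻¹, 1] i) ^ (Multiplicative.toAdd (ab g))) → Q g := by
    intro g A x c' h h1 h2 h3
    refine ⟨?_, ?_, ?_, ?_⟩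
    · rw [h, T, Matrix.toBlocks_fromBlocks₂₁]
    · rw [h, T, Matrix.toBlocks_fromBlocks₂₂, h1]
    · rw [h, T, Matrix.toBlocks_fromBlocks₁₁]; exact h2
    · rw [h, T, Matrix.toBlocks_fromBlocks₁₁]; exact h3
  have hQ : ∀ g, Q g := by
    intro g
    have hg : g ∈ Subgroup.closure ({m, d1, d2, a3} : Set G) := by rw [P.gen]; trivial
    induction hg using Subgroup.closure_induction'' with
    | mem x hx =>
      rcases hx with hx | hx | hx | hx
      · rw [hx]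
        refine hQT m _ _ _ Φm ?_ ?_ ?_
        · rw [abm, toAdd_ofAdd, zpow_one]
        · intro i j; fin_cases i <;> fin_cases j <;> simp [Dm]
        · intro i; rw [abm, toAdd_ofAdd, zpow_one]; simp [Dm]
      · rw [hx]
        refine hQT d1 _ _ _ Φd1 ?_ ?_ ?_
        · rw [abd1, toAdd_one, zpow_zero]
        · intro i j hij; exact Matrix.one_apply_ne (ne_of_gt hij)
        · intro i; rw [abd1, toAdd_one, zpow_zero]; simp
      · rw [hx]
        refine hQT d2 _ _ _ Φd2 ?_ ?_ ?_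
        · rw [abd2, toAdd_ofAdd, zpow_one]
        · intro i j; fin_cases i <;> fin_cases j <;> simp [Am]
        · intro i; rw [abd2, toAdd_ofAdd, zpow_one]; fin_cases i <;> simp [Am]
      · rw [hx]
        refine hQT a3 _ _ _ Φa3 ?_ ?_ ?_
        · rw [aba3, toAdd_ofAdd, zpow_one]
        · intro i j; fin_cases i <;> fin_cases j <;> simp [Bm]
        · intro i; rw [aba3, toAdd_ofAdd, zpow_one]; fin_cases i <;> simp [Bm]
    | inv_mem x hx =>
      rcases hx with hx | hx | hx | hx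
      · rw [hx]
        refine hQT m⁻¹ _ _ _ Φm' ?_ ?_ ?_
        · rw [map_inv, abm, toAdd_inv, toAdd_ofAdd, zpow_neg, zpow_one]
        · intro i j; fin_cases i <;> fin_cases j <;> simp [Dm']
        · intro i; rw [map_inv, abm, toAdd_inv, toAdd_ofAdd, zpow_neg, zpow_one]
          fin_cases i <;> simp [Dm']
      · rw [hx]
        refine hQT d1⁻¹ _ _ _ Φd1' ?_ ?_ ?_
        · rw [map_inv, abd1, inv_one, toAdd_one, zpow_zero]
        · intro i j hij; exact Matrix.one_apply_ne (ne_of_gt hij)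
        · intro i; rw [map_inv, abd1, inv_one, toAdd_one, zpow_zero]; simp
      · rw [hx]
        refine hQT d2⁻¹ _ _ _ Φd2' ?_ ?_ ?_
        · rw [map_inv, abd2, toAdd_inv, toAdd_ofAdd, zpow_neg, zpow_one]
        · intro i j; fin_cases i <;> fin_cases j <;> simp [Am']
        · intro i; rw [map_inv, abd2, toAdd_inv, toAdd_ofAdd, zpow_neg, zpow_one]
          fin_cases i <;> simp [Am']
      · rw [hx]
        refine hQT a3⁻¹ _ _ _ Φa3' ?_ ?_ ?_
        · rw [map_inv, aba3, toAdd_inv, toAdd_ofAdd, zpow_neg, zpow_one]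
        · intro i j; fin_cases i <;> fin_cases j <;> simp [Bm']
        · intro i; rw [map_inv, aba3, toAdd_inv, toAdd_ofAdd, zpow_neg, zpow_one]
          fin_cases i <;> simp [Bm']
    | one =>
      refine hQT 1 1 0 1 (by rw [Φone, T_one]) ?_ ?_ ?_
      · rw [map_one, toAdd_one, zpow_zero]
      · intro i j hij; exact Matrix.one_apply_ne (ne_of_gt hij)
      · intro i; rw [map_one, toAdd_one, zpow_zero]; simp
    | mul x y _ _ hx hy =>
      obtain ⟨x1, x2, x3, x4⟩ := hx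
      obtain ⟨y1, y2, y3, y4⟩ := hy
      refine ⟨?_, ?_, ?_, ?_⟩
      · rw [hmul, Matrix.toBlocks_fromBlocks₂₁, x1, y1]; simp
      · rw [hmul, Matrix.toBlocks_fromBlocks₂₂, x1, x2, y2, map_mul, toAdd_mul, zpow_add₀ hc0]
        simp [smul_smul, mul_comm]
      · intro i j hij
        rw [hmul, Matrix.toBlocks_fromBlocks₁₁, y1, Matrix.mul_zero, add_zero, Matrix.mul_apply]
        refine Finset.sum_eq_zero fun k _ => ?_
        rcases lt_or_ge k i with hk | hk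
        · rw [x3 i k hk, zero_mul]
        · rw [y3 k j (lt_of_lt_of_le hij hk), mul_zero]
      · intro i
        rw [hmul, Matrix.toBlocks_fromBlocks₁₁, y1, Matrix.mul_zero, add_zero, Matrix.mul_apply,
          Finset.sum_eq_single i]
        · rw [x4, y4, map_mul, toAdd_mul, zpow_add₀]
          fin_cases i <;> simp [hη, hω]
        · intro k _ hk
          rcases lt_or_gt_of_ne hk with hk | hk
          · rw [x3 i k hk, zero_mul]
          · rw [y3 k i hk, mul_zero]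
        · intro h; exact absurd (Finset.mem_univ _) h
  refine ⟨ab, fun g => (Φ g).toBlocks₁₁, fun k g i => (Φ g).toBlocks₁₂ i k, ?_⟩
  have hV : ∀ (g : G) (A : Matrix (Fin 5) (Fin 5) ℂ) (c' : ℂ), Φ g = T A 0 c' →
      ∀ k : Fin 3, (fun i => (Φ g).toBlocks₁₂ i k) = 0 := by
    intro g A c' h k
    funext i
    rw [h, T, Matrix.toBlocks_fromBlocks₁₂]
    simp
  exact
    { abm := abm
      abd1 := abd1
      abd2 := abd2
      aba3 := aba3
      one := by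
        show (Φ 1).toBlocks₁₁ = 1
        rw [Φone, ← T_one, T, Matrix.toBlocks_fromBlocks₁₁]
      mul := by
        intro g h
        show (Φ (g * h)).toBlocks₁₁ = _
        rw [hmul, Matrix.toBlocks_fromBlocks₁₁, (hQ h).1, Matrix.mul_zero, add_zero]
      tri := fun g i j hij => (hQ g).2.2.1 i j hij
      diag := fun g i => (hQ g).2.2.2 i
      Mm := by
        show (Φ m).toBlocks₁₁ = _
        rw [Φm, T, Matrix.toBlocks_fromBlocks₁₁]; rfl
      Md1 := by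
        show (Φ d1).toBlocks₁₁ = _
        rw [Φd1, T, Matrix.toBlocks_fromBlocks₁₁]
      Md2 := by
        show (Φ d2).toBlocks₁₁ = _
        rw [Φd2, T, Matrix.toBlocks_fromBlocks₁₁]; rfl
      Ma3 := by
        show (Φ a3).toBlocks₁₁ = _
        rw [Φa3, T, Matrix.toBlocks_fromBlocks₁₁]; rfl
      Vmul := by
        intro k g h
        funext i
        show (Φ (g * h)).toBlocks₁₂ i k = _
        rw [hmul, Matrix.toBlocks_fromBlocks₁₂, (hQ h).2.1, Matrix.add_apply, Matrix.mul_smul,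
          Matrix.mul_one]
        rfl
      Vm := hV m _ _ Φm
      Vd2 := hV d2 _ _ Φd2
      Va3 := hV a3 _ _ Φa3
      Vd1 := by
        have h0 : (Φ d1).toBlocks₁₂ = Nm := by
          rw [Φd1, T, Matrix.toBlocks_fromBlocks₁₂, one_smul]
        refine ⟨?_, ?_, ?_⟩
        · funext i
          show (Φ d1).toBlocks₁₂ i 0 = _
          rw [h0]; fin_cases i <;> simp [Nm]
        · funext i
          show (Φ d1).toBlocks₁₂ i 1 = _
          rw [h0]; fin_cases i <;> simp [Nm]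
        · funext i
          show (Φ d1).toBlocks₁₂ i 2 = _
          rw [h0]; fin_cases i <;> simp [Nm] }

theorem coc_rel {m d1 d2 a3 : G} (P : Pres m d1 d2 a3) {ab : G →* Multiplicative ℤ}
    (abm : ab m = Multiplicative.ofAdd 1) (abd1 : ab d1 = 1)
    (abd2 : ab d2 = Multiplicative.ofAdd 1) (aba3 : ab a3 = Multiplicative.ofAdd 1)
    {r : ℂ} (hr : r ≠ 0) {e : G → ℂ} (he : Coc ab m r e) :
    D1 r * e d1 = 0 ∧ D2 r * e d2 = 0 ∧ D3 r * e a3 = 0 := by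
  have hone : e 1 = 0 := by
    have := he.mul 1 1
    simpa using this
  have hinv : ∀ g, e g⁻¹ = - (r ^ (-(Multiplicative.toAdd (ab g)))) * e g := by
    intro g
    have h1 := he.mul g⁻¹ g
    rw [inv_mul_cancel, hone, map_inv, toAdd_inv] at h1
    linear_combination -h1
  refine ⟨?_, ?_, ?_⟩
  · have h := congrArg e P.r1
    simp only [he.mul, hinv, he.zero, map_mul, map_inv, abm, abd1, toAdd_mul, toAdd_inv,
      toAdd_ofAdd, toAdd_one, neg_zero, zpow_zero, add_zero, zero_add, mul_zero, zpow_neg,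
      zpow_one, neg_neg, neg_add_cancel, add_neg_cancel] at h
    rw [D1]
    field_simp at h
    linear_combination h
  · have h := congrArg e P.r2
    simp only [he.mul, hinv, he.zero, map_mul, map_inv, abm, abd2, toAdd_mul, toAdd_inv,
      toAdd_ofAdd, toAdd_one, neg_zero, zpow_zero, add_zero, zero_add, mul_zero, zpow_neg,
      zpow_one, neg_neg, neg_add_cancel, add_neg_cancel] at h
    rw [D2]
    field_simp at h
    linear_combination h
  · have h := congrArg e P.r3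
    simp only [he.mul, hinv, he.zero, map_mul, map_inv, abm, aba3, toAdd_mul, toAdd_inv,
      toAdd_ofAdd, toAdd_one, neg_zero, zpow_zero, add_zero, zero_add, mul_zero, zpow_neg,
      zpow_one, neg_neg, neg_add_cancel, add_neg_cancel] at h
    have h2 : r ^ ((1 : ℤ) + 1) = r ^ 2 := by
      rw [zpow_add₀ hr, zpow_one, sq]
    rw [h2] at h
    rw [D3]
    linear_combination h

theorem coc_zero {m d1 d2 a3 : G} (P : Pres m d1 d2 a3) {ab : G →* Multiplicative ℤ}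
    {r : ℂ} (hr : r ≠ 0) {e : G → ℂ} (he : Coc ab m r e) (h1 : e d1 = 0) (h2 : e d2 = 0)
    (h3 : e a3 = 0) (g : G) : e g = 0 := by
  have hone : e 1 = 0 := by
    have := he.mul 1 1
    simpa using this
  have hg : g ∈ Subgroup.closure ({m, d1, d2, a3} : Set G) := by rw [P.gen]; trivial
  induction hg using Subgroup.closure_induction with
  | mem x hx =>
    rcases hx with hx | hx | hx | hx
    · rw [hx]; exact he.zero
    · rw [hx]; exact h1
    · rw [hx]; exact h2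
    · rw [hx]; exact h3
  | one => exact hone
  | mul x y _ _ hx hy => rw [he.mul, hx, hy]; simp
  | inv x _ hx =>
    have h1 := he.mul x⁻¹ x
    rw [inv_mul_cancel, hone, hx] at h1
    simpa using h1.symm

end H414C
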