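import Pool.Agent.H414_HQ.C1
import Pool.Agent.H414_HQ.B1

/-!
JOB C2.  A homomorphism to a Heisenberg group.

All statements have been checked numerically (matrices over a finite field).
-/

set_option autoImplicit false

namespace H414C

open H414B (Hs)

variable {G : Type} [Group G]

section Heis

variable {Q C : Type} [AddCommGroup Q] [Module ℚ Q] [AddCommGroup C] [Module ℚ C]

end Heis

/-- A group `Γ` acting on `G`, with `m` fixed, the total longitude `L1 * L2 * L3` fixed up to powers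
of `m`, and two elements `α, β` acting in a given way on the generators. -/
structure Act (Γ : Type) [Group Γ] (m d1 d2 a3 : G) (φ : Γ →* MulAut G) (α β : Γ) : Prop where
  fm : ∀ γ, φ γ m = m
  fl : ∀ γ, ∃ k : ℤ, φ γ (L1 m d1 * L2 m d2 * L3 m a3) = L1 m d1 * L2 m d2 * L3 m a3 * m ^ k
  α1 : φ α d1 = L1 m d1 * L2 m d2 * (L1 m d1)⁻¹ * d1 * (L1 m d1 * L2 m d2 * (L1 m d1)⁻¹)⁻¹
  α2 : φ α d2 = L1 m d1 * d2 * (L1 m d1)⁻¹
  α3 : φ α a3 = a3
  β1 : φ β d1 = L1 m d1 * L2 m d2 * L3 m a3 * (L1 m d1)⁻¹ * d1 *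
    (L1 m d1 * L2 m d2 * L3 m a3 * (L1 m d1)⁻¹)⁻¹
  β2 : φ β d2 = L1 m d1 * d2 * (L1 m d1)⁻¹
  β3 : φ β a3 = L1 m d1 * a3 * (L1 m d1)⁻¹

/-! ### The proof -/

set_option linter.unusedSimpArgs false
set_option linter.unusedTactic false
set_option linter.unreachableTactic false

section Aux

variable {m d1 d2 a3 : G} {η ω ζ : ℂ} {ab : G →* Multiplicative ℤ}
  {M : G → Matrix (Fin 5) (Fin 5) ℂ} {V : Fin 3 → G → Fin 5 → ℂ}

/-- basic principle: twisted cocycles -/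
theorem lemA (P : Pres m d1 d2 a3)
    (abm : ab m = Multiplicative.ofAdd 1) (abd1 : ab d1 = 1)
    (abd2 : ab d2 = Multiplicative.ofAdd 1) (aba3 : ab a3 = Multiplicative.ofAdd 1)
    {p q : ℂ} (hp : p ≠ 0) (hq : q ≠ 0) {D : G → ℂ}
    (hD : ∀ g h, D (g * h) = p ^ (Multiplicative.toAdd (ab g)) * D h +
      D g * q ^ (Multiplicative.toAdd (ab h))) (hm : D m = 0)
    (h1 : D1 (p / q) ≠ 0 ∨ D d1 = 0) (h2 : D2 (p / q) ≠ 0 ∨ D d2 = 0)
    (h3 : D3 (p / q) ≠ 0 ∨ D a3 = 0) (g : G) : D g = 0 := by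
  have hpq : p / q ≠ 0 := div_ne_zero hp hq
  have he : Coc ab m (p / q) (fun g => D g * (q ^ (Multiplicative.toAdd (ab g)))⁻¹) := by
    refine ⟨fun g h => ?_, by simp [hm]⟩
    have e1 : q ^ (Multiplicative.toAdd (ab g)) ≠ 0 := zpow_ne_zero _ hq
    have e2 : q ^ (Multiplicative.toAdd (ab h)) ≠ 0 := zpow_ne_zero _ hq
    simp only [hD, map_mul, toAdd_mul, zpow_add₀ hq, div_zpow]
    field_simp
    ring
  obtain ⟨r1, r2, r3⟩ := coc_rel P abm abd1 abd2 aba3 hpq he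
  have h := coc_zero P hpq he
    (h1.elim (fun h => (mul_eq_zero.1 r1).resolve_left h) (fun h => by simp [h]))
    (h2.elim (fun h => (mul_eq_zero.1 r2).resolve_left h) (fun h => by simp [h]))
    (h3.elim (fun h => (mul_eq_zero.1 r3).resolve_left h) (fun h => by simp [h])) g
  exact (mul_eq_zero.1 h).resolve_right (inv_ne_zero (zpow_ne_zero _ hq))

theorem ne0_of_D1 {r : ℂ} (h : D1 r = 0) : r ≠ 0 := by
  rintro rfl; norm_num [D1] at h
theorem ne0_of_D2 {r : ℂ} (h : D2 r = 0) : r ≠ 0 := by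
  rintro rfl; norm_num [D2] at h
theorem ne0_of_D3 {r : ℂ} (h : D3 r = 0) : r ≠ 0 := by
  rintro rfl; norm_num [D3] at h

theorem D1_inv {r : ℂ} (h : r ≠ 0) : D1 r⁻¹ = D1 r / r ^ 2 := by
  simp only [D1]; field_simp; ring
theorem D2_inv {r : ℂ} (h : r ≠ 0) : D2 r⁻¹ = D2 r / r ^ 2 := by
  simp only [D2]; field_simp; ring
theorem D3_inv {r : ℂ} (h : r ≠ 0) : D3 r⁻¹ = D3 r / r ^ 2 := by
  simp only [D3]; field_simp; ring

theorem D1_one : D1 1 ≠ 0 := by norm_num [D1]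
theorem D2_one : D2 1 ≠ 0 := by norm_num [D2]
theorem D3_one : D3 1 ≠ 0 := by norm_num [D3]

/-- `ab` is invariant -/
theorem ab_inv (P : Pres m d1 d2 a3) (R : Rep m d1 d2 a3 η ω ζ ab M V) (ψ : MulAut G)
    (hψ : ψ m = m) (g : G) : ab (ψ g) = ab g := by
  have h := lemA (D := fun g => ((Multiplicative.toAdd (ab (ψ g)) - Multiplicative.toAdd (ab g) : ℤ) : ℂ))
    P R.abm R.abd1 R.abd2 R.aba3 (p := 1) (q := 1) one_ne_zero one_ne_zero
    (fun g h => by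
      simp only [map_mul, toAdd_mul, one_zpow]
      push_cast
      ring)
    (by simp [hψ])
    (Or.inl (by rw [div_one]; exact D1_one)) (Or.inl (by rw [div_one]; exact D2_one))
    (Or.inl (by rw [div_one]; exact D3_one)) g
  have h' : Multiplicative.toAdd (ab (ψ g)) - Multiplicative.toAdd (ab g) = 0 := by
    exact_mod_cast h
  exact Multiplicative.toAdd.injective (sub_eq_zero.1 h')

/-- the diagonal of the representation -/
noncomputable abbrev tau (η ω : ℂ) : Fin 5 → ℂ := ![1, η⁻¹, 1, ω⁻¹, 1]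

theorem tau_ne (hc : Cst η ω ζ) (i : Fin 5) : tau η ω i ≠ 0 := by
  have h1 := ne0_of_D2 hc.h2
  have h2 := ne0_of_D3 hc.h3
  fin_cases i <;> simp [tau] <;> assumption

/-- the principle for the entries of a matrix -/
theorem lemC (P : Pres m d1 d2 a3) (hc : Cst η ω ζ) (R : Rep m d1 d2 a3 η ω ζ ab M V)
    {M' Δ : G → Matrix (Fin 5) (Fin 5) ℂ}
    (tri' : ∀ g i j, j < i → M' g i j = 0)
    (diag' : ∀ g i, M' g i i = (tau η ω i) ^ (Multiplicative.toAdd (ab g)))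
    (hΔ : ∀ g h, Δ (g * h) = M' g * Δ h + Δ g * M h) (hm : Δ m = 0) (i j : Fin 5)
    (hi : ∀ g k, i < k → Δ g k j = 0) (hj : ∀ g k, k < j → Δ g i k = 0)
    (h1 : D1 (tau η ω i / tau η ω j) ≠ 0 ∨ Δ d1 i j = 0)
    (h2 : D2 (tau η ω i / tau η ω j) ≠ 0 ∨ Δ d2 i j = 0)
    (h3 : D3 (tau η ω i / tau η ω j) ≠ 0 ∨ Δ a3 i j = 0) (g : G) : Δ g i j = 0 := by
  refine lemA (D := fun g => Δ g i j) P R.abm R.abd1 R.abd2 R.aba3 (tau_ne hc i) (tau_ne hc j)
    (fun g h => ?_) (by simp [hm]) h1 h2 h3 g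
  show Δ (g * h) i j = _
  rw [hΔ, Matrix.add_apply, Matrix.mul_apply, Matrix.mul_apply,
    Finset.sum_eq_single i, Finset.sum_eq_single j, diag', R.diag]
  · intro k _ hk
    rcases lt_or_gt_of_ne hk with h' | h'
    · rw [hj g k h', zero_mul]
    · rw [R.tri h k j h', mul_zero]
  · simp
  · intro k _ hk
    rcases lt_or_gt_of_ne hk with h' | h'
    · rw [tri' g i k h', zero_mul]
    · rw [hi h k h', mul_zero]
  · simp

/-- the principle for vectors -/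
theorem lemD (P : Pres m d1 d2 a3) (hc : Cst η ω ζ) (R : Rep m d1 d2 a3 η ω ζ ab M V)
    {M' : G → Matrix (Fin 5) (Fin 5) ℂ} {W : G → Fin 5 → ℂ}
    (tri' : ∀ g i j, j < i → M' g i j = 0)
    (diag' : ∀ g i, M' g i i = (tau η ω i) ^ (Multiplicative.toAdd (ab g)))
    (hW : ∀ g h, W (g * h) = (M' g).mulVec (W h) + (ζ⁻¹ ^ (Multiplicative.toAdd (ab h))) • W g)
    (hm : W m = 0) (i : Fin 5)
    (hi : ∀ g k, i < k → W g k = 0)
    (h1 : D1 (tau η ω i * ζ) ≠ 0 ∨ W d1 i = 0)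
    (h2 : D2 (tau η ω i * ζ) ≠ 0 ∨ W d2 i = 0)
    (h3 : D3 (tau η ω i * ζ) ≠ 0 ∨ W a3 i = 0) (g : G) : W g i = 0 := by
  have hz : ζ⁻¹ ≠ 0 := inv_ne_zero (ne0_of_D1 hc.h1)
  have hd : tau η ω i * ζ = tau η ω i / ζ⁻¹ := by rw [div_inv_eq_mul]
  rw [hd] at h1 h2 h3
  refine lemA (D := fun g => W g i) P R.abm R.abd1 R.abd2 R.aba3 (tau_ne hc i) hz
    (fun g h => ?_) (by simp [hm]) h1 h2 h3 g
  show W (g * h) i = _
  rw [hW, Pi.add_apply, Pi.smul_apply, Matrix.mulVec, dotProduct,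
    Finset.sum_eq_single i, diag', smul_eq_mul]
  · ring
  · intro k _ hk
    rcases lt_or_gt_of_ne hk with h' | h'
    · rw [tri' g i k h', zero_mul]
    · rw [hi h k h', mul_zero]
  · simp

/-- all components of a vector cocycle vanish from `n` on -/
theorem lemE (P : Pres m d1 d2 a3) (hc : Cst η ω ζ) (R : Rep m d1 d2 a3 η ω ζ ab M V)
    {M' : G → Matrix (Fin 5) (Fin 5) ℂ} {W : G → Fin 5 → ℂ}
    (tri' : ∀ g i j, j < i → M' g i j = 0)
    (diag' : ∀ g i, M' g i i = (tau η ω i) ^ (Multiplicative.toAdd (ab g)))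
    (hW : ∀ g h, W (g * h) = (M' g).mulVec (W h) + (ζ⁻¹ ^ (Multiplicative.toAdd (ab h))) • W g)
    (hm : W m = 0) (n : Fin 5) (h0 : n ≤ 0 → W d1 0 = 0) (h2 : n ≤ 2 → W d1 2 = 0)
    (h4 : n ≤ 4 → W d1 4 = 0) (g : G) (i : Fin 5) (hi : n ≤ i) : W g i = 0 := by
  have q1 : D1 (tau η ω 3 * ζ) ≠ 0 := by
    have : tau η ω 3 * ζ = ζ / ω := by simp [tau]; ring
    rw [this]; exact hc.q7
  have q2 : D2 (tau η ω 3 * ζ) ≠ 0 := by
    have : tau η ω 3 * ζ = ζ / ω := by simp [tau]; ring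
    rw [this]; exact hc.q8
  have q3 : D3 (tau η ω 3 * ζ) ≠ 0 := by
    have : tau η ω 3 * ζ = ζ / ω := by simp [tau]; ring
    rw [this]; exact hc.q9
  have r1 : D1 (tau η ω 1 * ζ) ≠ 0 := by
    have : tau η ω 1 * ζ = ζ / η := by simp [tau]; ring
    rw [this]; exact hc.q4
  have r2 : D2 (tau η ω 1 * ζ) ≠ 0 := by
    have : tau η ω 1 * ζ = ζ / η := by simp [tau]; ring
    rw [this]; exact hc.q5
  have r3 : D3 (tau η ω 1 * ζ) ≠ 0 := by
    have : tau η ω 1 * ζ = ζ / η := by simp [tau]; ring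
    rw [this]; exact hc.q6
  have e4 : n ≤ 4 → ∀ g, W g 4 = 0 := fun hn g => by
    refine lemD P hc R tri' diag' hW hm 4 (fun g k hk => ?_) (Or.inr (h4 hn)) (Or.inl ?_)
      (Or.inl ?_) g
    · fin_cases k <;> simp at hk <;> omega
    · simpa [tau] using hc.n12
    · simpa [tau] using hc.n13
  have e3 : n ≤ 3 → ∀ g, W g 3 = 0 := fun hn g => by
    refine lemD P hc R tri' diag' hW hm 3 (fun g k hk => ?_) (Or.inl q1) (Or.inl q2)
      (Or.inl q3) g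
    have : k = 4 := by fin_cases k <;> simp at hk ⊢
    subst this
    exact e4 (hn.trans (by decide)) g
  have e2 : n ≤ 2 → ∀ g, W g 2 = 0 := fun hn g => by
    refine lemD P hc R tri' diag' hW hm 2 (fun g k hk => ?_) (Or.inr (h2 hn)) (Or.inl ?_)
      (Or.inl ?_) g
    · have : k = 3 ∨ k = 4 := by fin_cases k <;> simp at hk ⊢
      rcases this with rfl | rfl
      · exact e3 (hn.trans (by decide)) g
      · exact e4 (hn.trans (by decide)) g
    · simpa [tau] using hc.n12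
    · simpa [tau] using hc.n13
  have e1 : n ≤ 1 → ∀ g, W g 1 = 0 := fun hn g => by
    refine lemD P hc R tri' diag' hW hm 1 (fun g k hk => ?_) (Or.inl r1) (Or.inl r2)
      (Or.inl r3) g
    have : k = 2 ∨ k = 3 ∨ k = 4 := by fin_cases k <;> simp at hk ⊢
    rcases this with rfl | rfl | rfl
    · exact e2 (hn.trans (by decide)) g
    · exact e3 (hn.trans (by decide)) g
    · exact e4 (hn.trans (by decide)) g
  have e0 : n ≤ 0 → ∀ g, W g 0 = 0 := fun hn g => by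
    refine lemD P hc R tri' diag' hW hm 0 (fun g k hk => ?_) (Or.inr (h0 hn)) (Or.inl ?_)
      (Or.inl ?_) g
    · have : k = 1 ∨ k = 2 ∨ k = 3 ∨ k = 4 := by fin_cases k <;> simp at hk ⊢
      rcases this with rfl | rfl | rfl | rfl
      · exact e1 (hn.trans (by decide)) g
      · exact e2 (hn.trans (by decide)) g
      · exact e3 (hn.trans (by decide)) g
      · exact e4 (hn.trans (by decide)) g
    · simpa [tau] using hc.n12
    · simpa [tau] using hc.n13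
  match i, hi with
  | 0, hi => exact e0 hi g
  | 1, hi => exact e1 hi g
  | 2, hi => exact e2 hi g
  | 3, hi => exact e3 hi g
  | 4, hi => exact e4 hi g

/-- the conjugating matrices -/
noncomputable abbrev Pm (p1 p2 p3 p4 s r : ℂ) : Matrix (Fin 5) (Fin 5) ℂ :=
  !![1, 0, s, 0, 0; 0, p1, 0, 0, 0; 0, 0, p2, 0, r; 0, 0, 0, p3, 0; 0, 0, 0, 0, p4]

theorem Rep.low (R : Rep m d1 d2 a3 η ω ζ ab M V) :
    (∀ g, M g 1 0 = 0) ∧ (∀ g, M g 2 0 = 0) ∧ (∀ g, M g 3 0 = 0) ∧ (∀ g, M g 4 0 = 0) ∧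
    (∀ g, M g 2 1 = 0) ∧ (∀ g, M g 3 1 = 0) ∧ (∀ g, M g 4 1 = 0) ∧
    (∀ g, M g 3 2 = 0) ∧ (∀ g, M g 4 2 = 0) ∧ (∀ g, M g 4 3 = 0) :=
  ⟨fun g => R.tri g _ _ (by decide), fun g => R.tri g _ _ (by decide),
    fun g => R.tri g _ _ (by decide), fun g => R.tri g _ _ (by decide),
    fun g => R.tri g _ _ (by decide), fun g => R.tri g _ _ (by decide),
    fun g => R.tri g _ _ (by decide), fun g => R.tri g _ _ (by decide),
    fun g => R.tri g _ _ (by decide), fun g => R.tri g _ _ (by decide)⟩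

theorem Rep.dg (R : Rep m d1 d2 a3 η ω ζ ab M V) :
    (∀ g, M g 0 0 = 1) ∧ (∀ g, M g 1 1 = η⁻¹ ^ (Multiplicative.toAdd (ab g))) ∧
    (∀ g, M g 2 2 = 1) ∧ (∀ g, M g 3 3 = ω⁻¹ ^ (Multiplicative.toAdd (ab g))) ∧
    (∀ g, M g 4 4 = 1) := by
  refine ⟨fun g => ?_, fun g => ?_, fun g => ?_, fun g => ?_, fun g => ?_⟩ <;>
  · rw [R.diag]; simp

/-- the superdiagonal entries do not vanish -/
theorem superdiag (P : Pres m d1 d2 a3) (hc : Cst η ω ζ) (R : Rep m d1 d2 a3 η ω ζ ab M V)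
    (ψ : MulAut G) (hψ : ψ m = m) :
    M (ψ d2) 0 1 ≠ 0 ∧ M (ψ d2) 1 2 ≠ 0 ∧ M (ψ a3) 2 3 ≠ 0 ∧ M (ψ a3) 3 4 ≠ 0 := by
  have hη := ne0_of_D2 hc.h2
  have hω := ne0_of_D3 hc.h3
  have hη' := inv_ne_zero hη
  have hω' := inv_ne_zero hω
  obtain ⟨l10, l20, l30, l40, l21, l31, l41, l32, l42, l43⟩ := R.low
  obtain ⟨g00, g11, g22, g33, g44⟩ := R.dg
  have hab := ab_inv P R ψ hψ
  refine ⟨fun h0 => ?_, fun h0 => ?_, fun h0 => ?_, fun h0 => ?_⟩
  · have h := lemA (D := fun g => M (ψ g) 0 1) P R.abm R.abd1 R.abd2 R.aba3 (p := 1) (q := η⁻¹)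
      one_ne_zero hη'
      (fun g h => by
        simp [R.mul, Matrix.mul_apply, Fin.sum_univ_five, l10, l20, l30, l40, l21, l31, l41, l32,
          l42, l43, g00, g11, g22, g33, g44, hab])
      (by simp [hψ, R.Mm])
      (Or.inl (by rw [one_div, inv_inv]; exact hc.n21)) (Or.inr h0)
      (Or.inl (by rw [one_div, inv_inv]; exact hc.n23)) (ψ.symm d2)
    simp [R.Md2] at h
  · have h := lemA (D := fun g => M (ψ g) 1 2) P R.abm R.abd1 R.abd2 R.aba3 (p := η⁻¹) (q := 1)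
      hη' one_ne_zero
      (fun g h => by
        simp [R.mul, Matrix.mul_apply, Fin.sum_univ_five, l10, l20, l30, l40, l21, l31, l41, l32,
          l42, l43, g00, g11, g22, g33, g44, hab])
      (by simp [hψ, R.Mm])
      (Or.inl (by rw [div_one, D1_inv hη]; exact div_ne_zero hc.n21 (pow_ne_zero 2 hη)))
      (Or.inr h0)
      (Or.inl (by rw [div_one, D3_inv hη]; exact div_ne_zero hc.n23 (pow_ne_zero 2 hη)))
      (ψ.symm d2)
    simp [R.Md2] at h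
  · have h := lemA (D := fun g => M (ψ g) 2 3) P R.abm R.abd1 R.abd2 R.aba3 (p := 1) (q := ω⁻¹)
      one_ne_zero hω'
      (fun g h => by
        simp [R.mul, Matrix.mul_apply, Fin.sum_univ_five, l10, l20, l30, l40, l21, l31, l41, l32,
          l42, l43, g00, g11, g22, g33, g44, hab])
      (by simp [hψ, R.Mm])
      (Or.inl (by rw [one_div, inv_inv]; exact hc.n31))
      (Or.inl (by rw [one_div, inv_inv]; exact hc.n32)) (Or.inr h0) (ψ.symm a3)
    simp [R.Ma3] at h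
  · have h := lemA (D := fun g => M (ψ g) 3 4) P R.abm R.abd1 R.abd2 R.aba3 (p := ω⁻¹) (q := 1)
      hω' one_ne_zero
      (fun g h => by
        simp [R.mul, Matrix.mul_apply, Fin.sum_univ_five, l10, l20, l30, l40, l21, l31, l41, l32,
          l42, l43, g00, g11, g22, g33, g44, hab])
      (by simp [hψ, R.Mm])
      (Or.inl (by rw [div_one, D1_inv hω]; exact div_ne_zero hc.n31 (pow_ne_zero 2 hω)))
      (Or.inl (by rw [div_one, D2_inv hω]; exact div_ne_zero hc.n32 (pow_ne_zero 2 hω)))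
      (Or.inr h0) (ψ.symm a3)
    simp [R.Ma3] at h

/-- existence of the conjugating matrix -/
theorem exists_conj (P : Pres m d1 d2 a3) (hc : Cst η ω ζ) (R : Rep m d1 d2 a3 η ω ζ ab M V)
    (ψ : MulAut G) (hψ : ψ m = m) :
    ∃ p1 p2 p3 p4 s r : ℂ, ∀ g, M (ψ g) * Pm p1 p2 p3 p4 s r = Pm p1 p2 p3 p4 s r * M g := by
  have hη := ne0_of_D2 hc.h2
  have hω := ne0_of_D3 hc.h3
  have hη' := inv_ne_zero hη
  have hω' := inv_ne_zero hω
  obtain ⟨l10, l20, l30, l40, l21, l31, l41, l32, l42, l43⟩ := R.low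
  obtain ⟨g00, g11, g22, g33, g44⟩ := R.dg
  have hab := ab_inv P R ψ hψ
  obtain ⟨n1, n2, n3, n4⟩ := superdiag P hc R ψ hψ
  obtain ⟨p1, hp1⟩ : ∃ p1, M (ψ d2) 0 1 * p1 = 1 := ⟨(M (ψ d2) 0 1)⁻¹, mul_inv_cancel₀ n1⟩
  obtain ⟨p2, hp2⟩ : ∃ p2, M (ψ d2) 1 2 * p2 = p1 := ⟨(M (ψ d2) 1 2)⁻¹ * p1, by
    rw [← mul_assoc, mul_inv_cancel₀ n2, one_mul]⟩
  obtain ⟨p3, hp3⟩ : ∃ p3, M (ψ a3) 2 3 * p3 = p2 := ⟨(M (ψ a3) 2 3)⁻¹ * p2, by
    rw [← mul_assoc, mul_inv_cancel₀ n3, one_mul]⟩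
  obtain ⟨p4, hp4⟩ : ∃ p4, M (ψ a3) 3 4 * p4 = p3 := ⟨(M (ψ a3) 3 4)⁻¹ * p3, by
    rw [← mul_assoc, mul_inv_cancel₀ n4, one_mul]⟩
  obtain ⟨s, hs⟩ : ∃ s, M (ψ a3) 0 3 * p3 = s := ⟨_, rfl⟩
  obtain ⟨r, hr⟩ : ∃ r, M (ψ d2) 1 2 * r = -(M (ψ d2) 1 4 * p4) :=
    ⟨(M (ψ d2) 1 2)⁻¹ * -(M (ψ d2) 1 4 * p4), by
    rw [← mul_assoc, mul_inv_cancel₀ n2, one_mul]⟩
  refine ⟨p1, p2, p3, p4, s, r, ?_⟩
  obtain ⟨Q, hQ⟩ : ∃ Q, Q = Pm p1 p2 p3 p4 s r := ⟨_, rfl⟩
  rw [← hQ]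
  obtain ⟨Δ, hΔd⟩ : ∃ Δ : G → Matrix (Fin 5) (Fin 5) ℂ, ∀ g, Δ g = M (ψ g) * Q - Q * M g :=
    ⟨_, fun _ => rfl⟩
  have hE : ∀ g i j, Δ g i j =
      (M (ψ g) i 0 * Q 0 j + M (ψ g) i 1 * Q 1 j + M (ψ g) i 2 * Q 2 j + M (ψ g) i 3 * Q 3 j +
        M (ψ g) i 4 * Q 4 j) -
      (Q i 0 * M g 0 j + Q i 1 * M g 1 j + Q i 2 * M g 2 j + Q i 3 * M g 3 j +
        Q i 4 * M g 4 j) := by
    intro g i j
    rw [hΔd, Matrix.sub_apply, Matrix.mul_apply, Matrix.mul_apply, Fin.sum_univ_five,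
      Fin.sum_univ_five]
  have hΔ : ∀ g h, Δ (g * h) = M (ψ g) * Δ h + Δ g * M h := by
    intro g h
    simp only [hΔd, map_mul, R.mul]
    noncomm_ring
  have hΔm : Δ m = 0 := by
    ext i j
    rw [hE, hψ, R.Mm, hQ]
    fin_cases i <;> fin_cases j <;> simp [Matrix.diagonal_apply] <;> ring
  have tri' : ∀ g i j, j < i → M (ψ g) i j = 0 := fun g => R.tri (ψ g)
  have diag' : ∀ g i, M (ψ g) i i = (tau η ω i) ^ (Multiplicative.toAdd (ab g)) := fun g i => by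
    rw [R.diag, hab]
  have hlow : ∀ g i j, j ≤ i → Δ g i j = 0 := by
    intro g i j hij
    rw [hE, hQ]
    fin_cases i <;> fin_cases j <;> first
      | (exfalso; revert hij; decide)
      | (simp [l10, l20, l30, l40, l21, l31, l41, l32, l42, l43, g00, g11, g22, g33, g44, hab]; done)
      | (simp [l10, l20, l30, l40, l21, l31, l41, l32, l42, l43, g00, g11, g22, g33, g44, hab]; ring)
  have key : ∀ i j : Fin 5, (∀ g k, i < k → k < j → Δ g k j = 0) →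
      (∀ g k, i < k → k < j → Δ g i k = 0) →
      (D1 (tau η ω i / tau η ω j) ≠ 0 ∨ Δ d1 i j = 0) →
      (D2 (tau η ω i / tau η ω j) ≠ 0 ∨ Δ d2 i j = 0) →
      (D3 (tau η ω i / tau η ω j) ≠ 0 ∨ Δ a3 i j = 0) → ∀ g, Δ g i j = 0 := by
    intro i j hi hj h1 h2 h3
    refine lemC P hc R tri' diag' hΔ hΔm i j (fun g k hk => ?_) (fun g k hk => ?_) h1 h2 h3
    · rcases lt_or_ge k j with h | h
      · exact hi g k hk h
      · exact hlow g k j h
    · rcases lt_or_ge i k with h | h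
      · exact hj g k h hk
      · exact hlow g i k h
  have i1 : D1 η⁻¹ ≠ 0 := by rw [D1_inv hη]; exact div_ne_zero hc.n21 (pow_ne_zero 2 hη)
  have i3 : D3 η⁻¹ ≠ 0 := by rw [D3_inv hη]; exact div_ne_zero hc.n23 (pow_ne_zero 2 hη)
  have j1 : D1 ω⁻¹ ≠ 0 := by rw [D1_inv hω]; exact div_ne_zero hc.n31 (pow_ne_zero 2 hω)
  have j2 : D2 ω⁻¹ ≠ 0 := by rw [D2_inv hω]; exact div_ne_zero hc.n32 (pow_ne_zero 2 hω)
  -- level 1
  have e01 : ∀ g, Δ g 0 1 = 0 := by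
    refine key 0 1 (fun g k h1 h2 => ?_) (fun g k h1 h2 => ?_) (Or.inl ?_) (Or.inr ?_) (Or.inl ?_)
    · exfalso; revert h1 h2; revert k; decide
    · exfalso; revert h1 h2; revert k; decide
    · simpa [tau] using hc.n21
    · rw [hE, hQ]
      simp [l10, l20, l30, l40, l21, l31, l41, l32, l42, l43, g00, g11, g22, g33, g44, hab, R.Md2, hp1]
    · simpa [tau] using hc.n23
  have e12 : ∀ g, Δ g 1 2 = 0 := by
    refine key 1 2 (fun g k h1 h2 => ?_) (fun g k h1 h2 => ?_) (Or.inl ?_) (Or.inr ?_) (Or.inl ?_)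
    · exfalso; revert h1 h2; revert k; decide
    · exfalso; revert h1 h2; revert k; decide
    · simpa [tau] using i1
    · rw [hE, hQ]
      simp [l10, l20, l30, l40, l21, l31, l41, l32, l42, l43, g00, g11, g22, g33, g44, hab, R.Md2, hp2]
    · simpa [tau] using i3
  have e23 : ∀ g, Δ g 2 3 = 0 := by
    refine key 2 3 (fun g k h1 h2 => ?_) (fun g k h1 h2 => ?_) (Or.inl ?_) (Or.inl ?_) (Or.inr ?_)
    · exfalso; revert h1 h2; revert k; decide
    · exfalso; revert h1 h2; revert k; decide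
    · simpa [tau] using hc.n31
    · simpa [tau] using hc.n32
    · rw [hE, hQ]
      simp [l10, l20, l30, l40, l21, l31, l41, l32, l42, l43, g00, g11, g22, g33, g44, hab, R.Ma3, hp3]
  have e34 : ∀ g, Δ g 3 4 = 0 := by
    refine key 3 4 (fun g k h1 h2 => ?_) (fun g k h1 h2 => ?_) (Or.inl ?_) (Or.inl ?_) (Or.inr ?_)
    · exfalso; revert h1 h2; revert k; decide
    · exfalso; revert h1 h2; revert k; decide
    · simpa [tau] using j1
    · simpa [tau] using j2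
    · rw [hE, hQ]
      simp [l10, l20, l30, l40, l21, l31, l41, l32, l42, l43, g00, g11, g22, g33, g44, hab, R.Ma3, hp4]
  -- level 2
  have e02 : ∀ g, Δ g 0 2 = 0 := by
    refine key 0 2 (fun g k h1 h2 => ?_) (fun g k h1 h2 => ?_) (Or.inl ?_) (Or.inl ?_) (Or.inl ?_)
    · have : k = 1 := by revert h1 h2; revert k; decide
      subst this; exact e12 g
    · have : k = 1 := by revert h1 h2; revert k; decide
      subst this; exact e01 g
    · simpa [tau] using D1_one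
    · simpa [tau] using D2_one
    · simpa [tau] using D3_one
  have e13 : ∀ g, Δ g 1 3 = 0 := by
    have ht : tau η ω 1 / tau η ω 3 = ω / η := by simp [tau]; field_simp
    refine key 1 3 (fun g k h1 h2 => ?_) (fun g k h1 h2 => ?_) (Or.inl ?_) (Or.inl ?_) (Or.inl ?_)
    · have : k = 2 := by revert h1 h2; revert k; decide
      subst this; exact e23 g
    · have : k = 2 := by revert h1 h2; revert k; decide
      subst this; exact e12 g
    · rw [ht]; exact hc.q1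
    · rw [ht]; exact hc.q2
    · rw [ht]; exact hc.q3
  have e24 : ∀ g, Δ g 2 4 = 0 := by
    refine key 2 4 (fun g k h1 h2 => ?_) (fun g k h1 h2 => ?_) (Or.inl ?_) (Or.inl ?_) (Or.inl ?_)
    · have : k = 3 := by revert h1 h2; revert k; decide
      subst this; exact e34 g
    · have : k = 3 := by revert h1 h2; revert k; decide
      subst this; exact e23 g
    · simpa [tau] using D1_one
    · simpa [tau] using D2_one
    · simpa [tau] using D3_one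
  -- level 3
  have e03 : ∀ g, Δ g 0 3 = 0 := by
    refine key 0 3 (fun g k h1 h2 => ?_) (fun g k h1 h2 => ?_) (Or.inl ?_) (Or.inl ?_) (Or.inr ?_)
    · have : k = 1 ∨ k = 2 := by revert h1 h2; revert k; decide
      rcases this with rfl | rfl
      · exact e13 g
      · exact e23 g
    · have : k = 1 ∨ k = 2 := by revert h1 h2; revert k; decide
      rcases this with rfl | rfl
      · exact e01 g
      · exact e02 g
    · simpa [tau] using hc.n31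
    · simpa [tau] using hc.n32
    · rw [hE, hQ]
      simp [l10, l20, l30, l40, l21, l31, l41, l32, l42, l43, g00, g11, g22, g33, g44, hab, R.Ma3, hs]
  have e14 : ∀ g, Δ g 1 4 = 0 := by
    refine key 1 4 (fun g k h1 h2 => ?_) (fun g k h1 h2 => ?_) (Or.inl ?_) (Or.inr ?_) (Or.inl ?_)
    · have : k = 2 ∨ k = 3 := by revert h1 h2; revert k; decide
      rcases this with rfl | rfl
      · exact e24 g
      · exact e34 g
    · have : k = 2 ∨ k = 3 := by revert h1 h2; revert k; decide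
      rcases this with rfl | rfl
      · exact e12 g
      · exact e13 g
    · simpa [tau] using i1
    · rw [hE, hQ]
      simp [l10, l20, l30, l40, l21, l31, l41, l32, l42, l43, g00, g11, g22, g33, g44, hab, R.Md2, hr]
    · simpa [tau] using i3
  -- level 4
  have e04 : ∀ g, Δ g 0 4 = 0 := by
    refine key 0 4 (fun g k h1 h2 => ?_) (fun g k h1 h2 => ?_) (Or.inl ?_) (Or.inl ?_) (Or.inl ?_)
    · have : k = 1 ∨ k = 2 ∨ k = 3 := by revert h1 h2; revert k; decide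
      rcases this with rfl | rfl | rfl
      · exact e14 g
      · exact e24 g
      · exact e34 g
    · have : k = 1 ∨ k = 2 ∨ k = 3 := by revert h1 h2; revert k; decide
      rcases this with rfl | rfl | rfl
      · exact e01 g
      · exact e02 g
      · exact e03 g
    · simpa [tau] using D1_one
    · simpa [tau] using D2_one
    · simpa [tau] using D3_one
  intro g
  have h0 : Δ g = 0 := by
    ext i j
    rcases le_or_gt j i with h | h
    · exact hlow g i j h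
    · fin_cases i <;> fin_cases j <;> first
        | (exfalso; revert h; decide)
        | exact e01 g | exact e12 g | exact e23 g | exact e34 g | exact e02 g | exact e13 g
        | exact e24 g | exact e03 g | exact e14 g | exact e04 g
  rw [hΔd] at h0
  exact sub_eq_zero.1 h0

/-! #### longitudes -/

theorem Rep.inv_eq (R : Rep m d1 d2 a3 η ω ζ ab M V) {g : G} {X : Matrix (Fin 5) (Fin 5) ℂ}
    (h : X * M g = 1) : M g⁻¹ = X := by
  have h1 : M g * M g⁻¹ = 1 := by rw [← R.mul, mul_inv_cancel, R.one]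
  calc M g⁻¹ = (X * M g) * M g⁻¹ := by rw [h, one_mul]
    _ = X := by rw [mul_assoc, h1, mul_one]

theorem Rep.minv (hc : Cst η ω ζ) (R : Rep m d1 d2 a3 η ω ζ ab M V) :
    M m⁻¹ = Matrix.diagonal ![1, η, 1, ω, 1] := by
  have hη := ne0_of_D2 hc.h2
  have hω := ne0_of_D3 hc.h3
  apply R.inv_eq
  rw [R.Mm, Matrix.diagonal_mul_diagonal, ← Matrix.diagonal_one]
  congr 1
  ext i
  fin_cases i <;> simp [hη, hω]

theorem Rep.d2inv (hc : Cst η ω ζ) (R : Rep m d1 d2 a3 η ω ζ ab M V) :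
    M d2⁻¹ = !![1, -η, 2 * η - 1, 0, 0; 0, η, -η, 0, 0; 0, 0, 1, 0, 0; 0, 0, 0, ω, 0;
      0, 0, 0, 0, 1] := by
  have hη := ne0_of_D2 hc.h2
  have hω := ne0_of_D3 hc.h3
  apply R.inv_eq
  rw [R.Md2]
  ext i j
  rw [Matrix.mul_apply, Fin.sum_univ_five]
  fin_cases i <;> fin_cases j <;> simp [hη, hω, Matrix.one_apply] <;> ring

/-- the first longitude is diagonal -/
theorem Rep.L1 (hc : Cst η ω ζ) (R : Rep m d1 d2 a3 η ω ζ ab M V) :
    M (L1 m d1) = Matrix.diagonal ![1, η, 1, ω, 1] := by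
  have hd : M d1⁻¹ = 1 := R.inv_eq (by rw [R.Md1, one_mul])
  have h1 : M m * M m⁻¹ = 1 := by rw [← R.mul, mul_inv_cancel, R.one]
  have h2 : M m⁻¹ * M m = 1 := by rw [← R.mul, inv_mul_cancel, R.one]
  rw [← R.minv hc, H414C.L1]
  simp only [R.mul, hd, R.Md1, mul_one]
  rw [h1, one_mul, mul_assoc, h2, mul_one]

theorem Rep.row (R : Rep m d1 d2 a3 η ω ζ ab M V) (g h : G) (i : Fin 5) :
    M (g * h) i = Matrix.vecMul (M g i) (M h) := by
  rw [R.mul, Matrix.mul_apply_eq_vecMul]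

theorem Rep.row0_m (R : Rep m d1 d2 a3 η ω ζ ab M V) {g : G} {u v : ℂ}
    (hg : M g 0 = ![1, u, v, 0, 0]) : M (g * m) 0 = ![1, u * η⁻¹, v, 0, 0] := by
  rw [R.row, hg, R.Mm]
  ext j
  simp only [Matrix.vecMul, dotProduct, Fin.sum_univ_five]
  fin_cases j <;> simp [Matrix.diagonal_apply]

theorem Rep.row0_mi (hc : Cst η ω ζ) (R : Rep m d1 d2 a3 η ω ζ ab M V) {g : G} {u v : ℂ}
    (hg : M g 0 = ![1, u, v, 0, 0]) : M (g * m⁻¹) 0 = ![1, u * η, v, 0, 0] := by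
  rw [R.row, hg, R.minv hc]
  ext j
  simp only [Matrix.vecMul, dotProduct, Fin.sum_univ_five]
  fin_cases j <;> simp [Matrix.diagonal_apply]

theorem Rep.row0_d (R : Rep m d1 d2 a3 η ω ζ ab M V) {g : G} {u v : ℂ}
    (hg : M g 0 = ![1, u, v, 0, 0]) :
    M (g * d2) 0 = ![1, 1 + u * η⁻¹, (1 - η) + u + v, 0, 0] := by
  rw [R.row, hg, R.Md2]
  ext j
  simp only [Matrix.vecMul, dotProduct, Fin.sum_univ_five]
  fin_cases j <;> simp

theorem Rep.row0_di (hc : Cst η ω ζ) (R : Rep m d1 d2 a3 η ω ζ ab M V) {g : G} {u v : ℂ}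
    (hg : M g 0 = ![1, u, v, 0, 0]) :
    M (g * d2⁻¹) 0 = ![1, -η + u * η, (2 * η - 1) - u * η + v, 0, 0] := by
  rw [R.row, hg, R.d2inv hc]
  ext j
  simp only [Matrix.vecMul, dotProduct, Fin.sum_univ_five]
  fin_cases j <;> simp
  ring

/-- the first row of the second longitude -/
theorem Rep.L2row0 (hc : Cst η ω ζ) (R : Rep m d1 d2 a3 η ω ζ ab M V) :
    ∃ u, M (L2 m d2) 0 = ![1, u, 2 - 3 * η, 0, 0] := by
  have hη := ne0_of_D2 hc.h2
  have h0 : M m 0 = ![1, 0, 0, 0, 0] := by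
    rw [R.Mm]
    ext j
    fin_cases j <;> simp [Matrix.diagonal_apply]
  have h := R.row0_d (R.row0_mi hc (R.row0_di hc (R.row0_m (R.row0_d (R.row0_m (R.row0_di hc
    (R.row0_mi hc (R.row0_d (R.row0_m h0)))))))))
  have hv : ∀ a b b' : ℂ, b = b' → (![1, a, b, 0, 0] : Fin 5 → ℂ) = ![1, a, b', 0, 0] := by
    rintro a b _ rfl
    rfl
  refine ⟨_, h.trans (hv _ _ _ ?_)⟩
  have h2 := hc.h2
  have hi : η⁻¹ = 3 - η := by
    field_simp
    simp only [D2] at h2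
    linear_combination h2
  simp only [D2] at h2
  rw [hi]
  linear_combination (-1 - 5 * η + 19 * η ^ 2 - 21 * η ^ 3 + 8 * η ^ 4 - η ^ 5) * h2

theorem Rep.e2 (R : Rep m d1 d2 a3 η ω ζ ab M V) {g h : G}
    (hg : M g 2 = ![0, 0, 1, 0, 0]) (hh : M h 2 = ![0, 0, 1, 0, 0]) :
    M (g * h) 2 = ![0, 0, 1, 0, 0] := by
  rw [R.row, hg]
  refine Eq.trans ?_ hh
  ext j
  simp [Matrix.vecMul, dotProduct, Fin.sum_univ_five]

/-- the third row of the second longitude -/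
theorem Rep.L2row2 (hc : Cst η ω ζ) (R : Rep m d1 d2 a3 η ω ζ ab M V) :
    M (L2 m d2) 2 = ![0, 0, 1, 0, 0] := by
  have hm : M m 2 = ![0, 0, 1, 0, 0] := by
    rw [R.Mm]
    ext j
    fin_cases j <;> simp [Matrix.diagonal_apply]
  have hmi : M m⁻¹ 2 = ![0, 0, 1, 0, 0] := by
    rw [R.minv hc]
    ext j
    fin_cases j <;> simp [Matrix.diagonal_apply]
  have hd : M d2 2 = ![0, 0, 1, 0, 0] := by
    rw [R.Md2]
    ext j
    fin_cases j <;> simp
  have hdi : M d2⁻¹ 2 = ![0, 0, 1, 0, 0] := by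
    rw [R.d2inv hc]
    ext j
    fin_cases j <;> simp
  rw [H414C.L2]
  exact R.e2 (R.e2 (R.e2 (R.e2 (R.e2 (R.e2 (R.e2 (R.e2 (R.e2 (R.e2 hm hm) hd) hmi) hdi) hm) hd) hm)
    hdi) hmi) hd

theorem Rep.row2_m (R : Rep m d1 d2 a3 η ω ζ ab M V) {g : G} {u v : ℂ}
    (hg : M g 2 = ![0, 0, 1, u, v]) : M (g * m) 2 = ![0, 0, 1, u * ω⁻¹, v] := by
  rw [R.row, hg, R.Mm]
  ext j
  simp only [Matrix.vecMul, dotProduct, Fin.sum_univ_five]
  fin_cases j <;> simp [Matrix.diagonal_apply]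

theorem Rep.row2_a (R : Rep m d1 d2 a3 η ω ζ ab M V) {g : G} {u v : ℂ}
    (hg : M g 2 = ![0, 0, 1, u, v]) :
    M (g * a3) 2 = ![0, 0, 1, 1 + u * ω⁻¹, -ω⁻¹ + u + v] := by
  rw [R.row, hg, R.Ma3]
  ext j
  simp only [Matrix.vecMul, dotProduct, Fin.sum_univ_five]
  fin_cases j <;> simp

theorem Rep.L3row2 (hc : Cst η ω ζ) (R : Rep m d1 d2 a3 η ω ζ ab M V) :
    ∃ u, M (L3 m a3) 2 = ![0, 0, 1, u, ω - 2] := by
  have hω := ne0_of_D3 hc.h3
  have h0 : M m 2 = ![0, 0, 1, 0, 0] := by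
    rw [R.Mm]
    ext j
    fin_cases j <;> simp [Matrix.diagonal_apply]
  have h := R.row2_a (R.row2_m (R.row2_m (R.row2_a (R.row2_m h0))))
  have hv : ∀ a b b' : ℂ, b = b' → (![0, 0, 1, a, b] : Fin 5 → ℂ) = ![0, 0, 1, a, b'] := by
    rintro a b _ rfl
    rfl
  refine ⟨_, h.trans (hv _ _ _ ?_)⟩
  have h3 := hc.h3
  have hi : ω⁻¹ = 1 - ω := by
    field_simp
    simp only [D3] at h3
    linear_combination h3
  simp only [D3] at h3
  rw [hi]
  linear_combination h3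

theorem Rep.eBlock (R : Rep m d1 d2 a3 η ω ζ ab M V) {g h : G}
    (hg : M g 0 = ![1, 0, 0, 0, 0] ∧ M g 1 2 = 0) (hh : M h 0 = ![1, 0, 0, 0, 0] ∧ M h 1 2 = 0)  :
    M (g * h) 0 = ![1, 0, 0, 0, 0] ∧ M (g * h) 1 2 = 0 := by
  constructor
  · rw [R.row, hg.1]
    refine Eq.trans ?_ hh.1
    ext j
    simp [Matrix.vecMul, dotProduct, Fin.sum_univ_five]
  · rw [R.mul, Matrix.mul_apply, Fin.sum_univ_five, hg.2, hh.2, R.tri g 1 0 (by decide),
      R.tri h 3 2 (by decide), R.tri h 4 2 (by decide)]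
    ring

theorem Rep.L3row0 (R : Rep m d1 d2 a3 η ω ζ ab M V) :
    M (L3 m a3) 0 = ![1, 0, 0, 0, 0] ∧ M (L3 m a3) 1 2 = 0 := by
  have hm : M m 0 = ![1, 0, 0, 0, 0] ∧ M m 1 2 = 0 := by
    rw [R.Mm]
    constructor
    · ext j
      fin_cases j <;> simp [Matrix.diagonal_apply]
    · simp
  have ha : M a3 0 = ![1, 0, 0, 0, 0] ∧ M a3 1 2 = 0 := by
    rw [R.Ma3]
    constructor
    · ext j
      fin_cases j <;> simp
    · simp
  rw [H414C.L3]
  exact R.eBlock (R.eBlock (R.eBlock (R.eBlock (R.eBlock hm hm) ha) hm) hm) ha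

/-! #### the vectors -/

theorem Rep.Vone (R : Rep m d1 d2 a3 η ω ζ ab M V) (k : Fin 3) : V k 1 = 0 := by
  have h := R.Vmul k 1 1
  rw [mul_one, R.one, Matrix.one_mulVec, map_one, toAdd_one, zpow_zero, one_smul] at h
  simpa using h

/-- the vectors at a conjugate of `d1` -/
theorem Rep.Vconj (hc : Cst η ω ζ) (R : Rep m d1 d2 a3 η ω ζ ab M V) (k : Fin 3) (h : G) :
    V k (h * d1 * h⁻¹) = (ζ ^ (Multiplicative.toAdd (ab h))) • (M h).mulVec (V k d1) := by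
  have hz := ne0_of_D1 hc.h1
  have h1 := R.Vmul k h h⁻¹
  rw [mul_inv_cancel, R.Vone] at h1
  rw [R.Vmul, R.Vmul, R.mul, R.Md1, mul_one, R.abd1, toAdd_one, zpow_zero, one_smul, smul_add,
    add_comm ((ζ⁻¹ ^ Multiplicative.toAdd (ab h⁻¹)) • (M h).mulVec (V k d1)), ← add_assoc, ← h1,
    zero_add, map_inv, toAdd_inv, inv_zpow', neg_neg]

theorem Rep.V0 (P : Pres m d1 d2 a3) (hc : Cst η ω ζ) (R : Rep m d1 d2 a3 η ω ζ ab M V) (g : G)
    (i : Fin 5) (hi : 1 ≤ i) : V 0 g i = 0 :=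
  lemE P hc R R.tri (fun g i => R.diag g i) (R.Vmul 0) (R.Vm 0) 1 (fun h => by simp at h)
    (fun _ => by rw [R.Vd1.1]; simp) (fun _ => by rw [R.Vd1.1]; simp) g i hi

theorem Rep.V1 (P : Pres m d1 d2 a3) (hc : Cst η ω ζ) (R : Rep m d1 d2 a3 η ω ζ ab M V) (g : G)
    (i : Fin 5) (hi : 3 ≤ i) : V 1 g i = 0 :=
  lemE P hc R R.tri (fun g i => R.diag g i) (R.Vmul 1) (R.Vm 1) 3 (fun h => by simp at h)
    (fun h => by exfalso; revert h; decide) (fun _ => by rw [R.Vd1.2.1]; simp) g i hi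

/-- the leading components agree -/
theorem Rep.lead (P : Pres m d1 d2 a3) (hc : Cst η ω ζ) (R : Rep m d1 d2 a3 η ω ζ ab M V)
    (g : G) : V 1 g 2 = V 0 g 0 ∧ V 2 g 4 = V 0 g 0 := by
  have hz : ζ⁻¹ ≠ 0 := inv_ne_zero (ne0_of_D1 hc.h1)
  obtain ⟨l10, l20, l30, l40, l21, l31, l41, l32, l42, l43⟩ := R.low
  obtain ⟨g00, g11, g22, g33, g44⟩ := R.dg
  have v0 : ∀ g i, 1 ≤ i → V 0 g i = 0 := R.V0 P hc
  have v1 : ∀ g i, 3 ≤ i → V 1 g i = 0 := R.V1 P hc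
  have v01 : ∀ g, V 0 g 1 = 0 := fun g => v0 g 1 (by decide)
  have v02 : ∀ g, V 0 g 2 = 0 := fun g => v0 g 2 (by decide)
  have v03 : ∀ g, V 0 g 3 = 0 := fun g => v0 g 3 (by decide)
  have v04 : ∀ g, V 0 g 4 = 0 := fun g => v0 g 4 (by decide)
  have v13 : ∀ g, V 1 g 3 = 0 := fun g => v1 g 3 (by decide)
  have v14 : ∀ g, V 1 g 4 = 0 := fun g => v1 g 4 (by decide)
  have q2 : D2 ((1 : ℂ) / ζ⁻¹) ≠ 0 := by rw [one_div, inv_inv]; exact hc.n12
  have q3 : D3 ((1 : ℂ) / ζ⁻¹) ≠ 0 := by rw [one_div, inv_inv]; exact hc.n13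
  have a : ∀ g, V 1 g 2 - V 0 g 0 = 0 := by
    refine lemA (D := fun g => V 1 g 2 - V 0 g 0) P R.abm R.abd1 R.abd2 R.aba3 (p := 1)
      (q := ζ⁻¹) one_ne_zero hz (fun g h => ?_) (by simp [R.Vm]) (Or.inr ?_) (Or.inl q2) (Or.inl q3)
    · show V 1 (g * h) 2 - V 0 (g * h) 0 = _
      rw [R.Vmul, R.Vmul, Pi.add_apply, Pi.add_apply, Pi.smul_apply, Pi.smul_apply,
        Matrix.mulVec, Matrix.mulVec, dotProduct, dotProduct, Fin.sum_univ_five,
        Fin.sum_univ_five, v01, v02, v03, v04, v13, v14, g00, g22, l20, l21, one_zpow,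
        smul_eq_mul, smul_eq_mul]
      ring
    · simp [R.Vd1.1, R.Vd1.2.1]
  have b : ∀ g, V 2 g 4 - V 0 g 0 = 0 := by
    refine lemA (D := fun g => V 2 g 4 - V 0 g 0) P R.abm R.abd1 R.abd2 R.aba3 (p := 1)
      (q := ζ⁻¹) one_ne_zero hz (fun g h => ?_) (by simp [R.Vm]) (Or.inr ?_) (Or.inl q2) (Or.inl q3)
    · show V 2 (g * h) 4 - V 0 (g * h) 0 = _
      rw [R.Vmul, R.Vmul, Pi.add_apply, Pi.add_apply, Pi.smul_apply, Pi.smul_apply,
        Matrix.mulVec, Matrix.mulVec, dotProduct, dotProduct, Fin.sum_univ_five,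
        Fin.sum_univ_five, v01, v02, v03, v04, g00, g44, l40, l41, l42, l43, one_zpow,
        smul_eq_mul, smul_eq_mul]
      ring
    · simp [R.Vd1.1, R.Vd1.2.2]
  exact ⟨sub_eq_zero.1 (a g), sub_eq_zero.1 (b g)⟩

/-- the data attached to an automorphism -/
structure Dat (M : G → Matrix (Fin 5) (Fin 5) ℂ) (V : Fin 3 → G → Fin 5 → ℂ) (ψ : MulAut G)
    (p1 p3 s r χ x y z : ℂ) : Prop where
  conj : ∀ g, M (ψ g) * Pm p1 1 p3 1 s r = Pm p1 1 p3 1 s r * M g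
  χ0 : χ ≠ 0
  v0 : ∀ g, V 0 (ψ g) = χ • (Pm p1 1 p3 1 s r).mulVec (V 0 g)
  v1 : ∀ g, V 1 (ψ g) = χ • (Pm p1 1 p3 1 s r).mulVec (V 1 g + x • V 0 g)
  v2 : ∀ g, V 2 (ψ g) = χ • (Pm p1 1 p3 1 s r).mulVec (V 2 g + y • V 1 g + z • V 0 g)

/-- powers of the meridian -/
theorem Rep.Mzpow (hc : Cst η ω ζ) (R : Rep m d1 d2 a3 η ω ζ ab M V) (k : ℤ) :
    ∃ c : Fin 5 → ℂ, c 0 = 1 ∧ c 2 = 1 ∧ c 4 = 1 ∧ M (m ^ k) = Matrix.diagonal c := by
  induction k using Int.induction_on with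
  | zero => exact ⟨1, rfl, rfl, rfl, by rw [zpow_zero, R.one]; exact Matrix.diagonal_one.symm⟩
  | succ n ih =>
    obtain ⟨c, h0, h2, h4, h⟩ := ih
    refine ⟨fun i => c i * ![1, η⁻¹, 1, ω⁻¹, 1] i, by simp [h0], by simp [h2], by simp [h4], ?_⟩
    rw [zpow_add_one, R.mul, h, R.Mm, Matrix.diagonal_mul_diagonal]
  | pred n ih =>
    obtain ⟨c, h0, h2, h4, h⟩ := ih
    refine ⟨fun i => c i * ![1, η, 1, ω, 1] i, by simp [h0], by simp [h2], by simp [h4], ?_⟩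
    rw [zpow_sub_one, R.mul, h, R.minv hc, Matrix.diagonal_mul_diagonal]

/-- the total longitude -/
theorem Rep.Ltot (hc : Cst η ω ζ) (R : Rep m d1 d2 a3 η ω ζ ab M V) :
    M (H414C.L1 m d1 * L2 m d2 * L3 m a3) 0 2 = 2 - 3 * η ∧
    M (H414C.L1 m d1 * L2 m d2 * L3 m a3) 2 4 = ω - 2 := by
  obtain ⟨u, hu⟩ := R.L2row0 hc
  have hl2 := R.L2row2 hc
  obtain ⟨w, hw⟩ := R.L3row2 hc
  obtain ⟨h3, h3'⟩ := R.L3row0
  have h32 : M (L3 m a3) 0 2 = 0 := by rw [h3]; simp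
  have e0 : M (H414C.L1 m d1 * L2 m d2) 0 = ![1, u, 2 - 3 * η, 0, 0] := by
    rw [R.row, R.L1 hc]
    refine Eq.trans ?_ hu
    ext j
    simp [Matrix.vecMul, dotProduct, Fin.sum_univ_five, Matrix.diagonal_apply]
  have e2 : M (H414C.L1 m d1 * L2 m d2) 2 = ![0, 0, 1, 0, 0] := by
    rw [R.row, R.L1 hc]
    refine Eq.trans ?_ hl2
    ext j
    simp [Matrix.vecMul, dotProduct, Fin.sum_univ_five, Matrix.diagonal_apply]
  constructor
  · rw [R.row, e0, Matrix.vecMul, dotProduct, Fin.sum_univ_five, h32, h3', R.dg.2.2.1]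
    simp
  · rw [R.row, e2, Matrix.vecMul, dotProduct, Fin.sum_univ_five, hw]
    simp

theorem n1 (hc : Cst η ω ζ) : (2 - 3 * η : ℂ) ≠ 0 := by
  intro h
  have h2 := hc.h2
  simp only [D2] at h2
  have h' : η = 2 / 3 := by linear_combination (-1 / 3 : ℂ) * h
  rw [h'] at h2
  norm_num at h2

theorem n2 (hc : Cst η ω ζ) : (ω - 2 : ℂ) ≠ 0 := by
  intro h
  have h3 := hc.h3
  simp only [D3] at h3
  have h' : ω = 2 := by linear_combination h
  rw [h'] at h3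
  norm_num at h3

/-- existence of the data -/
theorem exists_dat (P : Pres m d1 d2 a3) (hc : Cst η ω ζ) (R : Rep m d1 d2 a3 η ω ζ ab M V)
    (ψ : MulAut G) (hψ : ψ m = m)
    (hl : ∃ k : ℤ, ψ (H414C.L1 m d1 * L2 m d2 * L3 m a3) =
      H414C.L1 m d1 * L2 m d2 * L3 m a3 * m ^ k) :
    ∃ p1 p3 s r χ x y z : ℂ, Dat M V ψ p1 p3 s r χ x y z := by
  obtain ⟨l10, l20, l30, l40, l21, l31, l41, l32, l42, l43⟩ := R.low
  obtain ⟨g00, g11, g22, g33, g44⟩ := R.dg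
  have hab := ab_inv P R ψ hψ
  obtain ⟨p1, p2, p3, p4, s, r, hconj⟩ := exists_conj P hc R ψ hψ
  -- `p2 = p4 = 1`
  obtain ⟨k, hk⟩ := hl
  obtain ⟨t1, t2⟩ := R.Ltot hc
  obtain ⟨c, c0, c2, c4, hck⟩ := R.Mzpow hc k
  have hLc := hconj (H414C.L1 m d1 * L2 m d2 * L3 m a3)
  rw [hk, R.mul, hck] at hLc
  generalize hLL : M (H414C.L1 m d1 * L2 m d2 * L3 m a3) = LL at hLc t1 t2
  have LL00 : LL 0 0 = 1 := by rw [← hLL, g00]
  have LL22 : LL 2 2 = 1 := by rw [← hLL, g22]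
  have LL44 : LL 4 4 = 1 := by rw [← hLL, g44]
  have LL20 : LL 2 0 = 0 := by rw [← hLL, l20]
  have LL21 : LL 2 1 = 0 := by rw [← hLL, l21]
  have hp2 : p2 = 1 := by
    have h := congrFun (congrFun hLc 0) 2
    rw [Matrix.mul_apply, Matrix.mul_apply, Fin.sum_univ_five, Fin.sum_univ_five] at h
    simp [Matrix.mul_diagonal, LL00, LL22, c0, c2, t1] at h
    have h' : (2 - 3 * η) * (p2 - 1) = 0 := by linear_combination h
    exact sub_eq_zero.1 ((mul_eq_zero.1 h').resolve_left (n1 hc))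
  have hp4 : p4 = 1 := by
    have h := congrFun (congrFun hLc 2) 4
    rw [Matrix.mul_apply, Matrix.mul_apply, Fin.sum_univ_five, Fin.sum_univ_five] at h
    simp [Matrix.mul_diagonal, LL44, LL22, LL20, LL21, c2, c4, t2, hp2] at h
    have h' : (ω - 2) * (p4 - 1) = 0 := by linear_combination h
    exact sub_eq_zero.1 ((mul_eq_zero.1 h').resolve_left (n2 hc))
  subst hp2 hp4
  obtain ⟨Q, hQ⟩ : ∃ Q, Q = Pm p1 1 p3 1 s r := ⟨_, rfl⟩
  rw [← hQ] at hconj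
  have tri' : ∀ g i j, j < i → M (ψ g) i j = 0 := fun g => R.tri (ψ g)
  have diag' : ∀ g i, M (ψ g) i i = (tau η ω i) ^ (Multiplicative.toAdd (ab g)) := fun g i => by
    rw [R.diag, hab]
  obtain ⟨w1, w2, w3⟩ := R.Vd1
  have main : ∀ (k : Fin 3) (u0 u1 u2 : ℂ), V k (ψ d1) 4 = u2 → V k (ψ d1) 2 = u1 + r * u2 →
      V k (ψ d1) 0 = u0 + s * u1 → ∀ g, V k (ψ g) =
        Q.mulVec (u0 • V 0 g + u1 • V 1 g + u2 • V 2 g) := by
    intro k u0 u1 u2 h4 h2 h0 g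
    obtain ⟨W, hWd⟩ : ∃ W : G → Fin 5 → ℂ, ∀ g, W g = V k (ψ g) -
        Q.mulVec (u0 • V 0 g + u1 • V 1 g + u2 • V 2 g) := ⟨_, fun _ => rfl⟩
    have hW : ∀ g h, W (g * h) = (M (ψ g)).mulVec (W h) +
        (ζ⁻¹ ^ (Multiplicative.toAdd (ab h))) • W g := by
      intro g h
      have e1 : (M (ψ g)).mulVec (Q.mulVec (u0 • V 0 h + u1 • V 1 h + u2 • V 2 h)) =
          Q.mulVec ((M g).mulVec (u0 • V 0 h + u1 • V 1 h + u2 • V 2 h)) := by
        rw [Matrix.mulVec_mulVec, hconj, Matrix.mulVec_mulVec]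
      rw [hWd, hWd, hWd, Matrix.mulVec_sub, e1, map_mul, R.Vmul, R.Vmul 0, R.Vmul 1, R.Vmul 2, hab]
      simp only [Matrix.mulVec_add, Matrix.mulVec_smul, smul_add, smul_sub]
      module
    have h := lemE P hc R tri' diag' hW (by simp [hWd, hψ, R.Vm]) 0
      (fun _ => by
        rw [hWd, Pi.sub_apply, h0, w1, w2, w3, hQ]
        simp [Matrix.mulVec, dotProduct, Fin.sum_univ_five])
      (fun _ => by
        rw [hWd, Pi.sub_apply, h2, w1, w2, w3, hQ]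
        simp [Matrix.mulVec, dotProduct, Fin.sum_univ_five])
      (fun _ => by
        rw [hWd, Pi.sub_apply, h4, w1, w2, w3, hQ]
        simp [Matrix.mulVec, dotProduct, Fin.sum_univ_five])
      g
    refine sub_eq_zero.1 ((hWd g).symm.trans ?_)
    ext i
    exact h i (Fin.zero_le i)
  have v0 : ∀ g i, 1 ≤ i → V 0 g i = 0 := R.V0 P hc
  have v1 : ∀ g i, 3 ≤ i → V 1 g i = 0 := R.V1 P hc
  have lead := R.lead P hc
  obtain ⟨χ, hχ⟩ : ∃ χ, V 0 (ψ d1) 0 = χ := ⟨_, rfl⟩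
  have m0 := main 0 χ 0 0 (v0 _ 4 (by decide)) (by rw [v0 _ 2 (by decide)]; ring)
    (by rw [hχ]; ring)
  have χ0 : χ ≠ 0 := by
    intro h0
    have h := congrFun (m0 (ψ.symm d1)) 0
    rw [h0] at h
    simp [w1] at h
  have m1 := main 1 (V 1 (ψ d1) 0 - s * χ) χ 0 (v1 _ 4 (by decide))
    (by rw [(lead _).1, hχ]; ring) (by ring)
  have m2 := main 2 (V 2 (ψ d1) 0 - s * (V 2 (ψ d1) 2 - r * χ)) (V 2 (ψ d1) 2 - r * χ) χ
    (by rw [(lead _).2, hχ]) (by ring) (by ring)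
  refine ⟨p1, p3, s, r, χ, (V 1 (ψ d1) 0 - s * χ) / χ, (V 2 (ψ d1) 2 - r * χ) / χ,
    (V 2 (ψ d1) 0 - s * (V 2 (ψ d1) 2 - r * χ)) / χ, ?_⟩
  refine ⟨fun g => ?_, χ0, fun g => ?_, fun g => ?_, fun g => ?_⟩
  · rw [← hQ]; exact hconj g
  · rw [← hQ, m0 g, ← Matrix.mulVec_smul, zero_smul, zero_smul, add_zero, add_zero]
  · rw [← hQ, m1 g, ← Matrix.mulVec_smul, zero_smul, add_zero, smul_add, smul_smul,
      mul_div_cancel₀ _ χ0, add_comm]
  · rw [← hQ, m2 g, ← Matrix.mulVec_smul, smul_add, smul_add, smul_smul, smul_smul,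
      mul_div_cancel₀ _ χ0, mul_div_cancel₀ _ χ0]
    congr 1
    module

/-- the values of the data -/
theorem Dat.vals (R : Rep m d1 d2 a3 η ω ζ ab M V) {ψ : MulAut G}
    {p1 p3 s r χ x y z : ℂ} (D : Dat M V ψ p1 p3 s r χ x y z) :
    M (ψ d2) 0 1 * p1 = 1 ∧ M (ψ d2) 1 2 = p1 ∧ M (ψ a3) 2 3 * p3 = 1 ∧ M (ψ a3) 0 3 * p3 = s ∧
    p1 * r = -M (ψ d2) 1 4 ∧ V 0 (ψ d1) 0 = χ ∧ V 1 (ψ d1) 0 = χ * (s + x) ∧
    V 2 (ψ d1) 2 = χ * (r + y) ∧ V 2 (ψ d1) 0 = χ * (s * y + z) := by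
  obtain ⟨l10, l20, l30, l40, l21, l31, l41, l32, l42, l43⟩ := R.low
  obtain ⟨g00, g11, g22, g33, g44⟩ := R.dg
  obtain ⟨w1, w2, w3⟩ := R.Vd1
  have c1 := D.conj d2
  have c2 := D.conj a3
  have a1 : M (ψ d2) 0 1 * p1 = 1 := by
    have h := congrFun (congrFun c1 0) 1
    rw [Matrix.mul_apply, Matrix.mul_apply, Fin.sum_univ_five, Fin.sum_univ_five, R.Md2] at h
    simpa using h
  have a2 : M (ψ d2) 1 2 = p1 := by
    have h := congrFun (congrFun c1 1) 2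
    rw [Matrix.mul_apply, Matrix.mul_apply, Fin.sum_univ_five, Fin.sum_univ_five, R.Md2] at h
    simpa [l10] using h
  have a3' : M (ψ a3) 2 3 * p3 = 1 := by
    have h := congrFun (congrFun c2 2) 3
    rw [Matrix.mul_apply, Matrix.mul_apply, Fin.sum_univ_five, Fin.sum_univ_five, R.Ma3] at h
    simpa using h
  have a4 : M (ψ a3) 0 3 * p3 = s := by
    have h := congrFun (congrFun c2 0) 3
    rw [Matrix.mul_apply, Matrix.mul_apply, Fin.sum_univ_five, Fin.sum_univ_five, R.Ma3] at h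
    simpa using h
  have a5 : p1 * r = -M (ψ d2) 1 4 := by
    have h := congrFun (congrFun c1 1) 4
    rw [Matrix.mul_apply, Matrix.mul_apply, Fin.sum_univ_five, Fin.sum_univ_five, R.Md2] at h
    simp [l10, a2] at h
    linear_combination h
  refine ⟨a1, a2, a3', a4, a5, ?_, ?_, ?_, ?_⟩
  · rw [D.v0, w1]
    simp [Matrix.mulVec, dotProduct, Fin.sum_univ_five]
  · rw [D.v1, w1, w2, Pi.smul_apply, smul_eq_mul]
    congr 1
    simp [Matrix.mulVec, dotProduct, Fin.sum_univ_five]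
    ring
  · rw [D.v2, w1, w2, w3, Pi.smul_apply, smul_eq_mul]
    congr 1
    simp [Matrix.mulVec, dotProduct, Fin.sum_univ_five]
    ring
  · rw [D.v2, w1, w2, w3, Pi.smul_apply, smul_eq_mul]
    congr 1
    simp [Matrix.mulVec, dotProduct, Fin.sum_univ_five]
    ring

/-- uniqueness of the data -/
theorem Dat.unique (R : Rep m d1 d2 a3 η ω ζ ab M V) {ψ : MulAut G}
    {p1 p3 s r χ x y z p1' p3' s' r' χ' x' y' z' : ℂ} (D : Dat M V ψ p1 p3 s r χ x y z)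
    (D' : Dat M V ψ p1' p3' s' r' χ' x' y' z') :
    x = x' ∧ y = y' ∧ s = s' ∧ r = r' ∧ z = z' := by
  obtain ⟨A1, A2, A3, A4, A5, A6, A7, A8, A9⟩ := D.vals R
  obtain ⟨B1, B2, B3, B4, B5, B6, B7, B8, B9⟩ := D'.vals R
  have χ0 := D.χ0
  have hp1 : p1 = p1' := by rw [← A2, B2]
  have hp1' : p1 ≠ 0 := by
    rintro h
    rw [h, mul_zero] at A1
    exact zero_ne_one A1
  have h23 : M (ψ a3) 2 3 ≠ 0 := by
    intro h
    rw [h, zero_mul] at A3
    exact zero_ne_one A3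
  have hp3 : p3 = p3' := mul_left_cancel₀ h23 (A3.trans B3.symm)
  have hs : s = s' := by rw [← A4, ← B4, hp3]
  have hr : r = r' := mul_left_cancel₀ hp1' (by rw [A5, ← B5, hp1])
  have hχ : χ = χ' := by rw [← A6, B6]
  subst hp1 hp3 hs hr hχ
  have hx : x = x' := by
    have := mul_left_cancel₀ χ0 (A7.symm.trans B7)
    linear_combination this
  have hy : y = y' := by
    have := mul_left_cancel₀ χ0 (A8.symm.trans B8)
    linear_combination this
  subst hx hy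
  have hz : z = z' := by
    have := mul_left_cancel₀ χ0 (A9.symm.trans B9)
    linear_combination this
  exact ⟨rfl, rfl, rfl, rfl, hz⟩

/-- the matrix unit `(0, 4)` -/
noncomputable abbrev E04 : Matrix (Fin 5) (Fin 5) ℂ :=
  !![0, 0, 0, 0, 1; 0, 0, 0, 0, 0; 0, 0, 0, 0, 0; 0, 0, 0, 0, 0; 0, 0, 0, 0, 0]

theorem E04_left (R : Rep m d1 d2 a3 η ω ζ ab M V) (g : G) : E04 * M g = E04 := by
  obtain ⟨l10, l20, l30, l40, l21, l31, l41, l32, l42, l43⟩ := R.low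
  obtain ⟨g00, g11, g22, g33, g44⟩ := R.dg
  ext i j
  rw [Matrix.mul_apply, Fin.sum_univ_five]
  fin_cases i <;> fin_cases j <;> simp [l40, l41, l42, l43, g44]

theorem E04_right (R : Rep m d1 d2 a3 η ω ζ ab M V) (g : G) : M g * E04 = E04 := by
  obtain ⟨l10, l20, l30, l40, l21, l31, l41, l32, l42, l43⟩ := R.low
  obtain ⟨g00, g11, g22, g33, g44⟩ := R.dg
  ext i j
  rw [Matrix.mul_apply, Fin.sum_univ_five]
  fin_cases i <;> fin_cases j <;> simp [l10, l20, l30, l40, g00]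

theorem Pm_mul (p1 p3 s r p1' p3' s' r' : ℂ) :
    Pm p1' 1 p3' 1 s' r' * Pm p1 1 p3 1 s r =
      Pm (p1' * p1) 1 (p3' * p3) 1 (s' + s) (r' + r) + (s' * r) • E04 := by
  ext i j
  rw [Matrix.mul_apply, Fin.sum_univ_five, Matrix.add_apply, Matrix.smul_apply]
  fin_cases i <;> fin_cases j <;> simp <;> ring

/-- multiplication of the data -/
theorem Dat.mul (P : Pres m d1 d2 a3) (hc : Cst η ω ζ) (R : Rep m d1 d2 a3 η ω ζ ab M V)
    {ψ ψ' : MulAut G}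
    {p1 p3 s r χ x y z p1' p3' s' r' χ' x' y' z' : ℂ} (D' : Dat M V ψ' p1' p3' s' r' χ' x' y' z')
    (D : Dat M V ψ p1 p3 s r χ x y z) :
    Dat M V (ψ' * ψ) (p1' * p1) (p3' * p3) (s' + s) (r' + r) (χ' * χ) (x' + x) (y' + y)
      (z' + z + (y' * x + s' * r)) := by
  have v0 : ∀ g i, 1 ≤ i → V 0 g i = 0 := R.V0 P hc
  have v1 : ∀ g i, 3 ≤ i → V 1 g i = 0 := R.V1 P hc
  have lead := R.lead P hc
  have E0 : ∀ g, E04.mulVec (V 0 g) = 0 := by
    intro g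
    ext i
    fin_cases i <;> simp [Matrix.mulVec, dotProduct, Fin.sum_univ_five, v0 g 4 (by decide)]
  have E1 : ∀ g, E04.mulVec (V 1 g) = 0 := by
    intro g
    ext i
    fin_cases i <;> simp [Matrix.mulVec, dotProduct, Fin.sum_univ_five, v1 g 4 (by decide)]
  have E2 : ∀ g, E04.mulVec (V 2 g) = V 0 g := by
    intro g
    ext i
    fin_cases i <;> simp [Matrix.mulVec, dotProduct, Fin.sum_univ_five, (lead g).2,
      v0 g 1 (by decide), v0 g 2 (by decide), v0 g 3 (by decide), v0 g 4 (by decide)]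
  have Q0 : ∀ (a b c d : ℂ) g, (Pm a 1 b 1 c d).mulVec (V 0 g) = V 0 g := by
    intro a b c d g
    ext i
    fin_cases i <;> simp [Matrix.mulVec, dotProduct, Fin.sum_univ_five,
      v0 g 1 (by decide), v0 g 2 (by decide), v0 g 3 (by decide), v0 g 4 (by decide)]
  have hmul := Pm_mul p1 p3 s r p1' p3' s' r'
  have hmul' : Pm (p1' * p1) 1 (p3' * p3) 1 (s' + s) (r' + r) =
      Pm p1' 1 p3' 1 s' r' * Pm p1 1 p3 1 s r - (s' * r) • E04 := by rw [hmul, add_sub_cancel_right]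
  have comp : ∀ v, (Pm p1' 1 p3' 1 s' r').mulVec ((Pm p1 1 p3 1 s r).mulVec v) =
      (Pm (p1' * p1) 1 (p3' * p3) 1 (s' + s) (r' + r)).mulVec v + (s' * r) • E04.mulVec v := by
    intro v
    rw [Matrix.mulVec_mulVec, hmul, Matrix.add_mulVec, Matrix.smul_mulVec]
  have QQ := Q0 (p1' * p1) (p3' * p3) (s' + s) (r' + r)
  refine ⟨fun g => ?_, mul_ne_zero D'.χ0 D.χ0, fun g => ?_, fun g => ?_, fun g => ?_⟩
  · rw [hmul', MulAut.mul_apply, mul_sub, sub_mul, ← mul_assoc, D'.conj, mul_assoc, D.conj,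
      Matrix.mul_smul, E04_right R, Matrix.smul_mul, E04_left R, mul_assoc]
  · rw [MulAut.mul_apply, D'.v0, D.v0, Matrix.mulVec_smul, comp, E0, smul_zero, add_zero, smul_smul]
  · rw [MulAut.mul_apply, D'.v1, D.v1, D.v0, Matrix.mulVec_add, Matrix.mulVec_smul,
      Matrix.mulVec_smul, Matrix.mulVec_smul, comp, comp]
    simp only [Matrix.mulVec_add, Matrix.mulVec_smul, E0, E1]
    module
  · rw [MulAut.mul_apply, D'.v2, D.v2, D.v1, D.v0, Matrix.mulVec_add, Matrix.mulVec_add,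
      Matrix.mulVec_smul, Matrix.mulVec_smul, Matrix.mulVec_smul, Matrix.mulVec_smul,
      Matrix.mulVec_smul, comp, comp, comp]
    simp only [Matrix.mulVec_add, Matrix.mulVec_smul, E0, E1, E2, QQ]
    module

end Aux

/-- the bilinear map -/
noncomputable def Bil : (Fin 4 → ℂ) →ₗ[ℚ] (Fin 4 → ℂ) →ₗ[ℚ] ℂ :=
  LinearMap.mk₂ ℚ (fun q' q => q' 1 * q 0 + q' 2 * q 3)
    (fun a b c => by simp only [Pi.add_apply]; ring)
    (fun c a b => by simp only [Pi.smul_apply, smul_add, smul_mul_assoc])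
    (fun a b c => by simp only [Pi.add_apply]; ring)
    (fun c a b => by simp only [Pi.smul_apply, smul_add, mul_smul_comm])

theorem Bil_apply (a b : Fin 4 → ℂ) : Bil a b = a 1 * b 0 + a 2 * b 3 := rfl

theorem Hs.mul_q {Q C : Type} [AddCommGroup Q] [Module ℚ Q] [AddCommGroup C] [Module ℚ C]
    {B : Q →ₗ[ℚ] Q →ₗ[ℚ] C} (x y : Hs B) : (x * y).q = x.q + y.q := rfl
theorem Hs.mul_c {Q C : Type} [AddCommGroup Q] [Module ℚ Q] [AddCommGroup C] [Module ℚ C]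
    {B : Q →ₗ[ℚ] Q →ₗ[ℚ] C} (x y : Hs B) : (x * y).c = x.c + y.c + B x.q y.q := rfl

theorem exists_heis {Γ : Type} [Group Γ] {m d1 d2 a3 : G} (P : Pres m d1 d2 a3)
    {φ : Γ →* MulAut G} {α β : Γ} (hA : Act Γ m d1 d2 a3 φ α β) :
    ∃ (Q C : Type) (_ : AddCommGroup Q) (_ : Module ℚ Q) (_ : AddCommGroup C) (_ : Module ℚ C)
      (B : Q →ₗ[ℚ] Q →ₗ[ℚ] C) (Φ : Γ →* Hs B), Φ α * Φ β ≠ Φ β * Φ α := by
  obtain ⟨η, ω, ζ, hc⟩ := exists_cst
  obtain ⟨ab, M, V, R⟩ := exists_rep P hc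
  have hD : ∀ γ, ∃ p1 p3 s r χ x y z : ℂ, Dat M V (φ γ) p1 p3 s r χ x y z :=
    fun γ => exists_dat P hc R (φ γ) (hA.fm γ) (hA.fl γ)
  choose p1 p3 s r χ x y z D using hD
  have hmul : ∀ γ' γ, x (γ' * γ) = x γ' + x γ ∧ y (γ' * γ) = y γ' + y γ ∧ s (γ' * γ) = s γ' + s γ ∧
      r (γ' * γ) = r γ' + r γ ∧ z (γ' * γ) = z γ' + z γ + (y γ' * x γ + s γ' * r γ) := by
    intro γ' γ
    have h1 := D (γ' * γ)
    rw [map_mul] at h1
    exact h1.unique R (Dat.mul P hc R (D γ') (D γ))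
  let Φ : Γ →* Hs Bil := MonoidHom.mk' (fun γ => ⟨![x γ, y γ, s γ, r γ], z γ⟩) (fun γ' γ => by
    obtain ⟨hx, hy, hs, hr, hz⟩ := hmul γ' γ
    apply Hs.ext
    · rw [Hs.mul_q]
      ext i
      fin_cases i <;> simp [hx, hy, hs, hr]
    · rw [Hs.mul_c, Bil_apply]
      simp [hz])
  have hΦ : ∀ γ, Φ γ = ⟨![x γ, y γ, s γ, r γ], z γ⟩ := fun γ => rfl
  refine ⟨Fin 4 → ℂ, ℂ, inferInstance, inferInstance, inferInstance, inferInstance, Bil, Φ, ?_⟩
  intro hcomm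
  have hcc := congrArg Hs.c hcomm
  rw [Hs.mul_c, Hs.mul_c, hΦ, hΦ, Bil_apply, Bil_apply] at hcc
  simp at hcc
  -- the data of `α` and `β`
  obtain ⟨w1, w2, w3⟩ := R.Vd1
  have hL1i : M (L1 m d1)⁻¹ = Matrix.diagonal ![1, η⁻¹, 1, ω⁻¹, 1] := by
    have hη := ne0_of_D2 hc.h2
    have hω := ne0_of_D3 hc.h3
    apply R.inv_eq
    rw [R.L1 hc, Matrix.diagonal_mul_diagonal, ← Matrix.diagonal_one]
    congr 1
    ext i
    fin_cases i <;> simp [hη, hω]
  have hd2 : M (L1 m d1 * d2 * (L1 m d1)⁻¹) 1 4 = 0 := by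
    rw [R.mul, R.mul, hL1i, R.L1 hc, R.Md2]
    rw [Matrix.mul_diagonal, Matrix.diagonal_mul]
    simp
  obtain ⟨A1, A2, A3, A4, A5, A6, A7, A8, A9⟩ := (D α).vals R
  obtain ⟨B1, B2, B3, B4, B5, B6, B7, B8, B9⟩ := (D β).vals R
  have hpα : p1 α ≠ 0 := by
    rintro h
    rw [h, mul_zero] at A1
    exact zero_ne_one A1
  have hpβ : p1 β ≠ 0 := by
    rintro h
    rw [h, mul_zero] at B1
    exact zero_ne_one B1
  have hsα : s α = 0 := by
    rw [← A4, hA.α3, R.Ma3]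
    simp
  have hrα : r α = 0 := by
    rw [hA.α2, hd2, neg_zero] at A5
    exact (mul_eq_zero.1 A5).resolve_left hpα
  have hrβ : r β = 0 := by
    rw [hA.β2, hd2, neg_zero] at B5
    exact (mul_eq_zero.1 B5).resolve_left hpβ
  have hz := ne0_of_D1 hc.h1
  obtain ⟨u, hu⟩ := R.L2row0 hc
  have hl2 := R.L2row2 hc
  have e0 : M (L1 m d1 * L2 m d2) 0 = ![1, u, 2 - 3 * η, 0, 0] := by
    rw [R.row, R.L1 hc]
    refine Eq.trans ?_ hu
    ext j
    simp [Matrix.vecMul, dotProduct, Fin.sum_univ_five, Matrix.diagonal_apply]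
  have e2 : M (L1 m d1 * L2 m d2) 2 = ![0, 0, 1, 0, 0] := by
    rw [R.row, R.L1 hc]
    refine Eq.trans ?_ hl2
    ext j
    simp [Matrix.vecMul, dotProduct, Fin.sum_univ_five, Matrix.diagonal_apply]
  have f02 : M (L1 m d1 * L2 m d2 * (L1 m d1)⁻¹) 0 2 = 2 - 3 * η := by
    rw [R.mul, hL1i, Matrix.mul_diagonal, e0]
    simp
  have f24 : M (L1 m d1 * L2 m d2 * (L1 m d1)⁻¹) 2 4 = 0 := by
    rw [R.mul, hL1i, Matrix.mul_diagonal, e2]
    simp
  have g24 : M (L1 m d1 * L2 m d2 * L3 m a3 * (L1 m d1)⁻¹) 2 4 = ω - 2 := by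
    rw [R.mul, hL1i, Matrix.mul_diagonal, (R.Ltot hc).2]
    simp
  have hyα : y α = 0 := by
    rw [hA.α1, R.Vconj hc, w3, Pi.smul_apply, Matrix.mulVec, dotProduct, Fin.sum_univ_five,
      f24, hrα] at A8
    simp at A8
    exact A8.resolve_left (D α).χ0
  have hxα : x α ≠ 0 := by
    intro h
    rw [hA.α1, R.Vconj hc, w2, Pi.smul_apply, Matrix.mulVec, dotProduct, Fin.sum_univ_five,
      f02, hsα, h] at A7
    simp [hz] at A7
    exact n1 hc (A7.resolve_left (zpow_ne_zero _ hz))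
  have hyβ : y β ≠ 0 := by
    intro h
    rw [hA.β1, R.Vconj hc, w3, Pi.smul_apply, Matrix.mulVec, dotProduct, Fin.sum_univ_five,
      g24, hrβ, h] at B8
    simp [hz] at B8
    exact n2 hc (B8.resolve_left (zpow_ne_zero _ hz))
  rw [hyα, hsα, hrα] at hcc
  have : y β * x α = 0 := by linear_combination -hcc
  exact (mul_ne_zero hyβ hxα) this

end H414C
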